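import Pool.Agent.Lib.MP_661727_gt.Ar.Defs

/-! Lorentzian algebra. -/

namespace Pool.Agent.Lib.MP_661727_gt.Ar

variable {d : ℕ} {x y z u w a b η : Mink d}

lemma lor_neg_left (x y : Mink d) : lor (-x) y = - lor x y := by
  simp only [lor, Prod.snd_neg, Prod.fst_neg, neg_dotProduct]; ring
lemma lor_neg_right (x y : Mink d) : lor x (-y) = - lor x y := by
  simp only [lor_comm x, lor_neg_left]
lemma lor_zero_left (x : Mink d) : lor 0 x = 0 := by simp [lor]
lemma lor_zero_right (x : Mink d) : lor x 0 = 0 := by simp [lor]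
lemma Nul.fut (h : Nul η) : Fut η := ⟨h.1.le, h.2⟩
lemma Nul.ne (h : Nul η) : η ≠ 0 := fun h0 => by
  have := h.2
  rw [h0] at this
  simp at this

lemma A_fst_zero (h : a.1 = 0) : 0 ≤ lor a a ∧ (lor a a ≤ 0 → a = 0) := by
  have h1 : lor a a = a.2 ⬝ᵥ a.2 := by simp [lor, h]
  have h2 := dot_nonneg a.2
  refine ⟨h1 ▸ h2, fun h3 => Prod.ext h ?_⟩
  exact dotProduct_self_eq_zero.1 (le_antisymm (h1 ▸ h3) h2)

lemma A_perp (hη : Fut η) (ha : lor a η = 0) :
    0 ≤ lor a a ∧ (lor a a ≤ 0 → ∃ s : ℝ, a = s • η) := by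
  have h0 : η.1 ≠ 0 := hη.2.ne'
  have h1 : (a - (a.1 / η.1) • η).1 = 0 := by
    simp only [Prod.fst_sub, Prod.smul_fst, smul_eq_mul]; field_simp; ring
  obtain ⟨h2, h3⟩ := A_fst_zero h1
  have h4 : lor (a - (a.1 / η.1) • η) (a - (a.1 / η.1) • η) =
      lor a a + (a.1 / η.1) ^ 2 * lor η η := by
    simp only [lor_sub_left, lor_sub_right, lor_smul_left, lor_smul_right, lor_comm η a, ha]
    ring
  have h5 : (a.1 / η.1) ^ 2 * lor η η ≤ 0 := mul_nonpos_of_nonneg_of_nonpos (sq_nonneg _) hη.1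
  refine ⟨by linarith, fun h => ⟨a.1 / η.1, sub_eq_zero.1 (h3 (by linarith))⟩⟩

lemma q_nonneg (hx : x ∈ Hyp d) (a : Mink d) : 0 ≤ lor a a + lor a x ^ 2 := by
  have h1 : lor (a + lor a x • x) x = 0 := by
    rw [lor_add_left, lor_smul_left, hx.1]; ring
  have h2 := (A_perp (fut_of_hyp hx) h1).1
  simp only [lor_add_left, lor_add_right, lor_smul_left, lor_smul_right, lor_comm x a, hx.1] at h2
  nlinarith
lemma q_eq_zero (hx : x ∈ Hyp d) (h : lor a x = 0) (h' : lor a a ≤ 0) : a = 0 := by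
  obtain ⟨s, hs⟩ := (A_perp (fut_of_hyp hx) h).2 h'
  rw [hs, lor_smul_left, hx.1] at h
  have : s = 0 := by linarith
  rw [hs, this, zero_smul]
/-- Cauchy-Schwarz for the positive form at `x` -/
lemma cs_at (hx : x ∈ Hyp d) (a b : Mink d) :
    (lor a b + lor a x * lor b x) ^ 2 ≤ (lor a a + lor a x ^ 2) * (lor b b + lor b x ^ 2) := by
  have h := discrim_le_zero (a := lor a a + lor a x ^ 2) (b := 2 * (lor a b + lor a x * lor b x))
    (c := lor b b + lor b x ^ 2) fun s => by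
      have h1 := q_nonneg hx (s • a + b)
      simp only [lor_add_left, lor_add_right, lor_smul_left, lor_smul_right, lor_comm b a] at h1
      nlinarith
  simp only [discrim] at h
  nlinarith
lemma one_le_cosh (hx : x ∈ Hyp d) (hy : y ∈ Hyp d) : 1 ≤ - lor x y := by
  have h1 := q_nonneg hy x
  have h2 := lor_neg hx (fut_of_hyp hy)
  rw [hx.1] at h1
  nlinarith
/-- the same for a future vector -/
lemma tri_fut (hx : x ∈ Hyp d) (hy : y ∈ Hyp d) (hη : Fut η) :
    - lor x η ≤ 2 * (- lor x y) * (- lor y η) := by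
  have h1 := cs_at hy x η
  have h2 := one_le_cosh hx hy
  have h3 := lor_neg hy hη
  have h4 := q_nonneg hy η
  have h5 := hη.1
  rw [hx.1, lor_comm η y] at h1
  rw [lor_comm η y] at h4
  have h6 : (lor x η + lor x y * lor y η) ^ 2 ≤ (lor x y * lor y η) ^ 2 := by
    refine h1.trans ?_
    rw [mul_pow]
    exact mul_le_mul (by linarith) (by linarith) h4 (sq_nonneg _)
  have h7 : 0 ≤ lor x y * lor y η := by nlinarith
  have h8 := (abs_le_of_sq_le_sq' h6 h7).1
  nlinarith
lemma tri3 (hx : x ∈ Hyp d) (hy : y ∈ Hyp d) (hz : z ∈ Hyp d) :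
    - lor x z ≤ 2 * (- lor x y) * (- lor y z) := tri_fut hx hy (fut_of_hyp hz)
lemma low (hx : x ∈ Hyp d) (hy : y ∈ Hyp d) (hw : lor w w = 1) {K : ℝ} (hK : 0 ≤ K)
    (h : -K ≤ lor y w) : -((2 * K + 1) * (- lor x y)) ≤ lor x w := by
  have h1 := cs_at hy x w
  have h2 := one_le_cosh hx hy
  rw [hx.1, hw, lor_comm w y] at h1
  have h3 : (lor x w + lor x y * lor y w) ^ 2 ≤ ((- lor x y) * (1 + |lor y w|)) ^ 2 := by
    refine h1.trans ?_
    rw [mul_pow]
    have := abs_nonneg (lor y w)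
    have := sq_abs (lor y w)
    exact mul_le_mul (by nlinarith) (by nlinarith) (by positivity) (sq_nonneg _)
  have h4 := (abs_le_of_sq_le_sq' h3 (by positivity)).1
  rcases abs_cases (lor y w) with ⟨e, e'⟩ | ⟨e, e'⟩ <;> rw [e] at h4 <;> nlinarith
lemma abs_le_near (hx : x ∈ Hyp d) (hy : y ∈ Hyp d) (hw : lor w w = 1) {K : ℝ}
    (h : |lor y w| ≤ K) : |lor x w| ≤ (2 * K + 1) * (- lor x y) := by
  have hK : 0 ≤ K := (abs_nonneg _).trans h
  obtain ⟨h1, h2⟩ := abs_le.1 h
  have h3 := low hx hy hw hK h1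
  have h4 := low (w := -w) hx hy (by rw [lor_neg_left, lor_neg_right, hw, neg_neg]) hK
    (by rw [lor_neg_right]; linarith)
  rw [lor_neg_right] at h4
  exact abs_le.2 ⟨h3, by linarith⟩
lemma abs_lor_le (hx : x ∈ Hyp d) (hu : lor u u = 1) (hw : lor w w = 1) {K : ℝ}
    (h1 : |lor x u| ≤ K) (h2 : |lor x w| ≤ K) : |lor u w| ≤ 1 + 2 * K ^ 2 := by
  have h3 := cs_at hx u w
  have hK : 0 ≤ K := (abs_nonneg _).trans h1
  rw [hu, hw, lor_comm u x, lor_comm w x] at h3
  have a1 : lor x u ^ 2 ≤ K ^ 2 := by rw [← sq_abs]; exact pow_le_pow_left₀ (abs_nonneg _) h1 2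
  have a2 : lor x w ^ 2 ≤ K ^ 2 := by rw [← sq_abs]; exact pow_le_pow_left₀ (abs_nonneg _) h2 2
  have h4 : (lor u w + lor x u * lor x w) ^ 2 ≤ (1 + K ^ 2) ^ 2 := by
    refine h3.trans ?_
    rw [sq (1 + K ^ 2)]
    exact mul_le_mul (by linarith) (by linarith) (by positivity) (by positivity)
  obtain ⟨h5, h6⟩ := abs_le_of_sq_le_sq' h4 (by positivity)
  have h7 : |lor x u * lor x w| ≤ K ^ 2 := by
    rw [abs_mul, sq]; exact mul_le_mul h1 h2 (abs_nonneg _) hK
  obtain ⟨h8, h9⟩ := abs_le.1 h7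
  exact abs_le.2 ⟨by linarith, by linarith⟩
lemma null_nonneg (hη : Nul η) (ha : lor a η = 0) : 0 ≤ lor a a := (A_perp hη.fut ha).1
lemma null_par (hη : Nul η) (ha : lor a η = 0) (h : lor a a ≤ 0) : ∃ s : ℝ, a = s • η :=
  (A_perp hη.fut ha).2 h
lemma cs_null (hη : Nul η) (ha : lor a η = 0) (hb : lor b η = 0) :
    lor a b ^ 2 ≤ lor a a * lor b b := by
  have h := discrim_le_zero (a := lor a a) (b := 2 * lor a b) (c := lor b b) fun s => by
    have h1 := null_nonneg (a := s • a + b) hη (by rw [lor_add_left, lor_smul_left, ha, hb]; ring)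
    simp only [lor_add_left, lor_add_right, lor_smul_left, lor_smul_right, lor_comm b a] at h1
    nlinarith
  simp only [discrim] at h
  nlinarith
lemma causal (h : lor a a ≤ 0) : a = 0 ∨ Fut a ∨ Fut (-a) := by
  rcases lt_trichotomy a.1 0 with h1 | h1 | h1
  · refine Or.inr (Or.inr ⟨by rw [lor_neg_left, lor_neg_right, neg_neg]; exact h, ?_⟩)
    simp only [Prod.fst_neg]; linarith
  · exact Or.inl ((A_fst_zero h1).2 h)
  · exact Or.inr (Or.inl ⟨h, h1⟩)
lemma mem_hyp (h : lor x x = -1) (hη : Fut η) (h' : lor x η < 0) : x ∈ Hyp d := by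
  rcases causal (a := x) (by rw [h]; norm_num) with h1 | h1 | h1
  · rw [h1, lor_zero_left] at h'; exact absurd h' (lt_irrefl _)
  · exact ⟨h, h1.2⟩
  · have := lor_nonpos h1 hη
    rw [lor_neg_left] at this
    linarith
/-- height of a wall above a horosphere -/
lemma height (hx : x ∈ Hyp d) (hη : Nul η) (hw : lor w w = 1) :
    lor w η ≤ (- lor x η) * (lor x w + √(1 + lor x w ^ 2)) := by
  have h1 := cs_at hx w η
  have h2 := lor_neg hx hη.fut
  rw [hw, hη.1, lor_comm w x, lor_comm η x, zero_add] at h1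
  have h3 : √(1 + lor x w ^ 2) ^ 2 = 1 + lor x w ^ 2 := Real.sq_sqrt (by positivity)
  have h4 : (lor w η + lor x w * lor x η) ^ 2 ≤ ((- lor x η) * √(1 + lor x w ^ 2)) ^ 2 := by
    rw [mul_pow, h3]; nlinarith
  have h5 := (abs_le_of_sq_le_sq' h4 (mul_nonneg (by linarith) (Real.sqrt_nonneg _))).2
  nlinarith

/-- projection of a point to a wall -/
lemma proj_mem (hx : x ∈ Hyp d) (hu : lor u u = 1) :
    (√(1 + lor x u ^ 2))⁻¹ • (x - lor x u • u) ∈ Hyp d := by
  have h0 : 0 < 1 + lor x u ^ 2 := by positivity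
  have h1 : 0 < √(1 + lor x u ^ 2) := Real.sqrt_pos.2 h0
  have h2 := Real.mul_self_sqrt h0.le
  refine mem_hyp ?_ (fut_of_hyp hx) ?_
  · simp only [lor_sub_left, lor_sub_right, lor_smul_left, lor_smul_right, lor_comm u x, hx.1, hu]
    field_simp
    nlinarith
  · simp only [lor_sub_left, lor_smul_left, lor_comm u x, hx.1]
    exact mul_neg_of_pos_of_neg (inv_pos.2 h1) (by nlinarith)
lemma exists_on_wall (hu : lor u u = 1) : ∃ x ∈ Hyp d, lor x u = 0 :=
  ⟨_, proj_mem oo_mem hu, by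
    simp only [lor_sub_left, lor_smul_left, hu]; ring⟩

lemma A_exists_pos (ha : 0 < lor a a) : ∃ x ∈ Hyp d, 0 < lor x a := by
  have h1 : 0 < √(lor a a) := Real.sqrt_pos.2 ha
  have h2 := Real.mul_self_sqrt ha.le
  have hu : lor ((√(lor a a))⁻¹ • a) ((√(lor a a))⁻¹ • a) = 1 := by
    rw [lor_smul_left, lor_smul_right]; field_simp; nlinarith
  obtain ⟨x, hx, h3⟩ := exists_on_wall hu
  have h4 : lor x a = 0 := by
    rw [lor_smul_right] at h3
    exact (mul_eq_zero.1 h3).resolve_left (inv_pos.2 h1).ne'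
  set v := (√(lor a a))⁻¹ • a with hv
  have h5 : lor v x = 0 := by rw [lor_comm]; exact h3
  refine ⟨(5 / 4 : ℝ) • x + (3 / 4 : ℝ) • v, mem_hyp ?_ (fut_of_hyp hx) ?_, ?_⟩
  · simp only [lor_add_left, lor_add_right, lor_smul_left, lor_smul_right, hx.1, hu, h3, h5]
    norm_num
  · simp only [lor_add_left, lor_smul_left, hx.1, h5]
    norm_num
  · rw [lor_add_left, lor_smul_left, lor_smul_left, h4, hv, lor_smul_left]
    positivity

lemma Le.rfl : Le u u := fun _ _ => le_rfl
lemma Le.trans (h : Le a b) (h' : Le b u) : Le a u := fun x hx => (h x hx).trans (h' x hx)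
lemma le_iff : Le u w ↔ u = w ∨ Fut (u - w) := by
  constructor
  · intro h
    have h1 : lor (u - w) (u - w) ≤ 0 := by
      by_contra hc
      obtain ⟨x, hx, h2⟩ := A_exists_pos (not_le.1 hc)
      have := h x hx
      rw [lor_sub_right] at h2
      linarith
    rcases causal h1 with h2 | h2 | h2
    · exact Or.inl (sub_eq_zero.1 h2)
    · exact Or.inr h2
    · have h3 := lor_neg oo_mem h2
      have h4 := h _ oo_mem
      rw [lor_neg_right, lor_sub_right] at h3
      linarith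
  · rintro (rfl | h)
    · exact Le.rfl
    · intro x hx
      have := lor_neg hx h
      rw [lor_sub_right] at this
      linarith
lemma Le.lt (h : Le u w) (hne : u ≠ w) (hx : x ∈ Hyp d) : lor x u < lor x w := by
  have := lor_neg hx ((le_iff.1 h).resolve_left hne)
  rw [lor_sub_right] at this
  linarith
lemma Le.antisymm (h : Le u w) (h' : Le w u) : u = w := by
  by_contra hc
  exact absurd (h.lt hc oo_mem) (not_lt.2 (h' _ oo_mem))
lemma Le.neg (h : Le u w) : Le (-w) (-u) := fun x hx => by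
  rw [lor_neg_right, lor_neg_right]; exact neg_le_neg (h x hx)
lemma le_neg_iff : Le u (-w) ↔ Le w (-u) :=
  ⟨fun h => by simpa using h.neg, fun h => by simpa using h.neg⟩
lemma neg_le_iff : Le (-u) w ↔ Le (-w) u :=
  ⟨fun h => by simpa using h.neg, fun h => by simpa using h.neg⟩
lemma Le.fut (h : Le u w) (hη : Fut η) : lor u η ≤ lor w η := by
  rcases le_iff.1 h with rfl | h1
  · exact le_rfl
  · have := lor_nonpos h1 hη
    rw [lor_sub_left] at this
    linarith
lemma Le.one_le (h : Le u w) (hu : lor u u = 1) (hw : lor w w = 1) : 1 ≤ lor u w := by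
  rcases le_iff.1 h with rfl | h1
  · exact hu.ge
  · have := h1.1
    simp only [lor_sub_left, lor_sub_right, lor_comm w u, hu, hw] at this
    linarith
lemma le_total_of (hu : lor u u = 1) (hw : lor w w = 1) (h : 1 ≤ lor u w) : Le u w ∨ Le w u := by
  have h1 : lor (u - w) (u - w) ≤ 0 := by
    simp only [lor_sub_left, lor_sub_right, lor_comm w u, hu, hw]; linarith
  rcases causal h1 with h2 | h2 | h2
  · exact Or.inl (le_iff.2 (Or.inl (sub_eq_zero.1 h2)))
  · exact Or.inl (le_iff.2 (Or.inr h2))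
  · exact Or.inr (le_iff.2 (Or.inr (by rwa [neg_sub] at h2)))
lemma cross_iff (hu : lor u u = 1) (hw : lor w w = 1) :
    |lor u w| < 1 ↔ ¬ Le u w ∧ ¬ Le w u ∧ ¬ Le u (-w) ∧ ¬ Le (-w) u := by
  have hw' : lor (-w) (-w) = 1 := by rw [lor_neg_left, lor_neg_right, hw, neg_neg]
  constructor
  · intro h
    obtain ⟨h1, h2⟩ := abs_lt.1 h
    refine ⟨fun h3 => ?_, fun h3 => ?_, fun h3 => ?_, fun h3 => ?_⟩
    · linarith [h3.one_le hu hw]
    · have := h3.one_le hw hu
      rw [lor_comm] at this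
      linarith
    · have := h3.one_le hu hw'
      rw [lor_neg_right] at this
      linarith
    · have := h3.one_le hw' hu
      rw [lor_neg_left, lor_comm] at this
      linarith
  · rintro ⟨h1, h2, h3, h4⟩
    refine abs_lt.2 ⟨?_, ?_⟩
    · by_contra hc
      rcases le_total_of hu hw' (by rw [lor_neg_right]; linarith [not_lt.1 hc]) with h | h
      · exact h3 h
      · exact h4 h
    · by_contra hc
      rcases le_total_of hu hw (not_lt.1 hc) with h | h
      · exact h1 h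
      · exact h2 h
lemma not_le_neg (hu : lor u u = 1) : ¬ Le u (-u) := fun h => by
  have := h.one_le hu (by rw [lor_neg_left, lor_neg_right, hu, neg_neg])
  rw [lor_neg_right, hu] at this
  linarith
lemma not_neg_le (hu : lor u u = 1) : ¬ Le (-u) u := fun h => by
  have := h.one_le (by rw [lor_neg_left, lor_neg_right, hu, neg_neg]) hu
  rw [lor_neg_left, hu] at this
  linarith
lemma ne_neg (hu : lor u u = 1) : u ≠ -u := fun h => not_le_neg hu (le_iff.2 (Or.inl h))
lemma le_shift (hη : Nul η) (w : Mink d) (s s' : ℝ) :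
    Le (w + s • η) (w + s' • η) ↔ s' ≤ s := by
  constructor
  · intro h
    have h1 := h _ oo_mem
    have h2 := lor_neg oo_mem hη.fut
    simp only [lor_add_right, lor_smul_right] at h1
    by_contra hc
    nlinarith [not_le.1 hc]
  · intro h x hx
    have h2 := lor_neg hx hη.fut
    simp only [lor_add_right, lor_smul_right]
    nlinarith
lemma shift_inj (hη : Nul η) {s s' : ℝ} (h : w + s • η = w + s' • η) : s = s' :=
  le_antisymm ((le_shift hη w s' s).1 (le_iff.2 (Or.inl h.symm)))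
    ((le_shift hη w s s').1 (le_iff.2 (Or.inl h)))
lemma shift_ne_neg (hη : Nul η) (hw : lor w w = 1) (h : lor w η = 0) (s s' : ℝ) :
    w + s • η ≠ -(w + s' • η) := fun h1 => by
  have h2 := congrArg (lor w) h1
  simp only [lor_neg_right, lor_add_right, lor_smul_right, hw, h] at h2
  linarith
lemma Le.par (h : Le u w) (hη : Nul η) (hu : lor u η = 0) (hw : lor w η = 0) :
    ∃ s : ℝ, 0 ≤ s ∧ u = w + s • η := by
  rcases le_iff.1 h with rfl | h1
  · exact ⟨0, le_rfl, by simp⟩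
  · obtain ⟨s, hs⟩ := null_par hη (by rw [lor_sub_left, hu, hw, sub_zero]) h1.1
    have h2 := h1.2
    rw [hs, Prod.smul_fst, smul_eq_mul] at h2
    exact ⟨s, ((mul_pos_iff_of_pos_right hη.2).1 h2).le, by rw [← hs]; abel⟩
/-- walls through a cusp cross or are parallel -/
lemma par_of_not_cross (hη : Nul η) (hu : lor u u = 1) (hw : lor w w = 1) (h1 : lor u η = 0)
    (h2 : lor w η = 0) (h : ¬ |lor u w| < 1) :
    ∃ s : ℝ, u = w + s • η ∨ u = -(w + s • η) := by
  rcases le_abs'.1 (not_lt.1 h) with h3 | h3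
  · obtain ⟨s, hs⟩ := null_par (a := u + w) hη (by rw [lor_add_left, h1, h2, add_zero]) (by
      simp only [lor_add_left, lor_add_right, lor_comm w u, hu, hw]; linarith)
    exact ⟨-s, Or.inr (by rw [neg_smul, ← hs]; abel)⟩
  · obtain ⟨s, hs⟩ := null_par (a := u - w) hη (by rw [lor_sub_left, h1, h2, sub_zero]) (by
      simp only [lor_sub_left, lor_sub_right, lor_comm w u, hu, hw]; linarith)
    exact ⟨s, Or.inl (by rw [← hs]; abel)⟩

/-- points of a segment -/
lemma comb (hx : x ∈ Hyp d) (hy : y ∈ Hyp d) {p q : ℝ} (hp : 0 ≤ p) (hq : 0 ≤ q) (h : p + q = 1) :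
    ∃ c : ℝ, 0 < c ∧ c ≤ 1 ∧ c • (p • x + q • y) ∈ Hyp d := by
  have h0 := one_le_cosh hx hy
  have hpq := mul_nonneg hp hq
  have h1 : 1 ≤ - lor (p • x + q • y) (p • x + q • y) := by
    simp only [lor_add_left, lor_add_right, lor_smul_left, lor_smul_right, lor_comm y x, hx.1, hy.1]
    have : (p + q) ^ 2 = 1 := by rw [h]; norm_num
    nlinarith
  set m := - lor (p • x + q • y) (p • x + q • y) with hm
  have h2 : 1 ≤ √m := Real.one_le_sqrt.2 h1
  have h3 : 0 < √m := by linarith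
  have h4 := Real.mul_self_sqrt (show 0 ≤ m by linarith)
  refine ⟨(√m)⁻¹, inv_pos.2 h3, inv_le_one_of_one_le₀ h2, mem_hyp ?_ (fut_of_hyp hx) ?_⟩
  · have : lor (p • x + q • y) (p • x + q • y) = -m := by rw [hm, neg_neg]
    rw [lor_smul_left, lor_smul_right, this]
    field_simp
    nlinarith
  · rw [lor_smul_left]
    refine mul_neg_of_pos_of_neg (inv_pos.2 h3) ?_
    simp only [lor_add_left, lor_smul_left, lor_comm y x, hx.1]
    nlinarith
/-- projection of a point to a horosphere -/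
lemma horo_pt (hx : x ∈ Hyp d) (hη : Nul η) :
    (- lor x η)⁻¹ • x + ((1 - ((- lor x η)⁻¹) ^ 2) / 2) • η ∈ Hyp d ∧
    lor ((- lor x η)⁻¹ • x + ((1 - ((- lor x η)⁻¹) ^ 2) / 2) • η) η = -1 ∧
    - lor x ((- lor x η)⁻¹ • x + ((1 - ((- lor x η)⁻¹) ^ 2) / 2) • η) =
      ((- lor x η)⁻¹ + (- lor x η)) / 2 := by
  have h0 : lor x η ≠ 0 := (lor_neg hx hη.fut).ne
  have h1 : lor ((- lor x η)⁻¹ • x + ((1 - ((- lor x η)⁻¹) ^ 2) / 2) • η) η = -1 := by
    simp only [lor_add_left, lor_smul_left, hη.1]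
    field_simp
    ring
  refine ⟨mem_hyp ?_ hη.fut (by rw [h1]; norm_num), h1, ?_⟩
  · simp only [lor_add_left, lor_add_right, lor_smul_left, lor_smul_right, lor_comm η x, hη.1, hx.1]
    field_simp
    ring
  · simp only [lor_add_right, lor_smul_right, hx.1]
    field_simp
    ring

end Pool.Agent.Lib.MP_661727_gt.Ar
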