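import Pool.Agent.Lib.MP_661727_gt.Ar.A

/-! Integral lattices in Minkowski space. -/

namespace Pool.Agent.Lib.MP_661727_gt.Ar

variable {d : ℕ}

/-- an integral lattice -/
structure Lat (Λ : AddSubgroup (Mink d)) : Prop where
  span : Submodule.span ℝ (Λ : Set (Mink d)) = ⊤
  int : ∀ x ∈ Λ, ∀ y ∈ Λ, ∃ n : ℤ, lor x y = n

variable {Λ : AddSubgroup (Mink d)}

/-- Euclidean norm square -/
def b1E (v : Mink d) : ℝ := lor v v + 2 * v.1 ^ 2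

lemma b1E_eq (v : Mink d) : b1E v = v.2 ⬝ᵥ v.2 + v.1 ^ 2 := by unfold b1E lor; ring

lemma b1_dot (a : Fin d → ℝ) : 0 ≤ a ⬝ᵥ a := Finset.sum_nonneg fun _ _ => mul_self_nonneg _

lemma b1E_nonneg (v : Mink d) : 0 ≤ b1E v := by
  rw [b1E_eq]; exact add_nonneg (b1_dot _) (sq_nonneg _)

lemma b1_dcs (a b : Fin d → ℝ) : (a ⬝ᵥ b) ^ 2 ≤ (a ⬝ᵥ a) * (b ⬝ᵥ b) := by
  simpa only [dotProduct, sq] using Finset.sum_mul_sq_le_sq_mul_sq Finset.univ a b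

lemma b1_cs (a b : Mink d) : lor a b ^ 2 ≤ b1E a * b1E b := by
  rw [b1E_eq, b1E_eq, lor]
  have h1 := b1_dcs a.2 b.2
  have h2 := b1_dot a.2
  have h3 := b1_dot b.2
  generalize a.2 ⬝ᵥ b.2 = p at *
  generalize a.2 ⬝ᵥ a.2 = A at *
  generalize b.2 ⬝ᵥ b.2 = B at *
  have h4 : |2 * p * a.1 * b.1| ≤ A * b.1 ^ 2 + B * a.1 ^ 2 := by
    refine abs_le_of_sq_le_sq ?_ (by positivity)
    nlinarith [mul_le_mul_of_nonneg_right h1 (sq_nonneg (a.1 * b.1)),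
      sq_nonneg (A * b.1 ^ 2 - B * a.1 ^ 2)]
  nlinarith [(abs_le.1 h4).1]

lemma b1_abs {a b : Mink d} {A B : ℝ} (ha : b1E a ≤ A) (hb : b1E b ≤ B) : |lor a b| ≤ A * B + 1 := by
  have h1 := (b1_cs a b).trans (mul_le_mul ha hb (b1E_nonneg _) ((b1E_nonneg _).trans ha))
  rw [← sq_abs] at h1
  nlinarith [sq_nonneg (|lor a b| - 1), abs_nonneg (lor a b)]

lemma b1_self (a : Mink d) : |lor a a| ≤ b1E a := by
  have h1 := b1_dot a.2
  rw [b1E_eq, lor, abs_le]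
  constructor <;> nlinarith [sq_nonneg a.1]

lemma b1E_smul (t : ℝ) (a : Mink d) : b1E (t • a) = t ^ 2 * b1E a := by
  unfold b1E
  rw [lor_smul_left, lor_smul_right, Prod.smul_fst, smul_eq_mul]; ring

lemma b1E_sub (a b : Mink d) : b1E (a - b) ≤ 2 * b1E a + 2 * b1E b := by
  have h := b1E_nonneg (a + b)
  unfold b1E at *
  simp only [lor_add_left, lor_add_right, lor_sub_left, lor_sub_right, Prod.fst_add,
    Prod.fst_sub] at *
  nlinarith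

lemma b1E_le (a : Mink d) : b1E a ≤ (d + 1) * ‖a‖ ^ 2 := by
  rw [b1E_eq]
  have h1 : a.1 ^ 2 ≤ ‖a‖ ^ 2 := by
    rw [← sq_abs]; exact pow_le_pow_left₀ (abs_nonneg _) (norm_fst_le a) 2
  have h2 : a.2 ⬝ᵥ a.2 ≤ d * ‖a‖ ^ 2 := by
    have := Finset.sum_le_card_nsmul Finset.univ (fun i => a.2 i * a.2 i) (‖a‖ ^ 2) fun i _ => by
      rw [← sq, ← sq_abs]
      exact pow_le_pow_left₀ (abs_nonneg _) ((norm_le_pi_norm a.2 i).trans (norm_snd_le a)) 2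
    simpa [dotProduct] using this
  linarith

lemma b1_nondeg {s : Set (Mink d)} (hs : Submodule.span ℝ s = ⊤) {u : Mink d}
    (h : ∀ e ∈ s, lor u e = 0) : u = 0 := by
  have h1 : ∀ w ∈ Submodule.span ℝ s, lor u w = 0 := fun w hw => by
    induction hw using Submodule.span_induction with
    | mem x hx => exact h x hx
    | zero => simp [lor]
    | add x y _ _ hx hy => rw [lor_add_right, hx, hy, add_zero]
    | smul t x _ hx => rw [lor_smul_right, hx, mul_zero]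
  have h2 := h1 (-u.1, u.2) (hs ▸ Submodule.mem_top)
  simp only [lor] at h2
  have h3 := b1_dot u.2
  have h4 : u.1 = 0 := by nlinarith [mul_self_nonneg u.1]
  refine Prod.ext h4 (dotProduct_self_eq_zero.1 ?_)
  rw [h4] at h2; linarith

lemma Lat.b1_fin (h : Lat Λ) : ∃ s : Finset (Mink d), (s : Set (Mink d)) ⊆ Λ ∧
    Submodule.span ℝ (s : Set (Mink d)) = ⊤ := by
  obtain ⟨s, h1, h2⟩ := (Submodule.fg_span_iff_fg_span_finset_subset (R := ℝ)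
    (Λ : Set (Mink d))).1 (IsNoetherian.noetherian _)
  exact ⟨s, h1, h2 ▸ h.span⟩

lemma b1_zsmul {x : Mink d} (hx : x ∈ Λ) (n : ℤ) : (n : ℝ) • x ∈ Λ := by
  rw [Int.cast_smul_eq_zsmul]; exact Λ.zsmul_mem hx n

/-- discreteness; `lor v v + 2 * v.1 ^ 2` is the Euclidean norm square -/
lemma Lat.disc (h : Lat Λ) (R : ℝ) : {v ∈ (Λ : Set (Mink d)) | lor v v + 2 * v.1 ^ 2 ≤ R}.Finite := by
  obtain ⟨s, h1, h2⟩ := h.b1_fin
  have hfin := Set.Finite.pi' (t := fun e : s => ((↑) : ℤ → ℝ) ''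
      Set.Icc (-⌈R * b1E (e : Mink d) + 1⌉) ⌈R * b1E (e : Mink d) + 1⌉)
      fun e => (Set.finite_Icc _ _).image _
  refine Set.Finite.of_injOn (f := fun v (e : s) => lor v (e : Mink d)) ?_ (fun v _ v' _ hh => ?_) hfin
  · intro v hv e
    obtain ⟨n, hn⟩ := h.int v hv.1 e (h1 e.2)
    have h3 := b1_abs (a := v) (b := e) hv.2 le_rfl
    rw [hn] at h3
    have h4 : |n| ≤ ⌈R * b1E (e : Mink d) + 1⌉ := by exact_mod_cast h3.trans (Int.le_ceil _)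
    exact ⟨n, abs_le.1 h4, hn.symm⟩
  · refine sub_eq_zero.1 (b1_nondeg h2 fun e he => ?_)
    rw [lor_sub_left, sub_eq_zero]
    exact congrFun hh ⟨e, he⟩

lemma Lat.cov (h : Lat Λ) :
    ∃ r : ℝ, ∀ v : Mink d, ∃ l ∈ Λ, lor (v - l) (v - l) + 2 * (v - l).1 ^ 2 ≤ r := by
  obtain ⟨s, h1, h2⟩ := h.b1_fin
  refine ⟨(d + 1) * (∑ e ∈ s, ‖e‖) ^ 2, fun v => ?_⟩
  obtain ⟨c, -, rfl⟩ := Submodule.mem_span_finset.1 (h2 ▸ Submodule.mem_top : v ∈ _)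
  refine ⟨∑ e ∈ s, (⌊c e⌋ : ℝ) • e, Λ.sum_mem fun e he => b1_zsmul (h1 he) _,
    (b1E_le _).trans ?_⟩
  refine mul_le_mul_of_nonneg_left (pow_le_pow_left₀ (norm_nonneg _) ?_ 2) (by positivity)
  rw [← Finset.sum_sub_distrib]
  refine (norm_sum_le _ _).trans (Finset.sum_le_sum fun e _ => ?_)
  rw [← sub_smul, norm_smul, Int.self_sub_floor, Real.norm_eq_abs,
    abs_of_nonneg (Int.fract_nonneg _)]
  exact mul_le_of_le_one_left (norm_nonneg _) (Int.fract_lt_one _).le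

/-- the congruence subgroup has finite index -/
lemma Lat.cong (h : Lat Λ) {G : Type} [Group G] (ρ : G →* (Mink d ≃ₗ[ℝ] Mink d)) (H : Subgroup G)
    (hH : H.FiniteIndex) (hρ : ∀ g ∈ H, ∀ x ∈ Λ, ρ g x ∈ Λ) {q : ℕ} (hq : 0 < q) :
    ∃ G0 : Subgroup G, G0 ≤ H ∧ G0.FiniteIndex ∧
      ∀ g ∈ G0, ∀ x ∈ Λ, ∃ l ∈ Λ, ρ g x = x + (q : ℝ) • l := by
  obtain ⟨r, hr⟩ := h.cov
  have hq' : (0 : ℝ) < q := Nat.cast_pos.2 hq
  have hinv : ∀ g v, ρ g (ρ g⁻¹ v) = v := fun g v => by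
    rw [← LinearEquiv.mul_apply, ← map_mul, mul_inv_cancel, map_one]; rfl
  have hrep : ∀ x ∈ Λ, ∃ f ∈ {v ∈ (Λ : Set (Mink d)) | lor v v + 2 * v.1 ^ 2 ≤ q ^ 2 * r},
      ∃ l ∈ Λ, x = f + (q : ℝ) • l := fun x hx => by
    obtain ⟨l, hl, h1⟩ := hr ((q : ℝ)⁻¹ • x)
    refine ⟨x - (q : ℝ) • l, ⟨Λ.sub_mem hx (by exact_mod_cast b1_zsmul hl q), ?_⟩, l, hl, by abel⟩
    have h2 : x - (q : ℝ) • l = (q : ℝ) • ((q : ℝ)⁻¹ • x - l) := by
      rw [smul_sub, smul_inv_smul₀ hq'.ne']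
    change b1E _ ≤ _
    rw [h2, b1E_smul]
    exact mul_le_mul_of_nonneg_left h1 (sq_nonneg _)
  have hfin := h.disc (q ^ 2 * r)
  generalize hF : {v ∈ (Λ : Set (Mink d)) | lor v v + 2 * v.1 ^ 2 ≤ q ^ 2 * r} = F at hrep hfin
  have hFΛ : ∀ f ∈ F, f ∈ Λ := fun f hf => by rw [← hF] at hf; exact hf.1
  let G0 : Subgroup G :=
    { carrier := {g | g ∈ H ∧ ∀ x ∈ Λ, ∃ l ∈ Λ, ρ g x = x + (q : ℝ) • l}
      one_mem' := ⟨H.one_mem, fun x _ => ⟨0, Λ.zero_mem, by simp⟩⟩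
      mul_mem' := by
        rintro a b ⟨ha, ha'⟩ ⟨hb, hb'⟩
        refine ⟨H.mul_mem ha hb, fun x hx => ?_⟩
        obtain ⟨l, hl, h1⟩ := hb' x hx
        obtain ⟨l', hl', h2⟩ := ha' _ (hρ b hb x hx)
        refine ⟨l + l', Λ.add_mem hl hl', ?_⟩
        rw [map_mul, LinearEquiv.mul_apply, h2, h1, smul_add, add_assoc]
      inv_mem' := by
        rintro a ⟨ha, ha'⟩
        refine ⟨H.inv_mem ha, fun x hx => ?_⟩
        obtain ⟨l, hl, h1⟩ := ha' _ (hρ _ (H.inv_mem ha) x hx)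
        refine ⟨-l, Λ.neg_mem hl, ?_⟩
        rw [hinv] at h1
        rw [smul_neg, ← sub_eq_add_neg, eq_sub_iff_add_eq, ← h1] }
  have hle : G0 ≤ H := fun g hg => hg.1
  refine ⟨G0, hle, ?_, fun g hg => hg.2⟩
  choose! rp hrp ll hll heq using hrep
  have := hfin.to_subtype
  let φ : H → F → F := fun g f => ⟨rp (ρ g f), hrp _ (hρ g g.2 f (hFΛ f f.2))⟩
  have key : ∀ g g' : H, φ g = φ g' → g⁻¹ * g' ∈ G0.subgroupOf H := fun g g' hh => by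
    refine ⟨(g⁻¹ * g').2, fun x hx => ?_⟩
    have h0 := hrp x hx
    have h1 : rp (ρ g (rp x)) = rp (ρ g' (rp x)) := congrArg Subtype.val (congrFun hh ⟨_, h0⟩)
    have m1 := hρ g g.2 _ (hFΛ _ h0)
    have m2 := hρ g' g'.2 _ (hFΛ _ h0)
    have h2 : ρ g' (rp x) = ρ g (rp x) + (q : ℝ) • (ll (ρ g' (rp x)) - ll (ρ g (rp x))) := by
      conv_lhs => rw [heq _ m2, ← h1]
      conv_rhs => arg 1; rw [heq _ m1]
      rw [smul_sub]; abel
    have hgi := H.inv_mem g.2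
    refine ⟨ρ (g : G)⁻¹ (ll (ρ g' (rp x)) - ll (ρ g (rp x))) + ρ (g : G)⁻¹ (ρ g' (ll x)) - ll x,
      Λ.sub_mem (Λ.add_mem (hρ _ hgi _ (Λ.sub_mem (hll _ m2) (hll _ m1)))
        (hρ _ hgi _ (hρ _ g'.2 _ (hll x hx)))) (hll x hx), ?_⟩
    have h3 := hinv (g : G)⁻¹ (rp x)
    rw [inv_inv] at h3
    change ρ ((g : G)⁻¹ * g') x = _
    conv_lhs => rw [map_mul, LinearEquiv.mul_apply, heq x hx, map_add, h2, map_add, map_add, h3,
      map_smul, map_smul, map_smul]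
    conv_rhs => arg 1; rw [heq x hx]
    rw [smul_sub, smul_add]; abel
  have : Finite (H ⧸ G0.subgroupOf H) := Finite.of_injective (fun c => φ c.out) fun c c' hh => by
    rw [← c.out_eq', ← c'.out_eq']
    exact QuotientGroup.eq.2 (key _ _ hh)
  refine ⟨?_⟩
  rw [← Subgroup.relIndex_mul_index hle]
  exact mul_ne_zero Subgroup.index_ne_zero_of_finite hH.index_ne_zero

/-- lattice vectors separating the ends of all geodesics through a bounded set -/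
lemma Lat.dens (h : Lat Λ) (R : ℝ) : ∃ β : ℝ, ∀ x ∈ Hyp d, x.1 ≤ R → ∀ v, lor v x = 0 →
    lor v v = 1 → ∃ l ∈ Λ, 0 < lor l l ∧ lor l l ≤ β ∧ 1 ≤ lor (x + v) l ∧ lor (x - v) l ≤ -1 := by
  obtain ⟨r, hr⟩ := h.cov
  have hr0 : 0 ≤ r := by obtain ⟨l, -, h1⟩ := hr 0; exact (b1E_nonneg _).trans h1
  obtain ⟨K, hK⟩ : ∃ K, K = (1 + 2 * R ^ 2) * r + 1 := ⟨_, rfl⟩
  have hK0 : 0 ≤ K := by rw [hK]; positivity
  obtain ⟨N, hN⟩ : ∃ N, N = 2 * K + r + 1 := ⟨_, rfl⟩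
  refine ⟨N ^ 2 + 2 * N * K + r, fun x hx hR v h1 h2 => ?_⟩
  obtain ⟨l, hl, h3⟩ := hr (N • v)
  obtain ⟨δ, hδ⟩ : ∃ δ, δ = N • v - l := ⟨_, rfl⟩
  rw [← hδ] at h3
  have hl' : l = N • v - δ := by rw [hδ]; abel
  have x1 : x.1 ^ 2 ≤ R ^ 2 := pow_le_pow_left₀ hx.2.le hR 2
  have x2 : b1E x ≤ 1 + 2 * R ^ 2 := by unfold b1E; linarith [hx.1]
  have x3 : b1E v ≤ 1 + 2 * R ^ 2 := by
    have a1 := b1_dcs v.2 x.2
    have a2 := hx.1
    unfold lor at h1 h2 a2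
    rw [show v.2 ⬝ᵥ x.2 = v.1 * x.1 by linarith, show v.2 ⬝ᵥ v.2 = 1 + v.1 * v.1 by linarith,
      show x.2 ⬝ᵥ x.2 = x.1 * x.1 - 1 by linarith] at a1
    rw [b1E_eq]
    nlinarith
  obtain ⟨p1, p2⟩ := abs_le.1 (hK ▸ b1_abs x2 h3)
  obtain ⟨p3, p4⟩ := abs_le.1 (hK ▸ b1_abs x3 h3)
  obtain ⟨p5, p6⟩ := abs_le.1 ((b1_self δ).trans h3)
  have e1 : lor l l = N ^ 2 - 2 * N * lor v δ + lor δ δ := by
    rw [hl']
    simp only [lor_sub_left, lor_sub_right, lor_smul_left, lor_smul_right, h2, lor_comm δ v]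
    ring
  have e2 : lor x l = - lor x δ := by
    rw [hl', lor_sub_right, lor_smul_right, lor_comm x v, h1]; ring
  have e3 : lor v l = N - lor v δ := by rw [hl', lor_sub_right, lor_smul_right, h2, mul_one]
  have hN1 : 1 ≤ N := by linarith
  refine ⟨l, hl, ?_, ?_, ?_, ?_⟩
  · rw [e1]; nlinarith
  · rw [e1]; nlinarith
  · rw [lor_add_left, e2, e3]; linarith
  · rw [lor_sub_left, e2, e3]; linarith

/-- lattice vectors through a rational cusp in all directions -/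
lemma Lat.vert (h : Lat Λ) {η : Mink d} (hη : Nul η) (hΛ : η ∈ Λ) : ∃ β : ℝ, ∀ e, lor e η = 0 →
    lor e e = 1 → ∃ l ∈ Λ, lor l η = 0 ∧ 0 < lor l l ∧ lor l l ≤ β ∧ 1 ≤ lor l e := by
  obtain ⟨r, hr⟩ := h.cov
  have hr0 : 0 ≤ r := by obtain ⟨l, -, h1⟩ := hr 0; exact (b1E_nonneg _).trans h1
  obtain ⟨l0, hl0, m0, hm0, hm1⟩ : ∃ l0 ∈ Λ, ∃ m0 : ℤ, lor l0 η = m0 ∧ 1 ≤ m0 := by
    by_contra hc
    push Not at hc
    have h1 : η = 0 := b1_nondeg h.span fun e he => by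
      obtain ⟨n, hn⟩ := h.int e he η hΛ
      have h2 := hc e he n hn
      have h3 := hc (-e) (Λ.neg_mem he) (-n) (by
        rw [← neg_one_smul ℝ e, lor_smul_left, hn]; push_cast; ring)
      rw [lor_comm, hn, show n = 0 by omega, Int.cast_zero]
    have h2 := hη.2
    rw [h1] at h2
    exact lt_irrefl _ h2
  have hm1' : (1 : ℝ) ≤ m0 := by exact_mod_cast hm1
  obtain ⟨K, hK⟩ : ∃ K, K = r * b1E η + 1 := ⟨_, rfl⟩
  obtain ⟨P, hP⟩ : ∃ P, P = b1E l0 * 1 + 1 := ⟨_, rfl⟩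
  have hK0 : 0 ≤ K := by have := b1E_nonneg η; rw [hK]; positivity
  have hP0 : 0 ≤ P := by have := b1E_nonneg l0; rw [hP]; positivity
  obtain ⟨N, hN⟩ : ∃ N, N = r + 2 + K * P := ⟨_, rfl⟩
  refine ⟨2 * (m0 ^ 2 * (2 * (N ^ 2 * 1) + 2 * r)) + 2 * (K ^ 2 * b1E l0), fun e h1 h2 => ?_⟩
  obtain ⟨e', he'⟩ : ∃ e', e' = e - (e.1 / η.1) • η := ⟨_, rfl⟩
  have a1 : e'.1 = 0 := by
    rw [he', Prod.fst_sub, Prod.smul_fst, smul_eq_mul, div_mul_cancel₀ _ hη.2.ne', sub_self]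
  have a2 : lor e' η = 0 := by rw [he', lor_sub_left, lor_smul_left, h1, hη.1]; ring
  have a3 : lor e' e' = 1 := by
    conv_lhs => arg 2; rw [he']
    rw [lor_sub_right, lor_smul_right, a2, he', lor_sub_left, lor_smul_left, lor_comm η e, h1, h2]
    ring
  have a4 : b1E e' = 1 := by unfold b1E; rw [a3, a1]; ring
  obtain ⟨l, hl, h3⟩ := hr (N • e')
  obtain ⟨δ, hδ⟩ : ∃ δ, δ = N • e' - l := ⟨_, rfl⟩
  rw [← hδ] at h3
  have hl' : l = N • e' - δ := by rw [hδ]; abel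
  obtain ⟨m, hm⟩ := h.int l hl η hΛ
  have p1 : |(m : ℝ)| ≤ K := by
    rw [← hm, hl', lor_sub_left, lor_smul_left, a2, mul_zero, zero_sub, abs_neg, hK]
    exact b1_abs h3 le_rfl
  have p2 := (abs_le.1 (b1_abs (a := δ) h3 a4.le)).2
  have p3 : |(m : ℝ) * lor l0 e'| ≤ K * P := by
    rw [abs_mul]
    exact mul_le_mul p1 (hP ▸ b1_abs le_rfl a4.le) (abs_nonneg _) hK0
  have b1 : lor ((m0 : ℝ) • l - (m : ℝ) • l0) η = 0 := by
    rw [lor_sub_left, lor_smul_left, lor_smul_left, hm, hm0]; ring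
  have b2 : 1 ≤ lor ((m0 : ℝ) • l - (m : ℝ) • l0) e := by
    have c1 : e = e' + (e.1 / η.1) • η := by rw [he']; abel
    have c2 : lor l e' = N - lor δ e' := by rw [hl', lor_sub_left, lor_smul_left, a3, mul_one]
    rw [c1, lor_add_right, lor_smul_right, b1, lor_sub_left, lor_smul_left, lor_smul_left, c2]
    have c3 : 0 ≤ K * P := mul_nonneg hK0 hP0
    nlinarith [(abs_le.1 p3).2]
  refine ⟨_, Λ.sub_mem (b1_zsmul hl m0) (b1_zsmul hl0 m), b1, ?_, ?_, b2⟩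
  · have c1 := cs_null hη b1 h1
    rw [h2] at c1
    nlinarith
  · refine ((le_abs_self _).trans (b1_self _)).trans ((b1E_sub _ _).trans ?_)
    rw [b1E_smul, b1E_smul]
    have c1 : b1E l ≤ 2 * (N ^ 2 * 1) + 2 * r := by
      rw [hl']
      refine (b1E_sub _ _).trans ?_
      rw [b1E_smul, a4]
      have : b1E δ ≤ r := h3
      linarith
    have c2 : (m : ℝ) ^ 2 ≤ K ^ 2 := by rw [← sq_abs]; exact pow_le_pow_left₀ (abs_nonneg _) p1 2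
    have c3 := b1E_nonneg l0
    gcongr

end Pool.Agent.Lib.MP_661727_gt.Ar
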