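import Pool.Agent.Lib.MP_661727_gt.Ar.B1

/-! Cusps of arithmetic lattices. -/

namespace Pool.Agent.Lib.MP_661727_gt.Ar

open Multiplicative

variable {d : ℕ} (L : Cusped d) {Λ : AddSubgroup (Mink d)} {H : Subgroup L.G}

/-- the centres of all horoballs -/
def cusps : Set (Mink d) := {η | ∃ g c, η = L.lin g (L.b c)}

lemma b_isom (g : L.G) (x y : Mink d) : lor (L.lin g x) (L.lin g y) = lor x y := L.isom g x y

lemma b_sheet (g : L.G) {x : Mink d} (hx : x ∈ Hyp d) : L.lin g x ∈ Hyp d := L.sheet g x hx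

lemma b_mul (g h : L.G) (x : Mink d) : L.lin (g * h) x = L.lin g (L.lin h x) := by
  rw [map_mul]; rfl

lemma b_inv (g : L.G) (x : Mink d) : L.lin g⁻¹ (L.lin g x) = x := by
  rw [← b_mul, inv_mul_cancel, map_one]; rfl

lemma b_inv' (g : L.G) (x : Mink d) : L.lin g (L.lin g⁻¹ x) = x := by
  rw [← b_mul, mul_inv_cancel, map_one]; rfl

lemma b_adj (g : L.G) (x y : Mink d) : lor (L.lin g⁻¹ x) y = lor x (L.lin g y) := by
  rw [← b_isom L g, b_inv']

lemma b_fix (c : L.C) (h : Multiplicative (Zk (d - 1))) : L.lin (L.α c h) (L.b c) = L.b c :=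
  (L.α_range c _).1 ⟨h, rfl⟩

lemma b_lor_fix {g : L.G} {η : Mink d} (h : L.lin g η = η) (y : Mink d) :
    lor (L.lin g y) η = lor y η := by
  conv_lhs => rw [← h]
  exact b_isom L g y η

lemma b_S (c : L.C) (i : Fin (d - 1)) : ∃ S : Mink d →ₗ[ℝ] ℝ, S (L.b c) = 0 ∧
    ∀ (h : Zk (d - 1)) (y : Mink d),
      S (L.lin (L.α c (ofAdd h)) y) = S y + (h i : ℝ) * lor y (L.b c) :=
  L.old.exists_S c ((Int.castAddHom ℝ).comp (Pi.evalAddMonoidHom (fun _ => ℤ) i))

lemma b_pow (hH : H.FiniteIndex) : ∃ N : ℕ, 0 < N ∧ ∀ g : L.G, g ^ N ∈ H :=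
  ⟨H.index.factorial, Nat.factorial_pos _, fun g =>
    Subgroup.pow_mem_of_index_ne_zero_of_dvd hH.index_ne_zero g fun _ h1 h2 =>
      Nat.dvd_factorial h1 h2⟩

lemma b_pow_fix {g : L.G} {η : Mink d} (h : L.lin g η = η) (n : ℕ) : L.lin (g ^ n) η = η := by
  induction n with
  | zero => rw [pow_zero, map_one]; rfl
  | succ n ih => rw [pow_succ, b_mul, h, ih]

lemma b_pow_shift {g : L.G} {η w : Mink d} {s : ℝ} (h : L.lin g η = η)
    (hw : L.lin g w = w + s • η) (n : ℕ) : L.lin (g ^ n) w = w + (n * s) • η := by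
  induction n with
  | zero => rw [pow_zero, map_one]; simp
  | succ n ih =>
    rw [pow_succ, b_mul, hw, map_add, map_smul, ih, b_pow_fix L h, add_assoc, ← add_smul]
    push_cast
    ring_nf

lemma b_cusps_eq : cusps L = L.old.B := by
  ext η
  constructor
  · rintro ⟨g, c, rfl⟩
    exact ⟨L.lin g, ⟨g, rfl⟩, c, rfl⟩
  · rintro ⟨_, ⟨g, rfl⟩, c, rfl⟩
    exact ⟨g, c, rfl⟩

lemma b_mem (c : L.C) : L.b c ∈ cusps L := ⟨1, c, by rw [map_one]; rfl⟩

lemma cusps_inv (g : L.G) : ∀ η ∈ cusps L, L.lin g η ∈ cusps L := by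
  rintro _ ⟨g0, c, rfl⟩
  exact ⟨g * g0, c, (b_mul L g g0 _).symm⟩

lemma cusps_nul : ∀ η ∈ cusps L, Nul η := fun _ hη =>
  L.old.B_light (b_cusps_eq L ▸ hη)

lemma cusps_horo : ∀ η ∈ cusps L, ∀ x ∈ Hyp d, lor x η = -1 → Thick (cusps L) 1 x := by
  intro η hη x hx h1 η' hη'
  by_contra hc
  push Not at hc
  have n1 := cusps_nul L η hη
  have n2 := cusps_nul L η' hη'
  have a1 : lor x η' < 0 := lor_neg hx n2.fut
  have a2 : lor η η' ≤ 0 := lor_nonpos n1.fut n2.fut
  set δ := (1 + lor x η') / (1 - lor η η') with hδ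
  have d0 : 0 < δ := div_pos (by linarith) (by linarith)
  have d1 : δ * (1 - lor η η') = 1 + lor x η' := div_mul_cancel₀ _ (by linarith)
  have hm : lor (x + δ • η) (x + δ • η) = -1 - 2 * δ := by
    simp only [lor_add_left, lor_add_right, lor_smul_left, lor_smul_right, hx.1, n1.1, h1,
      lor_comm η x]
    ring
  have e : η = η' := by
    refine L.old.B_eq' (m := x + δ • η) (b_cusps_eq L ▸ hη) (b_cusps_eq L ▸ hη') ?_ ?_ ?_
    · have := hx.2
      have := mul_pos d0 n1.2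
      simp only [Prod.fst_add, Prod.smul_fst, smul_eq_mul]
      linarith
    · rw [hm, lor_add_left, lor_smul_left, h1, n1.1]
      nlinarith
    · rw [hm, lor_add_left, lor_smul_left]
      have b1 : lor x η' + δ * lor η η' ≤ 0 := by nlinarith
      have b2 : -1 ≤ lor x η' + δ * lor η η' := by nlinarith
      nlinarith
  rw [← e, h1] at hc
  linarith

lemma cusps_transl : ∀ g, ∀ η ∈ cusps L, L.lin g η = η → ∀ v, lor v η = 0 →
    ∃ s : ℝ, L.lin g v = v + s • η := by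
  rintro g _ ⟨g0, c, rfl⟩ h v hv
  have h1 : L.lin (g0⁻¹ * g * g0) (L.b c) = L.b c := by rw [b_mul, b_mul, h, b_inv]
  obtain ⟨k, hk⟩ := (L.α_range c _).2 h1
  obtain ⟨t, ht⟩ := L.transl c k (L.lin g0⁻¹ v) (by rw [b_adj]; exact hv)
  refine ⟨t, ?_⟩
  have h2 : L.lin (g0⁻¹ * g * g0) (L.lin g0⁻¹ v) = L.lin g0⁻¹ v + t • L.b c := hk ▸ ht
  rw [b_mul, b_mul, b_inv'] at h2
  have h3 := congrArg (L.lin g0) h2
  rwa [b_inv', map_add, map_smul, b_inv'] at h3

lemma cusps_cpt (hH : H.FiniteIndex) :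
    ∃ R : ℝ, ∀ x ∈ Hyp d, Thick (cusps L) 1 x → ∃ g ∈ H, (L.lin g x).1 ≤ R := by
  obtain ⟨R, hR⟩ := L.cocompact
  obtain ⟨M, hM⟩ := (Set.finite_range fun q : L.G ⧸ H => (L.lin q.out (oo d)).1).bddAbove
  refine ⟨2 * M * R, fun x hx ht => ?_⟩
  obtain ⟨g, hg⟩ := hR x hx fun g c hc => by
    have := ht _ ⟨g, c, rfl⟩
    have h2 : - lor x (L.lin g (L.b c)) < 1 := hc.2
    linarith
  obtain ⟨h, hh⟩ := QuotientGroup.mk_out_eq_mul H g
  refine ⟨h⁻¹, H.inv_mem h.2, ?_⟩
  set u := (QuotientGroup.mk g : L.G ⧸ H).out with hu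
  have e : (h : L.G)⁻¹ = u⁻¹ * g := by rw [hh]; group
  have h1 : (L.lin u (oo d)).1 ≤ M := hM ⟨_, rfl⟩
  have h2 : (L.lin g x).1 ≤ R := hg
  have m1 := b_sheet L u (oo_mem (d := d))
  have m2 := b_sheet L g hx
  have h3 := tri3 m1 oo_mem m2
  have h4 : (L.lin (u⁻¹ * g) x).1 = - lor (L.lin u (oo d)) (L.lin g x) := by
    rw [b_mul, lor_comm, ← b_adj, lor_comm, lor_oo, neg_neg]
  rw [lor_comm _ (oo d), lor_oo, lor_oo, neg_neg, neg_neg] at h3
  rw [e, h4]
  refine h3.trans ?_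
  have := m1.2
  have := m2.2
  have h5 : 0 ≤ M := by linarith
  gcongr

lemma cusps_orb (hH : H.FiniteIndex) : ∃ Φ : Set (Mink d), Φ.Finite ∧ Φ ⊆ cusps L ∧
    ∀ η ∈ cusps L, ∃ g ∈ H, ∃ η0 ∈ Φ, η = L.lin g η0 := by
  have := L.fin
  refine ⟨Set.range fun p : (L.G ⧸ H) × L.C => L.lin p.1.out⁻¹ (L.b p.2), Set.finite_range _,
    ?_, ?_⟩
  · rintro _ ⟨p, rfl⟩
    exact ⟨_, _, rfl⟩
  · rintro _ ⟨g, c, rfl⟩
    obtain ⟨h, hh⟩ := QuotientGroup.mk_out_eq_mul H g⁻¹
    refine ⟨h, h.2, _, ⟨(QuotientGroup.mk g⁻¹, c), rfl⟩, ?_⟩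
    simp only
    rw [← b_mul, hh]
    congr 2
    group

lemma b_lor_sum {ι : Type} (s : Finset ι) (v : Mink d) (f : ι → Mink d) :
    lor v (∑ i ∈ s, f i) = ∑ i ∈ s, lor v (f i) := by
  induction s using Finset.cons_induction with
  | empty => simp [lor]
  | cons i s hi ih => rw [Finset.sum_cons, Finset.sum_cons, lor_add_right, ih]

/-- the cusp group moves every space-like direction through the cusp -/
lemma b_move (c : L.C) {w : Mink d} (h0 : lor w (L.b c) = 0) (h1 : lor w w = 1) :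
    ∃ k, L.lin (L.α c k) w ≠ w := by
  by_contra hc
  push Not at hc
  obtain ⟨hb0, hb1⟩ := L.light c
  set b := L.b c with hb
  have hd : 1 ≤ d := by
    rcases Nat.eq_zero_or_pos d with rfl | h
    · simp only [lor, dotProduct, Finset.univ_eq_empty, Finset.sum_empty] at h1
      nlinarith [mul_self_nonneg w.1]
    · exact h
  choose S hS0 hS using b_S L c
  have hob : lor (oo d) b ≠ 0 := by rw [lor_oo]; linarith
  let z : Fin (d - 1) → Mink d := fun j => L.lin (L.α c (ofAdd (Pi.single j 1))) (oo d) - oo d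
  have hz : ∀ j, lor (z j) b = 0 := fun j => by
    simp only [z]
    rw [lor_sub_left, b_lor_fix L (b_fix L c _), sub_self]
  have hwz : ∀ j, lor w (z j) = 0 := fun j => by
    simp only [z]
    rw [lor_sub_right]
    conv_lhs => rw [← hc (ofAdd (Pi.single j 1)), b_isom, hc, sub_self]
  have hSz : ∀ i j, S i (z j) = (if i = j then 1 else 0) * lor (oo d) b := fun i j => by
    simp only [z]
    rw [map_sub, hS, Pi.single_apply]
    split_ifs <;> simp [hb]
  let Φ : (ℝ × ℝ × (Fin (d - 1) → ℝ)) →ₗ[ℝ] Mink d :=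
    (LinearMap.toSpanSingleton ℝ _ (oo d)).coprod
      ((LinearMap.toSpanSingleton ℝ _ b).coprod (Fintype.linearCombination ℝ z))
  have hΦ : ∀ p, Φ p = p.1 • oo d + (p.2.1 • b + ∑ j, p.2.2 j • z j) := fun p => by
    simp only [Φ, LinearMap.coprod_apply, LinearMap.toSpanSingleton_apply,
      Fintype.linearCombination_apply]
  have hΦb : ∀ p, lor b (Φ p) = p.1 * lor (oo d) b := fun p => by
    rw [hΦ, lor_add_right, lor_add_right, b_lor_sum, lor_smul_right, lor_smul_right, hb0,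
      lor_comm b, Finset.sum_eq_zero fun j _ => by rw [lor_smul_right, lor_comm, hz, mul_zero]]
    ring
  have hinj : Function.Injective Φ := by
    refine (injective_iff_map_eq_zero _).2 fun p hp => ?_
    have e1 : p.1 = 0 := by
      have := hΦb p
      rw [hp, lor_zero_right] at this
      exact (mul_eq_zero.1 this.symm).resolve_right hob
    have e2 : p.2.2 = 0 := by
      ext i
      have := congrArg (S i) hp
      rw [hΦ, e1, zero_smul, zero_add, map_add, map_smul, hS0, map_sum, map_zero] at this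
      simp only [map_smul, hSz, smul_eq_mul, mul_zero, zero_add, ite_mul, one_mul, zero_mul,
        mul_ite, Finset.sum_ite_eq, Finset.mem_univ, if_true] at this
      exact (mul_eq_zero.1 this).resolve_right hob
    have e3 : p.2.1 = 0 := by
      rw [hΦ, e1, e2] at hp
      simp only [zero_smul, zero_add, Pi.zero_apply, Finset.sum_const_zero, add_zero] at hp
      have := congrArg Prod.fst hp
      simp only [Prod.smul_fst, smul_eq_mul, Prod.fst_zero] at this
      exact (mul_eq_zero.1 this).resolve_right hb1.ne'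
    exact Prod.ext e1 (Prod.ext e3 e2)
  have hsurj : Function.Surjective Φ := by
    refine (LinearMap.injective_iff_surjective_of_finrank_eq_finrank ?_).1 hinj
    simp only [Module.finrank_prod, Module.finrank_self, Module.finrank_fin_fun]
    omega
  obtain ⟨p, hp⟩ := hsurj w
  have e1 : p.1 = 0 := by
    have := hΦb p
    rw [hp, lor_comm, h0] at this
    exact (mul_eq_zero.1 this.symm).resolve_right hob
  have e2 : lor w (Φ p) = 0 := by
    rw [hΦ, e1, zero_smul, zero_add, lor_add_right, lor_smul_right, h0, b_lor_sum]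
    simp only [lor_smul_right, hwz]
    simp
  rw [hp, h1] at e2
  exact one_ne_zero e2

lemma cusps_move (hH : H.FiniteIndex) : ∀ η ∈ cusps L, ∀ w, lor w η = 0 → lor w w = 1 →
    ∃ g ∈ H, L.lin g η = η ∧ L.lin g w ≠ w := by
  intro η hη w h0 h1
  obtain ⟨N, hN, hp⟩ := b_pow L hH
  have n1 := cusps_nul L η hη
  obtain ⟨g0, c, e⟩ := id hη
  obtain ⟨k, hk⟩ := b_move L c (w := L.lin g0⁻¹ w) (by rw [b_adj, ← e, h0]) (by rw [b_isom, h1])
  have f1 : L.lin (g0 * L.α c k * g0⁻¹) η = η := by rw [e, b_mul, b_mul, b_inv, b_fix]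
  obtain ⟨s, hs⟩ := cusps_transl L _ η hη f1 w h0
  have s0 : s ≠ 0 := by
    rintro rfl
    apply hk
    rw [zero_smul, add_zero, b_mul, b_mul] at hs
    have := congrArg (L.lin g0⁻¹) hs
    rwa [b_inv] at this
  refine ⟨_, hp (g0 * L.α c k * g0⁻¹), b_pow_fix L f1 N, ?_⟩
  rw [b_pow_shift L f1 hs]
  intro h
  have h2 : ((N : ℝ) * s) • η = 0 := by simpa using h
  rcases smul_eq_zero.1 h2 with h3 | h3
  · exact mul_ne_zero (Nat.cast_ne_zero.2 hN.ne') s0 h3
  · exact n1.ne h3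

lemma b_exists_lat (h : Lat Λ) {η : Mink d} (hη : η ≠ 0) : ∃ l ∈ Λ, lor l η ≠ 0 := by
  by_contra hc
  push Not at hc
  refine hη (lor_nondeg fun y => ?_)
  have hy : y ∈ Submodule.span ℝ (Λ : Set (Mink d)) := h.span ▸ Submodule.mem_top
  rw [lor_comm]
  induction hy using Submodule.span_induction with
  | mem x hx => exact hc x hx
  | zero => exact lor_zero_left _
  | add x y _ _ a1 a2 => rw [lor_add_left, a1, a2, add_zero]
  | smul t x _ a1 => rw [lor_smul_left, a1, mul_zero]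

/-- cusps are rational -/
lemma cusps_rat (hd : 2 ≤ d) (h : Lat Λ) (hH : H.FiniteIndex)
    (hρ : ∀ g ∈ H, ∀ x ∈ Λ, L.lin g x ∈ Λ) : ∀ η ∈ cusps L, ∃ s : ℝ, 0 < s ∧ s • η ∈ Λ := by
  intro η hη
  obtain ⟨N, hN, hp⟩ := b_pow L hH
  have n1 := cusps_nul L η hη
  obtain ⟨l, hl, hlη⟩ := b_exists_lat h n1.ne
  obtain ⟨g0, c, e⟩ := id hη
  let i : Fin (d - 1) := ⟨0, by omega⟩
  let k : Zk (d - 1) := N • Pi.single i 1
  set p := g0 * L.α c (ofAdd k) * g0⁻¹ with hpd
  have hpH : p ∈ H := by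
    have := hp (g0 * L.α c (ofAdd (Pi.single i 1)) * g0⁻¹)
    rwa [conj_pow, ← map_pow, ← ofAdd_nsmul] at this
  have f1 : L.lin p η = η := by rw [e, hpd, b_mul, b_mul, b_inv, b_fix]
  set z := L.lin p l - l with hz
  have hzΛ : z ∈ Λ := Λ.sub_mem (hρ p hpH l hl) hl
  have hzη : lor z η = 0 := by rw [hz, lor_sub_left, b_lor_fix L f1, sub_self]
  obtain ⟨s, hs⟩ := cusps_transl L p η hη f1 z hzη
  have hsΛ : s • η ∈ Λ := by
    have := Λ.sub_mem (hρ p hpH z hzΛ) hzΛ
    rwa [hs, add_sub_cancel_left] at this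
  have s0 : s ≠ 0 := by
    rintro rfl
    rw [zero_smul, add_zero] at hs
    have a1 := b_isom L p z l
    have a2 : L.lin p l = l + z := by rw [hz]; abel
    rw [hs, a2, lor_add_right] at a1
    obtain ⟨t, ht⟩ := null_par n1 hzη (by linarith)
    obtain ⟨S, hS0, hS⟩ := b_S L c i
    have a3 := hS k (L.lin g0⁻¹ l)
    have a4 : L.lin (L.α c (ofAdd k)) (L.lin g0⁻¹ l) = L.lin g0⁻¹ l + t • L.b c := by
      have := congrArg (L.lin g0⁻¹) a2
      rwa [hpd, b_mul, b_mul, b_inv, ht, map_add, (L.lin g0⁻¹).map_smul, e, b_inv] at this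
    rw [a4, map_add, map_smul, hS0, b_adj, ← e] at a3
    have a5 : ((k i : ℤ) : ℝ) = N := by simp [k]
    rw [a5] at a3
    have a6 : (N : ℝ) * lor l η = 0 := by simpa using a3
    exact mul_ne_zero (Nat.cast_ne_zero.2 hN.ne') hlη a6
  rcases lt_or_gt_of_ne s0 with h1 | h1
  · exact ⟨-s, by linarith, by rw [neg_smul]; exact Λ.neg_mem hsΛ⟩
  · exact ⟨s, h1, hsΛ⟩

/-- a lattice vector through the cusp in a prescribed rational direction -/
lemma exists_dir (h : Lat Λ) (hH : H.FiniteIndex) (hρ : ∀ g ∈ H, ∀ x ∈ Λ, L.lin g x ∈ Λ) (c : L.C)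
    (ν : Zk (d - 1) →+ ℤ) (hν : ν ≠ 0) : ∃ l ∈ Λ, lor l (L.b c) = 0 ∧ 0 < lor l l ∧
      ∃ r : ℝ, r ≠ 0 ∧ ∀ k, L.lin (L.α c (ofAdd k)) l = l + (r * ν k) • L.b c := by
  obtain ⟨N, hN, hp⟩ := b_pow L hH
  have N0 : (N : ℝ) ≠ 0 := Nat.cast_ne_zero.2 hN.ne'
  have n1 := cusps_nul L _ (b_mem L c)
  obtain ⟨l0, hl0, hm⟩ := b_exists_lat h n1.ne
  set b := L.b c with hb
  choose S hS0 hS using b_S L c
  let e : Fin (d - 1) → Zk (d - 1) := fun j => Pi.single j 1
  let z : Fin (d - 1) → Mink d := fun j => L.lin (L.α c (ofAdd (N • e j))) l0 - l0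
  have hzΛ : ∀ j, z j ∈ Λ := fun j => by
    refine Λ.sub_mem (hρ _ ?_ _ hl0) hl0
    rw [ofAdd_nsmul, map_pow]
    exact hp _
  have hz : ∀ j, lor (z j) b = 0 := fun j => by
    simp only [z]
    rw [lor_sub_left, b_lor_fix L (b_fix L c _), sub_self]
  have hSz : ∀ i j, S i (z j) = (if i = j then 1 else 0) * (N * lor l0 b) := fun i j => by
    simp only [z]
    rw [map_sub, hS]
    simp only [e, Pi.smul_apply, Pi.single_apply]
    split_ifs <;> simp [hb]
  choose A hA using fun i j => h.int _ (hzΛ i) _ (hzΛ j)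
  let comb : (Fin (d - 1) → ℤ) → Mink d := fun u => ∑ j, (u j : ℝ) • z j
  have hcΛ : ∀ u, comb u ∈ Λ := fun u => Λ.sum_mem fun j _ => by
    rw [Int.cast_smul_eq_zsmul]
    exact Λ.zsmul_mem (hzΛ j) _
  have hcb : ∀ u, lor (comb u) b = 0 := fun u => by
    rw [lor_comm, b_lor_sum]
    exact Finset.sum_eq_zero fun j _ => by rw [lor_smul_right, lor_comm, hz, mul_zero]
  have hcz : ∀ u i, lor (z i) (comb u) = ((Matrix.of A).mulVec u i : ℤ) := fun u i => by
    rw [b_lor_sum]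
    simp only [lor_smul_right, hA, Matrix.mulVec, dotProduct, Matrix.of_apply]
    push_cast
    exact Finset.sum_congr rfl fun j _ => mul_comm _ _
  have hdet : (Matrix.of A).det ≠ 0 := by
    intro h0
    obtain ⟨u, hu, hAu⟩ := Matrix.exists_mulVec_eq_zero_iff.2 h0
    have a1 : lor (comb u) (comb u) = 0 := by
      refine (b_lor_sum _ _ _).trans (Finset.sum_eq_zero fun j _ => ?_)
      rw [lor_smul_right, lor_comm, hcz, hAu]
      simp
    obtain ⟨t, ht⟩ := null_par n1 (hcb u) a1.le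
    apply hu
    ext i
    have a2 := congrArg (S i) ht
    rw [map_smul, hS0, map_sum] at a2
    simp only [map_smul, hSz, smul_eq_mul, mul_zero, ite_mul, one_mul, zero_mul,
      mul_ite, Finset.sum_ite_eq, Finset.mem_univ, if_true] at a2
    have := (mul_eq_zero.1 a2).resolve_right (mul_ne_zero N0 hm)
    exact_mod_cast this
  let u : Fin (d - 1) → ℤ := (Matrix.of A).adjugate.mulVec fun j => ν (e j)
  have hu : ∀ i, lor (z i) (comb u) = (Matrix.of A).det * ν (e i) := fun i => by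
    rw [hcz]
    simp only [u, Matrix.mulVec_mulVec, Matrix.mul_adjugate, Matrix.smul_mulVec,
      Matrix.one_mulVec, Pi.smul_apply, smul_eq_mul]
    push_cast
    rfl
  set l := comb u with hl
  choose τ hτ using fun k : Zk (d - 1) => L.transl c (ofAdd k) l (hcb u)
  have hτ' : ∀ k, L.lin (L.α c (ofAdd k)) l = l + τ k • b := hτ
  have hadd : ∀ k k', τ (k + k') = τ k + τ k' := fun k k' => by
    have a1 := hτ' (k + k')
    rw [ofAdd_add, map_mul, b_mul, hτ', map_add, map_smul, hτ', b_fix, add_assoc, ← add_smul] at a1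
    exact (shift_inj n1 a1).symm
  let T : Zk (d - 1) →+ ℝ := AddMonoidHom.mk' τ hadd
  let r : ℝ := - (Matrix.of A).det / (N * lor l0 b)
  have r0 : r ≠ 0 := div_ne_zero (neg_ne_zero.2 (Int.cast_ne_zero.2 hdet)) (mul_ne_zero N0 hm)
  have hTe : ∀ j, T (e j) = r * ν (e j) := fun j => by
    have a1 := b_isom L (L.α c (ofAdd (N • e j))) l l0
    have a2 : L.lin (L.α c (ofAdd (N • e j))) l0 = l0 + z j := by simp only [z]; abel
    have a3 : τ (N • e j) = N * T (e j) :=
      (map_nsmul T N (e j)).trans (nsmul_eq_mul _ _)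
    rw [hτ', a2, lor_add_left, lor_add_right, lor_smul_left, lor_add_right, lor_comm b, lor_comm b,
      hz, lor_comm l (z j), hu, a3] at a1
    simp only [r]
    field_simp
    linarith
  have hT : ∀ k, τ k = r * ν k := fun k => by
    have hsum : k = ∑ i, k i • e i := by
      ext j; simp [e, Pi.single_apply]
    have a1 : T k = ∑ i, (k i : ℝ) * T (e i) := by
      conv_lhs => rw [hsum]
      simp only [map_sum, map_zsmul]
      simp only [zsmul_eq_mul]
    have a2 : ν k = ∑ i, k i * ν (e i) := by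
      conv_lhs => rw [hsum]
      simp only [map_sum, map_zsmul, smul_eq_mul]
    have a3 : T k = τ k := rfl
    rw [← a3, a1, a2]
    push_cast
    rw [Finset.mul_sum]
    exact Finset.sum_congr rfl fun i _ => by rw [hTe]; ring
  refine ⟨l, hcΛ u, hcb u, ?_, r, r0, fun k => by rw [hτ', hT]⟩
  by_contra hc
  obtain ⟨t, ht⟩ := null_par n1 (hcb u) (not_lt.1 hc)
  refine hν (AddMonoidHom.ext fun k => ?_)
  have a1 := hτ' k
  have a2 : L.lin (L.α c (ofAdd k)) l = l + (0 : ℝ) • b := by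
    rw [hl, ht, (L.lin _).map_smul, b_fix, zero_smul, add_zero]
  have a3 := shift_inj n1 (a1.symm.trans a2)
  rw [hT] at a3
  exact_mod_cast (mul_eq_zero.1 a3).resolve_left r0

end Pool.Agent.Lib.MP_661727_gt.Ar
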