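import Pool.Agent.Lib.MP_661727_gt.Ar.B2

/-! The wall system of an arithmetic lattice. -/

namespace Pool.Agent.Lib.MP_661727_gt.Ar

open Multiplicative

section

variable {d : ℕ} {Λ : AddSubgroup (Mink d)} {β : ℝ}

/-- unit vectors of short space-like lattice vectors -/
def b3W (Λ : AddSubgroup (Mink d)) (β : ℝ) : Set (Mink d) :=
  {w | ∃ l ∈ Λ, 0 < lor l l ∧ lor l l ≤ β ∧ w = (√(lor l l))⁻¹ • l}

lemma b3_unit {w : Mink d} (hw : w ∈ b3W Λ β) : lor w w = 1 := by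
  obtain ⟨l, -, h0, -, rfl⟩ := hw
  have h1 : √(lor l l) * √(lor l l) = lor l l := Real.mul_self_sqrt h0.le
  have h2 : 0 < √(lor l l) := Real.sqrt_pos.2 h0
  rw [lor_smul_left, lor_smul_right]
  field_simp
  nlinarith

lemma b3_neg {w : Mink d} (hw : w ∈ b3W Λ β) : -w ∈ b3W Λ β := by
  obtain ⟨l, hl, h0, h1, rfl⟩ := hw
  have e : lor (-l) (-l) = lor l l := by rw [lor_neg_left, lor_neg_right, neg_neg]
  exact ⟨-l, Λ.neg_mem hl, e ▸ h0, e ▸ h1, by rw [e, smul_neg]⟩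

lemma b3_one_le (h : Lat Λ) {l : Mink d} (hl : l ∈ Λ) (h0 : 0 < lor l l) : 1 ≤ √(lor l l) := by
  obtain ⟨n, hn⟩ := h.int l hl l hl
  rw [Real.one_le_sqrt, hn]
  rw [hn] at h0
  exact_mod_cast (show (1 : ℤ) ≤ n by have : (0 : ℤ) < n := by exact_mod_cast h0
                                      omega)

lemma b3_inv_le {l : Mink d} (h0 : 0 < lor l l) (h1 : lor l l ≤ β) :
    (√β)⁻¹ ≤ (√(lor l l))⁻¹ :=
  inv_anti₀ (Real.sqrt_pos.2 h0) (Real.sqrt_le_sqrt h1)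

lemma b3_lf (h : Lat Λ) (R : ℝ) : {w ∈ b3W Λ β | |w.1| ≤ R}.Finite := by
  refine ((h.disc (β + 2 * (β * R ^ 2))).image fun l => (√(lor l l))⁻¹ • l).subset ?_
  rintro w ⟨⟨l, hl, h0, h1, rfl⟩, hR⟩
  refine ⟨l, ⟨hl, ?_⟩, rfl⟩
  have h2 : 0 < √(lor l l) := Real.sqrt_pos.2 h0
  have h3 : √(lor l l) ^ 2 = lor l l := Real.sq_sqrt h0.le
  have h4 : ((√(lor l l))⁻¹ * l.1) ^ 2 ≤ R ^ 2 := by
    rw [← sq_abs]
    exact pow_le_pow_left₀ (abs_nonneg _) hR 2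
  have h5 : l.1 ^ 2 = lor l l * ((√(lor l l))⁻¹ * l.1) ^ 2 := by
    rw [mul_pow, inv_pow, h3]; field_simp
  have h6 : lor l l * ((√(lor l l))⁻¹ * l.1) ^ 2 ≤ β * R ^ 2 :=
    mul_le_mul h1 h4 (sq_nonneg _) (h0.le.trans h1)
  linarith

lemma b3_mu (h : Lat Λ) {M s : ℝ} {η w : Mink d} (hs : 0 < s) (hM : s ≤ M) (hη : s • η ∈ Λ)
    (hw : w ∈ b3W Λ β) : lor w η = 0 ∨ (√β)⁻¹ * M⁻¹ ≤ |lor w η| := by
  obtain ⟨l, hl, h0, h1, rfl⟩ := hw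
  obtain ⟨n, hn⟩ := h.int l hl _ hη
  rw [lor_smul_right] at hn
  have h2 : 0 < √(lor l l) := Real.sqrt_pos.2 h0
  have e : lor l η = s⁻¹ * n := by rw [← hn]; field_simp
  rw [lor_smul_left, e]
  by_cases hn0 : n = 0
  · left; simp [hn0]
  · right
    have h3 : (1 : ℝ) ≤ |(n : ℝ)| := by exact_mod_cast Int.one_le_abs hn0
    have h4 : M⁻¹ ≤ s⁻¹ := inv_anti₀ hs hM
    have h5 : 0 < s⁻¹ := inv_pos.2 hs
    rw [abs_mul, abs_mul, abs_of_pos (inv_pos.2 h2), abs_of_pos h5]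
    refine mul_le_mul (b3_inv_le h0 h1) (by nlinarith) (inv_pos.2 (hs.trans_le hM)).le
      (inv_pos.2 h2).le

lemma b3_per (h : Lat Λ) {M s : ℝ} {η w : Mink d} (hN : Nul η) (hs : 0 < s) (hM : s ≤ M)
    (hη : s • η ∈ Λ) (hw : w ∈ b3W Λ β) (h0 : lor w η = 0) :
    ∃ s' : ℝ, 0 < s' ∧ s' ≤ M ∧ ∀ n : ℤ, w + (n * s') • η ∈ b3W Λ β := by
  obtain ⟨l, hl, hp, h1, rfl⟩ := hw
  have h2 : 0 < √(lor l l) := Real.sqrt_pos.2 hp
  have h3 := b3_one_le h hl hp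
  have h4 : lor l η = 0 := by
    rw [lor_smul_left] at h0
    exact (mul_eq_zero.1 h0).resolve_left (inv_pos.2 h2).ne'
  refine ⟨(√(lor l l))⁻¹ * s, by positivity, ?_, fun n => ?_⟩
  · have := inv_le_one_of_one_le₀ h3
    nlinarith
  · have e : lor (l + n • s • η) (l + n • s • η) = lor l l := by
      rw [← Int.cast_smul_eq_zsmul ℝ]
      simp only [lor_add_left, lor_add_right, lor_smul_left, lor_smul_right, h4, hN.1,
        lor_comm η l]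
      ring
    refine ⟨l + n • s • η, Λ.add_mem hl (Λ.zsmul_mem hη n), e ▸ hp, e ▸ h1, ?_⟩
    rw [e, ← Int.cast_smul_eq_zsmul ℝ, smul_add, smul_smul, smul_smul]
    congr 2
    ring

lemma b3_cong1 (h : Lat Λ) {B : ℝ} {q : ℕ} (hq : 2 * B * β < q) (f : Mink d ≃ₗ[ℝ] Mink d)
    (hf : ∀ x ∈ Λ, ∃ l ∈ Λ, f x = x + (q : ℝ) • l) {u u' : Mink d} (hu : u ∈ b3W Λ β)
    (hu' : u' ∈ b3W Λ β) (h1 : |lor u u'| ≤ B) (h2 : |lor (f u) u'| ≤ B) :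
    lor (f u) u' = lor u u' := by
  obtain ⟨l, hl, hp, hb, rfl⟩ := hu
  obtain ⟨l', hl', hp', hb', rfl⟩ := hu'
  obtain ⟨m, hm, e⟩ := hf l hl
  obtain ⟨n, hn⟩ := h.int m hm l' hl'
  have hB : 0 ≤ B := (abs_nonneg _).trans h1
  have hβ : 0 < β := hp.trans_le hb
  set a := (√(lor l l))⁻¹ with ha
  set a' := (√(lor l' l'))⁻¹ with ha'
  have e2 : lor (f (a • l)) (a' • l') = lor (a • l) (a' • l') + a * a' * (q * n) := by
    rw [map_smul, e]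
    simp only [lor_add_left, lor_smul_left, lor_smul_right, hn]
    ring
  by_cases hn0 : n = 0
  · rw [e2, hn0]; simp
  · exfalso
    have h3 : (1 : ℝ) ≤ |(n : ℝ)| := by exact_mod_cast Int.one_le_abs hn0
    have h4 : |a * a' * (q * n)| ≤ 2 * B := by
      have : a * a' * (q * n) = lor (f (a • l)) (a' • l') - lor (a • l) (a' • l') := by
        rw [e2]; ring
      rw [this]
      exact (abs_sub _ _).trans (by linarith)
    have h5 : 0 < (√β)⁻¹ := inv_pos.2 (Real.sqrt_pos.2 hβ)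
    have h6 : (√β)⁻¹ ≤ a := b3_inv_le hp hb
    have h7 : (√β)⁻¹ ≤ a' := b3_inv_le hp' hb'
    have h8 : β⁻¹ ≤ a * a' := by
      have : β⁻¹ = (√β)⁻¹ * (√β)⁻¹ := by rw [← mul_inv, Real.mul_self_sqrt hβ.le]
      rw [this]
      exact mul_le_mul h6 h7 h5.le (h5.le.trans h6)
    have h9 : (0 : ℝ) ≤ q := Nat.cast_nonneg q
    have h10 : 0 < β⁻¹ := inv_pos.2 hβ
    rw [abs_mul, abs_mul (q : ℝ), abs_of_pos (h10.trans_le h8), abs_of_nonneg h9] at h4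
    have h11 : β⁻¹ * q ≤ a * a' * (q * |(n : ℝ)|) :=
      mul_le_mul h8 (by nlinarith) h9 (h10.le.trans h8)
    have h12 : (q : ℝ) = β * (β⁻¹ * q) := by field_simp
    have h13 : β * (β⁻¹ * q) ≤ β * (2 * B) := mul_le_mul_of_nonneg_left (h11.trans h4) hβ.le
    linarith

lemma b3_cong2 {q : ℕ} (f : Mink d ≃ₗ[ℝ] Mink d) (hi : ∀ x y, lor (f x) (f y) = lor x y)
    (hf : ∀ x ∈ Λ, ∃ l ∈ Λ, f x = x + ((2 * q : ℕ) : ℝ) • l) {u : Mink d} (hu : u ∈ b3W Λ β)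
    (h1 : lor (f u) u = 1) : (1 / 2 : ℝ) • (f u + u) ∈ b3W Λ β := by
  have h2 := b3_unit hu
  obtain ⟨l, hl, hp, hb, rfl⟩ := hu
  obtain ⟨m, hm, e⟩ := hf l hl
  have ha : 0 < (√(lor l l))⁻¹ := inv_pos.2 (Real.sqrt_pos.2 hp)
  have h3 : lor (f l) l = lor l l := by
    rw [← h1, map_smul] at h2
    simp only [lor_smul_left, lor_smul_right] at h2
    exact (mul_left_cancel₀ ha.ne' (mul_left_cancel₀ ha.ne' h2)).symm
  have h4 : (1 / 2 : ℝ) • (f l + l) = l + q • m := by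
    rw [e, ← Nat.cast_smul_eq_nsmul ℝ]
    push_cast
    module
  have h5 : lor ((1 / 2 : ℝ) • (f l + l)) ((1 / 2 : ℝ) • (f l + l)) = lor l l := by
    simp only [lor_smul_left, lor_smul_right, lor_add_left, lor_add_right, hi, h3,
      lor_comm l (f l)]
    ring
  refine ⟨(1 / 2 : ℝ) • (f l + l), h4 ▸ Λ.add_mem hl (Λ.nsmul_mem hm q), h5 ▸ hp, h5 ▸ hb, ?_⟩
  rw [h5, map_smul]
  module

lemma b3_map (f : Mink d ≃ₗ[ℝ] Mink d) (hi : ∀ x y, lor (f x) (f y) = lor x y) {l : Mink d}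
    (hl : f l ∈ Λ) (hp : 0 < lor l l) (hb : lor l l ≤ β) :
    (√(lor l l))⁻¹ • f l ∈ b3W Λ β :=
  ⟨f l, hl, hi l l ▸ hp, hi l l ▸ hb, by rw [hi]⟩

variable (L : Cusped d) {H : Subgroup L.G}

lemma b3_isom (g : L.G) (x y : Mink d) : lor (L.lin g x) (L.lin g y) = lor x y := L.isom g x y

lemma b3_cancel (g : L.G) (x : Mink d) : L.lin g (L.lin g⁻¹ x) = x := by
  rw [← LinearEquiv.mul_apply, ← map_mul, mul_inv_cancel, map_one]; rfl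

/-- uniform denominators and uniform vertical walls -/
lemma b3_cusps (hd : 2 ≤ d) (h : Lat Λ) (hH : H.FiniteIndex)
    (hρ : ∀ g ∈ H, ∀ x ∈ Λ, L.lin g x ∈ Λ) :
    ∃ (T : Set ℝ) (M β : ℝ), T.Finite ∧ 0 < M ∧
      (∀ η ∈ cusps L, ∃ s ∈ T, 0 < s ∧ s ≤ M ∧ s • η ∈ Λ) ∧
      ∀ η ∈ cusps L, ∀ e, lor e η = 0 → lor e e = 1 → ∃ g ∈ H, ∃ l ∈ Λ,
        0 < lor l l ∧ lor l l ≤ β ∧ lor (L.lin g l) η = 0 ∧ 1 ≤ lor (L.lin g l) e := by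
  obtain ⟨Φ, hΦ, hsub, horb⟩ := cusps_orb L hH
  choose! s hs hsΛ using cusps_rat L hd h hH hρ
  have hv : ∀ η ∈ cusps L, ∃ β : ℝ, ∀ e, lor e η = 0 → lor e e = 1 →
      ∃ l ∈ Λ, lor l η = 0 ∧ 0 < lor l l ∧ lor l l ≤ β ∧ 1 ≤ lor l e := by
    intro η hη
    have hN := cusps_nul L η hη
    have hN' : Nul (s η • η) :=
      ⟨by rw [lor_smul_left, lor_smul_right, hN.1]; simp, mul_pos (hs η hη) hN.2⟩
    obtain ⟨β, hβ⟩ := h.vert hN' (hsΛ η hη)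
    refine ⟨β, fun e h0 h1 => ?_⟩
    obtain ⟨l, hl, h2, h3⟩ := hβ e (by rw [lor_smul_right, h0, mul_zero]) h1
    rw [lor_smul_right] at h2
    exact ⟨l, hl, (mul_eq_zero.1 h2).resolve_left (hs η hη).ne', h3⟩
  choose! b hb using hv
  obtain ⟨M, hM⟩ := (hΦ.image s).bddAbove
  obtain ⟨β, hβ⟩ := (hΦ.image b).bddAbove
  refine ⟨s '' Φ, max M 1, β, hΦ.image s, lt_max_of_lt_right one_pos, fun η hη => ?_,
    fun η hη e h0 h1 => ?_⟩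
  · obtain ⟨g, hg, η0, h0, rfl⟩ := horb η hη
    refine ⟨s η0, ⟨η0, h0, rfl⟩, hs _ (hsub h0), (hM ⟨η0, h0, rfl⟩).trans (le_max_left _ _), ?_⟩
    rw [← map_smul]
    exact hρ g hg _ (hsΛ _ (hsub h0))
  · obtain ⟨g, hg, η0, h2, rfl⟩ := horb η hη
    obtain ⟨e, rfl⟩ := (L.lin g).surjective e
    rw [b3_isom] at h0 h1
    obtain ⟨l, hl, h3, h4, h5, h6⟩ := hb η0 (hsub h2) e h0 h1
    exact ⟨g, hg, l, hl, h4, h5.trans (hβ ⟨η0, h2, rfl⟩), by rw [b3_isom, h3],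
      by rwa [b3_isom]⟩

lemma b3_lfC (h : Lat Λ) {T : Set ℝ} {M : ℝ} (hT : T.Finite)
    (hs : ∀ η ∈ cusps L, ∃ s ∈ T, 0 < s ∧ s ≤ M ∧ s • η ∈ Λ) (R : ℝ) :
    {η ∈ cusps L | η.1 ≤ R}.Finite := by
  refine ((hT.prod (h.disc (2 * (M * R) ^ 2))).image fun p => p.1⁻¹ • p.2).subset ?_
  rintro η ⟨hη, hR⟩
  obtain ⟨s, hsT, h0, hM, hΛ⟩ := hs η hη
  have hN := cusps_nul L η hη
  refine ⟨(s, s • η), ⟨hsT, hΛ, ?_⟩, by simp [smul_smul, inv_mul_cancel₀ h0.ne']⟩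
  have h1 : lor (s • η) (s • η) = 0 := by rw [lor_smul_left, lor_smul_right, hN.1]; simp
  have h2 : (s • η).1 = s * η.1 := rfl
  have h3 : s * η.1 ≤ M * R := mul_le_mul hM hR hN.2.le (h0.le.trans hM)
  have h4 : (s * η.1) ^ 2 ≤ (M * R) ^ 2 := pow_le_pow_left₀ (mul_pos h0 hN.2).le h3 2
  show lor (s • η) (s • η) + 2 * (s • η).1 ^ 2 ≤ _
  rw [h1, h2]
  linarith

end

theorem exists_sys {d : ℕ} (L : Cusped d) (hA : L.Arith) (c : L.C) (ν : Zk (d - 1) →+ ℤ)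
    (hν : ν ≠ 0) : ∃ S : Sys d L.G, S.ρ = L.lin ∧ S.C = cusps L ∧ ∃ t ∈ S.W, lor t (L.b c) = 0 ∧
      ∃ r : ℝ, r ≠ 0 ∧ ∀ k, L.lin (L.α c (ofAdd k)) t = t + (r * ν k) • L.b c := by
  obtain ⟨H, Λ, hH, hspan, hint, hρ0⟩ := hA
  have h : Lat Λ := ⟨hspan, hint⟩
  have hρ : ∀ g ∈ H, ∀ x ∈ Λ, L.lin g x ∈ Λ := hρ0
  have hd : 2 ≤ d := by
    by_contra hc
    have : IsEmpty (Fin (d - 1)) := ⟨fun i => by have := i.2; omega⟩
    exact hν (AddMonoidHom.ext fun k => by rw [Subsingleton.elim k 0, map_zero, map_zero])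
  obtain ⟨T, M, β1, hT, hM, hs, hv⟩ := b3_cusps L hd h hH hρ
  obtain ⟨R, hR⟩ := cusps_cpt L hH
  obtain ⟨β2, hβ2⟩ := h.dens R
  obtain ⟨l0, hl0, h01, h02, r, hr, hk⟩ := exists_dir L h hH hρ c ν hν
  obtain ⟨β, hb0, hb1, hb2⟩ : ∃ β : ℝ, lor l0 l0 ≤ β ∧ β1 ≤ β ∧ β2 ≤ β :=
    ⟨max (lor l0 l0) (max β1 β2), le_max_left _ _, (le_max_left _ _).trans (le_max_right _ _),
      (le_max_right _ _).trans (le_max_right _ _)⟩
  have hβ : 0 < (√β)⁻¹ := inv_pos.2 (Real.sqrt_pos.2 (h02.trans_le hb0))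
  have ha : 0 < (√(lor l0 l0))⁻¹ := inv_pos.2 (Real.sqrt_pos.2 h02)
  refine ⟨{
    ρ := L.lin
    Γ := H
    fi := hH
    isom := b3_isom L
    sheet := L.sheet
    W := b3W Λ β
    unit := fun w hw => b3_unit hw
    neg := fun w hw => b3_neg hw
    inv := ?_
    C := cusps L
    light := cusps_nul L
    invC := ?_
    lf := b3_lf h
    lfC := b3_lfC L h hT hs
    mu := ⟨(√β)⁻¹ * M⁻¹, mul_pos hβ (inv_pos.2 hM), fun η hη w hw => ?_⟩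
    per := ⟨M, fun η hη w hw h0 => ?_⟩
    transl := cusps_transl L
    move := fun η hη w hw h0 => cusps_move L hH η hη w h0 (b3_unit hw)
    horo := cusps_horo L
    cpt1 := ⟨R, hR⟩
    dens := ⟨(√β)⁻¹, hβ, fun x hx ht v h0 h1 => ?_⟩
    vert := ⟨(√β)⁻¹, hβ, fun η hη e h0 h1 => ?_⟩
    cong := fun B => ?_ }, rfl, rfl, (√(lor l0 l0))⁻¹ • l0, ⟨l0, hl0, h02, hb0, rfl⟩,
    by rw [lor_smul_left, h01, mul_zero], (√(lor l0 l0))⁻¹ * r, mul_ne_zero ha.ne' hr,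
    fun k => by rw [map_smul, hk, smul_add, smul_smul, mul_assoc]⟩
  · rintro g hg w ⟨l, hl, hp, hb, rfl⟩
    rw [map_smul]
    exact b3_map _ (b3_isom L g) (hρ g hg l hl) hp hb
  · rintro g η ⟨g', c', rfl⟩
    exact ⟨g * g', c', by rw [map_mul, LinearEquiv.mul_apply]⟩
  · obtain ⟨s, -, h0, h1, h2⟩ := hs η hη
    exact b3_mu h h0 h1 h2 hw
  · obtain ⟨s, -, h3, h1, h2⟩ := hs η hη
    exact b3_per h (cusps_nul L η hη) h3 h1 h2 hw h0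
  · obtain ⟨g, hg, hx1⟩ := hR x hx ht
    obtain ⟨l, hl, hp, hb, h2, h3⟩ := hβ2 (L.lin g x) (L.sheet g x hx) hx1 (L.lin g v)
      (by rw [b3_isom, h0]) (by rw [b3_isom, h1])
    have h4 := b3_inv_le hp (hb.trans hb2)
    rw [← map_add, ← b3_cancel L g l, b3_isom] at h2
    rw [← map_sub, ← b3_cancel L g l, b3_isom] at h3
    refine ⟨_, b3_map _ (b3_isom L g⁻¹) (hρ _ (H.inv_mem hg) l hl) hp (hb.trans hb2), ?_, ?_⟩
    · rw [lor_smul_right]; nlinarith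
    · rw [lor_smul_right]; nlinarith
  · obtain ⟨g, hg, l, hl, hp, hb, h2, h3⟩ := hv η hη e h0 h1
    have h4 := b3_inv_le hp (hb.trans hb1)
    refine ⟨_, b3_map _ (b3_isom L g) (hρ g hg l hl) hp (hb.trans hb1), ?_, ?_⟩
    · rw [lor_smul_left, h2, mul_zero]
    · rw [lor_smul_left]; nlinarith
  · obtain ⟨q, hq⟩ := exists_nat_gt (max (2 * B * β) 0)
    have hq0 : (0 : ℝ) < q := (le_max_right _ _).trans_lt hq
    have hq1 : 0 < q := by exact_mod_cast hq0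
    obtain ⟨G0, hG1, hG2, hG3⟩ := h.cong L.lin H hH hρ (q := 2 * q) (by omega)
    refine ⟨G0, hG1, hG2, fun g hg => ⟨fun u hu u' hu' h1 h2 => ?_, fun u hu h1 => ?_⟩⟩
    · refine b3_cong1 h (q := 2 * q) ?_ _ (hG3 g hg) hu hu' h1 h2
      have := (le_max_left _ _).trans_lt hq
      push_cast
      linarith
    · exact b3_cong2 _ (b3_isom L g) (hG3 g hg) hu h1

end Pool.Agent.Lib.MP_661727_gt.Ar
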