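import Pool.Agent.Lib.MP_661727_gt.Ar.A

/-! Separation properties of a wall system. -/

namespace Pool.Agent.Lib.MP_661727_gt.Ar.Sys

variable {d : ℕ} {G : Type} [Group G] (S : Sys d G)

lemma ρ_inv (g : G) (v : Mink d) : S.ρ g⁻¹ (S.ρ g v) = v := by
  rw [← LinearEquiv.mul_apply, ← map_mul, inv_mul_cancel, map_one]; rfl

lemma ρ_inv' (g : G) (v : Mink d) : S.ρ g (S.ρ g⁻¹ v) = v := by
  rw [← LinearEquiv.mul_apply, ← map_mul, mul_inv_cancel, map_one]; rfl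

lemma ρ_mul (g h : G) (v : Mink d) : S.ρ (g * h) v = S.ρ g (S.ρ h v) := by
  rw [map_mul, LinearEquiv.mul_apply]

lemma lor_ρ (g : G) (x y : Mink d) : lor (S.ρ g x) y = lor x (S.ρ g⁻¹ y) := by
  rw [← S.isom g x, S.ρ_inv']

lemma le_ρ (g : G) (u w : Mink d) : Le (S.ρ g u) (S.ρ g w) ↔ Le u w := by
  constructor
  · intro h x hx
    have := h _ (S.sheet g x hx)
    rwa [S.isom, S.isom] at this
  · intro h x hx
    have := h _ (S.sheet g⁻¹ x hx)
    rwa [← S.isom g, ← S.isom g _ w, S.ρ_inv'] at this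

lemma thick_ρ (g : G) {ε : ℝ} {x : Mink d} (h : Thick S.C ε x) : Thick S.C ε (S.ρ g x) := by
  intro η hη
  rw [S.lor_ρ]
  exact h _ (S.invC _ _ hη)

lemma lf_at {x : Mink d} (hx : x ∈ Hyp d) (R : ℝ) : {w ∈ S.W | |lor x w| ≤ R}.Finite := by
  refine (S.lf ((2 * R + 1) * (- lor (oo d) x))).subset ?_
  rintro w ⟨hw, h⟩
  refine ⟨hw, ?_⟩
  have := abs_le_near oo_mem hx (S.unit w hw) h
  rwa [lor_oo w, abs_neg] at this

/-- powers of a translation -/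
lemma ρ_zpow {g : G} {η w : Mink d} {a : ℝ} (h1 : S.ρ g η = η) (h2 : S.ρ g w = w + a • η) (n : ℤ) :
    S.ρ (g ^ n) η = η ∧ S.ρ (g ^ n) w = w + (n * a) • η := by
  have h3 : S.ρ g⁻¹ η = η := by
    conv_lhs => rw [← h1, S.ρ_inv]
  have h4 : S.ρ g⁻¹ w = w + (-a) • η := by
    have h5 := S.ρ_inv g w
    rw [h2, map_add, map_smul, h3] at h5
    rw [neg_smul, ← sub_eq_add_neg, eq_sub_iff_add_eq, h5]
  induction n using Int.induction_on with
  | zero => simp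
  | succ n ih =>
    rw [zpow_add_one, S.ρ_mul, S.ρ_mul, h1, h2, map_add, map_smul, ih.1, ih.2]
    refine ⟨rfl, ?_⟩
    rw [add_assoc, ← add_smul]
    congr 2
    push_cast
    ring
  | pred n ih =>
    rw [zpow_sub_one, S.ρ_mul, S.ρ_mul, h3, h4, map_add, map_smul, ih.1, ih.2]
    refine ⟨rfl, ?_⟩
    rw [add_assoc, ← add_smul]
    congr 2
    push_cast
    ring

lemma c_sqrt (y : ℝ) : √(1 + y ^ 2) ≤ 1 + |y| := by
  apply Real.sqrt_le_iff.2
  refine ⟨by positivity, ?_⟩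
  nlinarith [abs_nonneg y, sq_abs y]

/-- deep in a horoball only walls through the cusp are close -/
lemma deep (K : ℝ) : ∃ ε : ℝ, 0 < ε ∧ ε ≤ 1 ∧ ∀ x ∈ Hyp d, ∀ η ∈ S.C, - lor x η < ε →
    ∀ w ∈ S.W, -K ≤ lor x w → 0 ≤ lor w η := by
  obtain ⟨μ, hμ, h⟩ := S.mu
  have hK : 0 < 2 * |K| + 1 := by positivity
  refine ⟨min 1 (μ / (2 * |K| + 1)), lt_min one_pos (div_pos hμ hK), min_le_left _ _, ?_⟩
  intro x hx η hη ha w hw hy
  by_contra hc
  rw [not_le] at hc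
  have h1 : μ ≤ - lor w η := by
    rcases h η hη w hw with h1 | h1
    · exact absurd h1 hc.ne
    · rwa [abs_of_neg hc] at h1
  have h2 := height hx (S.light η hη) (S.unit _ (S.neg w hw))
  rw [lor_neg_left, lor_neg_right] at h2
  have h3 : 0 < - lor x η := neg_pos.2 (lor_neg hx (S.light η hη).fut)
  have h4 := c_sqrt (- lor x w)
  have h5 : - lor x w + |- lor x w| ≤ 2 * |K| := by
    have h6 := le_abs_self K
    have h7 := abs_nonneg K
    rcases abs_cases (- lor x w) with h8 | h8 <;> linarith [h8.1]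
  have h6 : - lor x η < μ / (2 * |K| + 1) := ha.trans_le (min_le_right _ _)
  rw [lt_div_iff₀ hK] at h6
  have h7 : - lor x η * (- lor x w + √(1 + (- lor x w) ^ 2)) ≤ - lor x η * (2 * |K| + 1) :=
    mul_le_mul_of_nonneg_left (by linarith) h3.le
  linarith

lemma up_bd {η : Mink d} (hη : η ∈ S.C) : ∃ R : ℝ, ∀ w ∈ S.W, 0 < lor w η → w.1 ≤ R := by
  obtain ⟨μ, hμ, h⟩ := S.mu
  have h0 := (S.light η hη).2
  refine ⟨η.1 / (2 * μ), fun w hw hc => ?_⟩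
  rcases le_or_gt w.1 0 with hy | hy
  · exact hy.trans (by positivity)
  have h1 : μ ≤ lor w η := by
    rcases h η hη w hw with h1 | h1
    · exact absurd h1 hc.ne'
    · rwa [abs_of_pos hc] at h1
  have h2 := height oo_mem (S.light η hη) (S.unit w hw)
  rw [lor_oo, lor_oo, neg_neg] at h2
  have h3 : √(1 + (- w.1) ^ 2) ≤ w.1 + (2 * w.1)⁻¹ := by
    apply Real.sqrt_le_iff.2
    refine ⟨by positivity, ?_⟩
    have h4 : 2 * w.1 * (2 * w.1)⁻¹ = 1 := mul_inv_cancel₀ (by positivity)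
    nlinarith [sq_nonneg (2 * w.1)⁻¹]
  have h4 : μ ≤ η.1 * (2 * w.1)⁻¹ :=
    h1.trans (h2.trans (mul_le_mul_of_nonneg_left (by linarith) h0.le))
  rw [← div_eq_mul_inv, le_div_iff₀ (by positivity)] at h4
  rw [le_div_iff₀ (by positivity)]
  linarith

lemma cpt {ε : ℝ} (hε : 0 < ε) :
    ∃ R : ℝ, ∀ x ∈ Hyp d, Thick S.C ε x → ∃ g ∈ S.Γ, (S.ρ g x).1 ≤ R := by
  obtain ⟨R, h⟩ := S.cpt1
  refine ⟨max R (R * (ε⁻¹ + 1)), fun x hx ht => ?_⟩
  by_cases h1 : Thick S.C 1 x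
  · obtain ⟨g, hg, h2⟩ := h x hx h1
    exact ⟨g, hg, h2.trans (le_max_left _ _)⟩
  simp only [Thick, not_forall, not_le] at h1
  obtain ⟨η, hη, h1⟩ := h1
  obtain ⟨a1, a2, a3⟩ := horo_pt hx (S.light η hη)
  set y := (- lor x η)⁻¹ • x + ((1 - ((- lor x η)⁻¹) ^ 2) / 2) • η with hy
  obtain ⟨g, hg, h2⟩ := h y a1 (S.horo η hη y a1 a2)
  refine ⟨g, hg, le_trans ?_ (le_max_right _ _)⟩
  have h3 := tri3 oo_mem (S.sheet g y a1) (S.sheet g x hx)
  rw [lor_oo, lor_oo, neg_neg, neg_neg, S.isom, lor_comm y x, a3] at h3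
  have h4 : (- lor x η)⁻¹ ≤ ε⁻¹ := inv_anti₀ hε (ht η hη)
  have h5 := (S.sheet g y a1).2
  have h6 : 0 < ε⁻¹ := inv_pos.2 hε
  calc (S.ρ g x).1 ≤ 2 * (S.ρ g y).1 * (((- lor x η)⁻¹ + (- lor x η)) / 2) := h3
    _ ≤ 2 * (S.ρ g y).1 * ((ε⁻¹ + 1) / 2) :=
      mul_le_mul_of_nonneg_left (by linarith) (by positivity)
    _ = (S.ρ g y).1 * (ε⁻¹ + 1) := by ring
    _ ≤ R * (ε⁻¹ + 1) := mul_le_mul_of_nonneg_right h2 (by positivity)

/-- finitely many directions of walls at a cusp -/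
lemma dirs {η : Mink d} (hη : η ∈ S.C) : ∃ J : Set (Mink d), J.Finite ∧ J ⊆ S.W ∧
    (∀ j ∈ J, lor j η = 0) ∧ ∀ w ∈ S.W, lor w η = 0 → ∃ j ∈ J, ∃ s : ℝ, w = j + s • η := by
  obtain ⟨κ, h⟩ := S.per
  obtain ⟨h0, h1⟩ := S.light η hη
  refine ⟨{w ∈ S.W | |w.1| ≤ κ * η.1 ∧ lor w η = 0},
    (S.lf (κ * η.1)).subset fun w hw => ⟨hw.1, hw.2.1⟩, fun w hw => hw.1, fun w hw => hw.2.2,
    fun w hw hw' => ?_⟩
  obtain ⟨s, s0, s1, h2⟩ := h η hη w hw hw'
  have h3 : 0 < s * η.1 := mul_pos s0 h1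
  refine ⟨_, ⟨h2 (-⌊w.1 / (s * η.1)⌋), ?_, ?_⟩, ⌊w.1 / (s * η.1)⌋ * s, ?_⟩
  · have h4 := Int.floor_le (w.1 / (s * η.1))
    have h5 := Int.lt_floor_add_one (w.1 / (s * η.1))
    rw [le_div_iff₀ h3] at h4
    rw [div_lt_iff₀ h3] at h5
    have h6 : s * η.1 ≤ κ * η.1 := mul_le_mul_of_nonneg_right s1 h1.le
    simp only [Prod.fst_add, Prod.smul_fst, smul_eq_mul, Int.cast_neg]
    rw [abs_le]
    constructor <;> nlinarith
  · rw [lor_add_left, lor_smul_left, h0, hw']; ring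
  · rw [add_assoc, ← add_smul]
    simp

lemma c_one_le {η η' : Mink d} (hη : η ∈ S.C) (hη' : η' ∈ S.C) {s : ℝ} (h : η' = s • η) :
    1 ≤ s := by
  obtain ⟨a1, a2, -⟩ := horo_pt oo_mem (S.light η hη)
  have := S.horo η hη _ a1 a2 η' hη'
  rw [h, lor_smul_right, a2] at this
  linarith

lemma c_pos {η η' : Mink d} (hη : η ∈ S.C) (hη' : η' ∈ S.C) (h : η ≠ η') : lor η η' < 0 := by
  refine lt_of_le_of_ne (lor_nonpos (S.light η hη).fut (S.light η' hη').fut) fun h0 => h ?_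
  obtain ⟨s, hs⟩ := null_par (S.light η hη) (by rw [lor_comm, h0]) (S.light η' hη').1.le
  have h1 := S.c_one_le hη hη' hs
  have h2 : η = s⁻¹ • η' := by
    rw [hs, smul_smul, inv_mul_cancel₀ (by linarith), one_smul]
  have h3 := S.c_one_le hη' hη h2
  have h4 : s = 1 := le_antisymm ((one_le_inv₀ (by linarith)).1 h3) h1
  rw [hs, h4, one_smul]

lemma cc {η η' : Mink d} (hη : η ∈ S.C) (hη' : η' ∈ S.C) (h : η ≠ η') :
    ∃ w ∈ S.W, 0 < lor w η ∧ lor w η' < 0 := by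
  obtain ⟨θ, hθ, hd⟩ := S.dens
  have h0 := S.c_pos hη hη' h
  obtain ⟨a1, a2⟩ := S.light η hη
  obtain ⟨b1, b2⟩ := S.light η' hη'
  obtain ⟨c, hc⟩ : ∃ c : ℝ, c = (- lor η η')⁻¹ := ⟨_, rfl⟩
  have c0 : 0 < c := hc ▸ inv_pos.2 (neg_pos.2 h0)
  have c1 : c * lor η η' = -1 := by
    rw [hc]; field_simp [h0.ne]
  have hx : (1 / 2 : ℝ) • η + c • η' ∈ Hyp d := by
    constructor
    · simp only [lor_add_left, lor_add_right, lor_smul_left, lor_smul_right, a1, b1, lor_comm η' η]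
      linarith
    · simp only [Prod.fst_add, Prod.smul_fst, smul_eq_mul]
      positivity
  have hx' : lor ((1 / 2 : ℝ) • η + c • η') η = -1 := by
    simp only [lor_add_left, lor_smul_left, a1, lor_comm η' η]
    linarith
  obtain ⟨w, hw, h1, h2⟩ := hd _ hx (S.horo η hη _ hx hx') ((1 / 2 : ℝ) • η - c • η')
    (by
      simp only [lor_sub_left, lor_add_right, lor_smul_left, lor_smul_right, a1, b1, lor_comm η' η]
      linarith)
    (by
      simp only [lor_sub_left, lor_sub_right, lor_smul_left, lor_smul_right, a1, b1, lor_comm η' η]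
      linarith)
  simp only [lor_sub_left, lor_add_left, lor_smul_left] at h1 h2
  refine ⟨w, hw, ?_, ?_⟩
  · rw [lor_comm]; linarith
  · rw [lor_comm]
    by_contra h3
    have := mul_nonneg c0.le (not_lt.1 h3)
    linarith

/-- passing to a subgroup of finite index -/
lemma exists_sub (G0 : Subgroup G) (h : G0 ≤ S.Γ) (hf : G0.FiniteIndex) :
    ∃ S' : Sys d G, S'.ρ = S.ρ ∧ S'.W = S.W ∧ S'.C = S.C ∧ S'.Γ = G0 := by
  refine ⟨{ S with
    Γ := G0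
    fi := hf
    inv := fun g hg => S.inv g (h hg)
    move := ?_
    cpt1 := ?_
    cong := ?_ }, rfl, rfl, rfl, rfl⟩
  · intro η hη w hw h0
    obtain ⟨g, -, h1, h2⟩ := S.move η hη w hw h0
    obtain ⟨s, hs⟩ := S.transl g η hη h1 w h0
    obtain ⟨k, k0, -, hk⟩ := Subgroup.exists_pow_mem_of_index_ne_zero hf.index_ne_zero g
    obtain ⟨h3, h4⟩ := S.ρ_zpow h1 hs k
    rw [zpow_natCast] at h3 h4
    refine ⟨g ^ k, hk, h3, fun h5 => h2 ?_⟩
    rw [h4, add_eq_left, smul_eq_zero, mul_eq_zero] at h5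
    rcases h5 with (h5 | h5) | h5
    · exact absurd h5 (by exact_mod_cast k0.ne')
    · rw [hs, h5, zero_smul, add_zero]
    · exact absurd h5 (S.light η hη).ne
  · obtain ⟨R, hR⟩ := S.cpt1
    obtain ⟨B, hB⟩ := (Set.finite_range fun q : G ⧸ G0 => (S.ρ q.out (oo d)).1).bddAbove
    refine ⟨2 * B * R, fun x hx ht => ?_⟩
    obtain ⟨g, -, h1⟩ := hR x hx ht
    set c := (QuotientGroup.mk g : G ⧸ G0).out with hc
    refine ⟨c⁻¹ * g, QuotientGroup.eq.1 (QuotientGroup.out_eq' _), ?_⟩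
    have h2 := tri3 (S.sheet c _ oo_mem) oo_mem (S.sheet g x hx)
    rw [S.lor_ρ, lor_oo, lor_comm _ (oo d), lor_oo, lor_oo, neg_neg, neg_neg, neg_neg,
      ← S.ρ_mul] at h2
    have h3 : (S.ρ c (oo d)).1 ≤ B := hB ⟨_, rfl⟩
    have h4 := (S.sheet c _ oo_mem).2
    have h5 := (S.sheet g x hx).2
    exact h2.trans (mul_le_mul (by linarith) h1 h5.le (by linarith))
  · intro B
    obtain ⟨G1, -, h2, h3⟩ := S.cong B
    exact ⟨G1 ⊓ G0, inf_le_right, inferInstance, fun g hg => h3 g hg.1⟩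

end Pool.Agent.Lib.MP_661727_gt.Ar.Sys
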