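import Pool.Agent.Lib.MP_661727_gt.Ar.C

/-! Vertices, flips, paths and potentials. -/

namespace Pool.Agent.Lib.MP_661727_gt.Ar.Sys

variable {d : ℕ} {G : Type} [Group G] {S : Sys d G} {o o' : Set (Mink d)} {u w t η : Mink d} {g : G}

lemma Vx.bd_at (h : S.Vx o) {x : Mink d} (hx : x ∈ Hyp d) : ∃ R : ℝ, ∀ w ∈ o, -R ≤ lor x w := by
  obtain ⟨R, hR⟩ := h.bd
  refine ⟨_, fun w hw => low hx oo_mem (S.unit w (h.sub hw)) (abs_nonneg R) ?_⟩
  rw [lor_oo]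
  linarith [hR w hw, le_abs_self R]
lemma Vx.neg_mem (h : S.Vx o) (hw : w ∈ S.W) (h' : w ∉ o) : -w ∈ o := by
  by_contra hc
  exact h' ((h.tot w hw).2 hc)
lemma Vx.neg_not (h : S.Vx o) (hw : w ∈ o) : -w ∉ o := (h.tot w (h.sub hw)).1 hw
lemma Vx.not_le (h : S.Vx o) (hu : u ∈ o) (hw : w ∈ o) : ¬ Le u (-w) := fun hc =>
  h.neg_not hw (h.up u hu _ (S.neg w (h.sub hw)) hc)
lemma mem_fl : w ∈ fl o u ↔ w = -u ∨ (w ∈ o ∧ w ≠ u) := by simp [fl]
lemma Vx.fl (h : S.Vx o) (hu : Mn o u) : S.Vx (fl o u) := by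
  have hW := h.sub hu.1
  have h1 := S.unit u hW
  refine ⟨fun w hw => ?_, fun w hw => ?_, fun w hw w' hw' hl => ?_, ?_⟩
  · rcases mem_fl.1 hw with rfl | hw
    · exact S.neg u hW
    · exact h.sub hw.1
  · rw [mem_fl, mem_fl, neg_inj]
    constructor
    · rintro (rfl | ⟨a, b⟩) (c | ⟨c, e⟩)
      · exact ne_neg h1 c.symm
      · exact e (neg_neg u)
      · exact b c
      · exact h.neg_not a c
    · intro hc
      push Not at hc
      by_cases e : w = -u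
      · exact Or.inl e
      · refine Or.inr ⟨?_, hc.1⟩
        by_contra hn
        exact e (by rw [← hc.2 (h.neg_mem hw hn), neg_neg])
  · rw [mem_fl]
    rcases mem_fl.1 hw with rfl | hw
    · by_cases e : w' ∈ o
      · exact Or.inr ⟨e, fun e' => not_neg_le h1 (e' ▸ hl)⟩
      · exact Or.inl (by rw [← hu.2 _ (h.neg_mem hw' e) (neg_le_iff.1 hl), neg_neg])
    · exact Or.inr ⟨h.up w hw.1 w' hw' hl, fun e => hw.2 (hu.2 w hw.1 (e ▸ hl))⟩
  · obtain ⟨R, hR⟩ := h.bd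
    refine ⟨max R (-u).1, fun w hw => ?_⟩
    rcases mem_fl.1 hw with rfl | hw
    · exact le_max_right _ _
    · exact (hR w hw.1).trans (le_max_left _ _)
lemma Vx.mn_fl (h : S.Vx o) (hu : Mn o u) : Mn (Ar.fl o u) (-u) :=
  ⟨mem_fl.2 (Or.inl rfl), fun w hw hl => (mem_fl.1 hw).elim id fun hw =>
    absurd hl (h.not_le hw.1 hu.1)⟩
lemma Vx.fl_fl (h : S.Vx o) (hu : u ∈ o) : Ar.fl (Ar.fl o u) (-u) = o := by
  ext w
  rw [mem_fl, mem_fl, neg_neg]
  constructor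
  · rintro (rfl | ⟨rfl | a, b⟩)
    · exact hu
    · exact absurd rfl b
    · exact a.1
  · intro hw
    by_cases e : w = u
    · exact Or.inl e
    · exact Or.inr ⟨Or.inr ⟨hw, e⟩, fun e' => h.neg_not hu (e' ▸ hw)⟩
lemma Vx.square (h : S.Vx o) (hu : Mn o u) (hw : Mn o w) (hc : |lor u w| < 1) :
    Mn (Ar.fl o u) w ∧ Ar.fl (Ar.fl o u) w = Ar.fl (Ar.fl o w) u := by
  obtain ⟨c1, -, c3, c4⟩ := (cross_iff (S.unit u (h.sub hu.1)) (S.unit w (h.sub hw.1))).1 hc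
  have n1 : u ≠ w := fun e => c1 (e ▸ Le.rfl)
  have n2 : u ≠ -w := fun e => c3 (e ▸ Le.rfl)
  have n3 : -u ≠ w := fun e => n2 (by rw [← e, neg_neg])
  refine ⟨⟨mem_fl.2 (Or.inr ⟨hw.1, n1.symm⟩), fun v hv hl => ?_⟩, ?_⟩
  · rcases mem_fl.1 hv with rfl | hv
    · exact absurd (neg_le_iff.1 hl) c4
    · exact hw.2 v hv.1 hl
  · ext v
    simp only [mem_fl]
    constructor
    · rintro (rfl | ⟨rfl | a, b⟩)
      · exact Or.inr ⟨Or.inl rfl, n2.symm⟩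
      · exact Or.inl rfl
      · exact Or.inr ⟨Or.inr ⟨a.1, b⟩, a.2⟩
    · rintro (rfl | ⟨rfl | a, b⟩)
      · exact Or.inr ⟨Or.inl rfl, n3⟩
      · exact Or.inl rfl
      · exact Or.inr ⟨Or.inr ⟨a.1, b⟩, a.2⟩
lemma mem_act : w ∈ S.act g o ↔ S.ρ g⁻¹ w ∈ o :=
  ⟨by rintro ⟨v, hv, rfl⟩; rwa [S.ρ_inv], fun h => ⟨_, h, S.ρ_inv' g w⟩⟩
lemma act_mem_act : S.ρ g w ∈ S.act g o ↔ w ∈ o := by rw [mem_act, S.ρ_inv]
lemma act_one : S.act 1 o = o := by ext w; simp [mem_act]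
lemma act_mul (g h : G) : S.act (g * h) o = S.act g (S.act h o) := by
  ext w; simp only [mem_act, mul_inv_rev, S.ρ_mul]
lemma Vx.act (h : S.Vx o) (hg : g ∈ S.Γ) : S.Vx (S.act g o) := by
  have hi := S.Γ.inv_mem hg
  refine ⟨?_, fun w hw => ?_, fun u hu w hw hl => ?_, ?_⟩
  · rintro _ ⟨v, hv, rfl⟩; exact S.inv g hg v (h.sub hv)
  · rw [mem_act, mem_act, map_neg]; exact h.tot _ (S.inv _ hi w hw)
  · rw [mem_act] at hu ⊢
    exact h.up _ hu _ (S.inv _ hi w hw) ((S.le_ρ _ _ _).2 hl)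
  · obtain ⟨R, hR⟩ := h.bd_at (S.sheet g⁻¹ _ oo_mem)
    refine ⟨R, ?_⟩
    rintro _ ⟨v, hv, rfl⟩
    have := hR v hv
    rw [S.lor_ρ, inv_inv, lor_oo] at this
    linarith
lemma mn_act : Mn (S.act g o) (S.ρ g u) ↔ Mn o u := by
  constructor
  · rintro ⟨h1, h2⟩
    exact ⟨act_mem_act.1 h1, fun w hw hl =>
      (S.ρ g).injective (h2 _ (act_mem_act.2 hw) ((S.le_ρ _ _ _).2 hl))⟩
  · rintro ⟨h1, h2⟩
    refine ⟨act_mem_act.2 h1, ?_⟩
    rintro _ ⟨w, hw, rfl⟩ hl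
    rw [h2 w hw ((S.le_ρ _ _ _).1 hl)]
lemma fl_act : fl (S.act g o) (S.ρ g u) = S.act g (fl o u) := by
  ext w
  obtain ⟨w, rfl⟩ := (S.ρ g).surjective w
  rw [act_mem_act, mem_fl, mem_fl, act_mem_act, ← map_neg, (S.ρ g).injective.eq_iff,
    (S.ρ g).injective.ne_iff]
lemma Fl.act (h : S.Fl η o) (hg : g ∈ S.Γ) : S.Fl (S.ρ g η) (S.act g o) :=
  ⟨h.1.act hg, fun w hw hp => mem_act.2 (h.2 _ (S.inv _ (S.Γ.inv_mem hg) w hw)
    (by rwa [S.lor_ρ, inv_inv]))⟩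
lemma Fl.nonneg (h : S.Fl η o) (hw : w ∈ o) : 0 ≤ lor w η := by
  by_contra hc
  exact h.1.neg_not hw (h.2 _ (S.neg w (h.1.sub hw)) (by rw [lor_neg_left]; linarith))
lemma Fl.fl (h : S.Fl η o) (hu : Mn o u) (h0 : lor u η = 0) : S.Fl η (fl o u) :=
  ⟨h.1.fl hu, fun w hw hp => mem_fl.2 (Or.inr ⟨h.2 w hw hp, fun e => by
    rw [e, h0] at hp; exact lt_irrefl _ hp⟩)⟩
lemma Fl.uniq {η' : Mink d} (hη : η ∈ S.C) (hη' : η' ∈ S.C) (h : S.Fl η o) (h' : S.Fl η' o) :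
    η = η' := by
  by_contra hc
  obtain ⟨w, hw, a, b⟩ := S.cc hη hη' hc
  linarith [h'.nonneg (h.2 w hw a)]
lemma U.neg (h : S.U t w) : S.U t (-w) := by
  rcases h with h | ⟨η, a, b, c⟩
  · exact Or.inl (by rwa [lor_neg_left, abs_neg])
  · exact Or.inr ⟨η, a, by rw [lor_neg_left, b, neg_zero], c⟩
lemma U.act (h : S.U t w) (g : G) : S.U (S.ρ g t) (S.ρ g w) := by
  rcases h with h | ⟨η, a, b, c⟩
  · exact Or.inl (by rwa [S.isom])
  · exact Or.inr ⟨_, S.invC g η a, by rwa [S.isom], by rwa [S.isom]⟩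
lemma U.abs_le (ht : t ∈ S.W) (hw : w ∈ S.W) (h : S.U t w) : |lor w t| ≤ 1 := by
  rcases h with h | ⟨η, a, b, c⟩
  · exact h.le
  · have := cs_null (S.light η a) b c
    rw [S.unit w hw, S.unit t ht, one_mul] at this
    exact (sq_le_one_iff_abs_le_one _).1 this
lemma Z.act (h : S.Z t o) (hg : g ∈ S.Γ) (ht : S.ρ g t = t) : S.Z t (S.act g o) := by
  refine ⟨h.1.act hg, ?_⟩
  rintro _ ⟨w, hw, rfl⟩
  rcases h.2 w hw with a | a
  · exact Or.inl (ht ▸ a.act g)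
  · refine Or.inr fun x hx h0 => ?_
    have := a _ (S.sheet g⁻¹ x hx) (by rw [S.lor_ρ, inv_inv, ht, h0])
    rwa [S.lor_ρ, inv_inv] at this
lemma Z.fl (h : S.Z t o) (hu : Mn o u) (hU : S.U t u) : S.Z t (fl o u) :=
  ⟨h.1.fl hu, fun w hw => (mem_fl.1 hw).elim (fun e => Or.inl (e ▸ hU.neg)) fun hw => h.2 w hw.1⟩
lemma d_causal (ht : lor t t = 1) (hw : lor w w = 1) (h : ¬ |lor w t| < 1) :
    lor (w - lor w t • t) (w - lor w t • t) ≤ 0 := by
  simp only [lor_sub_left, lor_sub_right, lor_smul_left, lor_smul_right, ht, hw, lor_comm t w]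
  have := (one_le_sq_iff_one_le_abs _).2 (not_lt.1 h)
  nlinarith
lemma Fl.z (ht : t ∈ S.W) (hη : η ∈ S.C) (h0 : lor t η = 0) (h : S.Fl η o) : S.Z t o := by
  refine ⟨h.1, fun w hw => ?_⟩
  by_cases hU : S.U t w
  · exact Or.inl hU
  refine Or.inr fun x hx hx0 => ?_
  have a1 : 0 < lor w η := (h.nonneg hw).lt_of_ne fun e => hU (Or.inr ⟨η, hη, e.symm, h0⟩)
  have a2 : lor (w - lor w t • t) η = lor w η := by rw [lor_sub_left, lor_smul_left, h0]; ring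
  have a3 : lor x (w - lor w t • t) = lor x w := by rw [lor_sub_right, lor_smul_right, hx0]; ring
  rcases causal (d_causal (S.unit t ht) (S.unit w (h.1.sub hw)) fun c => hU (Or.inl c)) with
    e | e | e
  · rw [← a3, e, lor_zero_right]
  · linarith [lor_nonpos e (S.light η hη).fut]
  · have := lor_neg hx e
    rw [lor_neg_right] at this
    linarith
lemma Z.diff (ht : t ∈ S.W) (hη : η ∈ S.C) (h0 : lor t η = 0) (h : S.Z t o) (h' : S.Z t o')
    (hw : w ∈ o) (hw' : w ∉ o') : S.U t w := by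
  by_contra hU
  have hW := h.1.sub hw
  have a1 := (h.2 w hw).resolve_left hU
  have a2 := (h'.2 _ (h'.1.neg_mem hW hw')).resolve_left fun c => hU (neg_neg w ▸ c.neg)
  obtain ⟨x, hx, hx0⟩ := exists_on_wall (S.unit t ht)
  have a3 := a1 x hx hx0
  have a4 := a2 x hx hx0
  rw [lor_neg_right] at a4
  have a5 := q_eq_zero hx (a := w - lor w t • t) (by
    rw [lor_sub_left, lor_smul_left, lor_comm t, hx0, lor_comm w x]; linarith)
    (d_causal (S.unit t ht) (S.unit w hW) fun c => hU (Or.inl c))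
  exact hU (Or.inr ⟨η, hη, by rw [sub_eq_zero.1 a5, lor_smul_left, h0, mul_zero], h0⟩)
lemma Ex.act (h : S.Ex t η o) (hg : g ∈ S.Γ) (ht : S.ρ g t = t) :
    S.Ex t (S.ρ g η) (S.act g o) := by
  obtain ⟨h1, u, a, b, c⟩ := h
  exact ⟨h1.act hg, S.ρ g u, mn_act.2 a, ht ▸ b.act g, by rwa [S.isom]⟩
lemma Lt.refl (u : Mink d) : S.Lt u u := ⟨1, S.Γ.one_mem, Or.inl (by simp)⟩
lemma Lt.symm (h : S.Lt u w) : S.Lt w u := by
  obtain ⟨g, hg, rfl | rfl⟩ := h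
  · exact ⟨g⁻¹, S.Γ.inv_mem hg, Or.inl (S.ρ_inv g u).symm⟩
  · exact ⟨g⁻¹, S.Γ.inv_mem hg, Or.inr (by rw [map_neg, S.ρ_inv, neg_neg])⟩
lemma Lt.trans (h : S.Lt u w) (h' : S.Lt w t) : S.Lt u t := by
  obtain ⟨g, hg, e⟩ := h
  obtain ⟨g', hg', e'⟩ := h'
  refine ⟨g' * g, S.Γ.mul_mem hg' hg, ?_⟩
  rw [S.ρ_mul]
  rcases e with rfl | rfl <;> rcases e' with rfl | rfl <;> simp
lemma Lt.neg (h : S.Lt u w) : S.Lt u (-w) := by
  obtain ⟨g, hg, rfl | rfl⟩ := h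
  · exact ⟨g, hg, Or.inr rfl⟩
  · exact ⟨g, hg, Or.inl (neg_neg _)⟩
lemma Lt.act (h : S.Lt u w) (hg : g ∈ S.Γ) : S.Lt u (S.ρ g w) := h.trans ⟨g, hg, Or.inl rfl⟩
lemma Lt.mem (h : S.Lt u w) (hu : u ∈ S.W) : w ∈ S.W := by
  obtain ⟨g, hg, rfl | rfl⟩ := h
  · exact S.inv g hg u hu
  · exact S.neg _ (S.inv g hg u hu)
/-- only finitely many vertices are close to the base point -/
lemma fin_near (R : ℝ) : {o | S.Vx o ∧ ∀ w ∈ o, w.1 ≤ R}.Finite := by
  refine Set.Finite.of_finite_image (f := fun o => o ∩ {w ∈ S.W | |w.1| ≤ R})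
    ((S.lf R).finite_subsets.subset ?_) ?_
  · rintro _ ⟨o, _, rfl⟩; exact Set.inter_subset_right
  · have key : ∀ o o' : Set (Mink d), (S.Vx o ∧ ∀ w ∈ o, w.1 ≤ R) → (S.Vx o' ∧ ∀ w ∈ o', w.1 ≤ R) →
        o ∩ {w ∈ S.W | |w.1| ≤ R} = o' ∩ {w ∈ S.W | |w.1| ≤ R} → o ⊆ o' := by
      intro o o' h h' e w hw
      by_contra hc
      have a1 := h'.2 _ (h'.1.neg_mem (h.1.sub hw) hc)
      have a2 : w ∈ o ∩ {w ∈ S.W | |w.1| ≤ R} :=
        ⟨hw, h.1.sub hw, abs_le.2 ⟨by simp only [Prod.fst_neg] at a1; linarith, h.2 w hw⟩⟩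
      rw [e] at a2
      exact hc a2.1
    exact fun o h o' h' e => (key o o' h h' e).antisymm (key o' o h' h e.symm)
lemma Vx.fin_diff (h : S.Vx o) (h' : S.Vx o') : (o \ o').Finite := by
  obtain ⟨R, hR⟩ := h.bd
  obtain ⟨R', hR'⟩ := h'.bd
  refine (S.lf (max R R')).subset fun w hw => ⟨h.sub hw.1, abs_le.2 ⟨?_, ?_⟩⟩
  · have := hR' _ (h'.neg_mem (h.sub hw.1) hw.2)
    simp only [Prod.fst_neg] at this
    linarith [le_max_right R R']
  · exact (hR w hw.1).trans (le_max_left _ _)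
lemma d_diff (h' : S.Vx o') (hu : u ∈ S.W) (hu' : u ∉ o') : fl o u \ o' = (o \ o') \ {u} := by
  ext w
  simp only [Set.mem_diff, mem_fl, Set.mem_singleton_iff]
  constructor
  · rintro ⟨rfl | a, b⟩
    · exact absurd (h'.neg_mem hu hu') b
    · exact ⟨⟨a.1, b⟩, a.2⟩
  · rintro ⟨⟨a, b⟩, c⟩
    exact ⟨Or.inr ⟨a, c⟩, b⟩
/-- induction along a geodesic edge path from `o` to `o'` -/
lemma path_ind (h : S.Vx o) (h' : S.Vx o') (P : Set (Mink d) → Prop) (h0 : P o)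
    (hs : ∀ o1 u, S.Vx o1 → P o1 → Mn o1 u → u ∈ o → u ∉ o' → P (fl o1 u)) : P o' := by
  have key : ∀ n : ℕ, ∀ o1, S.Vx o1 → P o1 → o1 \ o' ⊆ o → (o1 \ o').ncard = n → P o' := by
    intro n
    induction n with
    | zero =>
      intro o1 h1 p1 _ e
      rw [Set.ncard_eq_zero (h1.fin_diff h'), Set.diff_eq_empty] at e
      have : o1 = o' := e.antisymm fun w hw => by
        by_contra hc
        exact h'.neg_not hw (e (h1.neg_mem (h'.sub hw) hc))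
      exact this ▸ p1
    | succ n ih =>
      intro o1 h1 p1 s1 e
      obtain ⟨u, hu, hm⟩ := Set.exists_min_image (o1 \ o') (lor (oo d)) (h1.fin_diff h')
        (Set.nonempty_of_ncard_ne_zero (by omega))
      have a1 : Mn o1 u := ⟨hu.1, fun w hw hl => by
        by_contra hc
        exact absurd (hm w ⟨hw, fun c => hu.2 (h'.up w c u (h1.sub hu.1) hl)⟩)
          (not_le.2 (hl.lt hc oo_mem))⟩
      refine ih _ (h1.fl a1) (hs o1 u h1 p1 a1 (s1 hu) hu.2) ?_ ?_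
      · rw [d_diff h' (h1.sub hu.1) hu.2]; exact Set.diff_subset.trans s1
      · rw [d_diff h' (h1.sub hu.1) hu.2, Set.ncard_diff_singleton_of_mem hu]; omega
  exact key _ o h h0 Set.diff_subset rfl
lemma d_fl (hη : η ∈ S.C) {x : Mink d} (hx : x ∈ Hyp d) (τ : Mink d → Prop)
    (hτ : ∀ w ∈ S.W, τ w ↔ ¬ τ (-w)) : S.Fl η {w ∈ S.W | 0 < lor w η ∨
      (lor w η = 0 ∧ (0 < lor x w ∨ (lor x w = 0 ∧ τ w)))} := by
  refine ⟨⟨fun w hw => hw.1, fun w hw => ?_, fun u hu w hw hl => ⟨hw, ?_⟩, ?_⟩,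
    fun w hw hp => ⟨hw, Or.inl hp⟩⟩
  · simp only [Set.mem_setOf_eq, hw, S.neg w hw, true_and, lor_neg_left, lor_neg_right, neg_pos,
      neg_eq_zero, hτ w hw]
    rcases lt_trichotomy (lor w η) 0 with a | a | a
    · simp [a, a.ne, a.not_gt]
    · rcases lt_trichotomy (lor x w) 0 with b | b | b
      · simp [a, b, b.ne, b.not_gt]
      · simp [a, b]
      · simp [a, b, b.ne', b.not_gt]
    · simp [a, a.ne', a.not_gt]
  · by_cases e : u = w
    · exact e ▸ hu.2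
    have a1 := hl.fut (S.light η hη).fut
    have a2 := hl.lt e hx
    rcases hu.2 with a | ⟨a, b⟩
    · exact Or.inl (by linarith)
    · rcases (a ▸ a1 : 0 ≤ lor w η).eq_or_lt with c | c
      · exact Or.inr ⟨c.symm, Or.inl (by rcases b with b | b; linarith; linarith [b.1])⟩
      · exact Or.inl c
  · obtain ⟨R, hR⟩ := S.up_bd hη
    refine ⟨max R ((2 * 0 + 1) * (- lor (oo d) x)), fun w hw => ?_⟩
    rcases hw.2 with a | ⟨_, b⟩
    · exact (hR w hw.1 a).trans (le_max_left _ _)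
    · have := low oo_mem hx (S.unit w hw.1) le_rfl
        (by rcases b with b | b; linarith; linarith [b.1])
      rw [lor_oo w] at this
      exact le_trans (by linarith) (le_max_right _ _)
lemma d_tie (hw : lor w w = 1) : WellOrderingRel w (- w) ↔ ¬ WellOrderingRel (-w) (- -w) := by
  rw [neg_neg]
  exact ⟨fun h => asymm h, fun h => by
    rcases trichotomous_of WellOrderingRel w (-w) with a | a | a
    · exact a
    · exact absurd a (ne_neg hw)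
    · exact absurd a h⟩
/-- a vertex of the flat adjacent to a given wall -/
lemma exists_fl (hη : η ∈ S.C) (hu : u ∈ S.W) (h0 : lor u η = 0) : ∃ o, S.Fl η o ∧ Mn o u := by
  obtain ⟨x, hx, hx0⟩ := exists_on_wall (S.unit u hu)
  have n1 := ne_neg (S.unit u hu)
  refine ⟨_, d_fl hη hx (fun w => w = u ∨ (w ≠ -u ∧ WellOrderingRel w (-w))) fun w hw => ?_,
    ⟨hu, Or.inr ⟨h0, Or.inr ⟨hx0, Or.inl rfl⟩⟩⟩, fun w hw hl => ?_⟩
  · by_cases e1 : w = u
    · simp [e1, n1.symm]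
    by_cases e2 : w = -u
    · simp [e2, n1.symm]
    have e3 : -w ≠ u := fun e => e2 (by rw [← e, neg_neg])
    have := d_tie (S.unit w hw)
    simp only [e1, e2, e3, ne_eq, neg_inj, not_false_eq_true, true_and, false_or]
    exact this
  · by_contra hc
    have a1 := hl.fut (S.light η hη).fut
    have a2 := hl.lt hc hx
    rcases hw.2 with a | ⟨_, b | b⟩
    · linarith
    · linarith
    · linarith [b.1]
lemma exists_fl0 (hη : η ∈ S.C) : ∃ o, S.Fl η o :=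
  ⟨_, d_fl hη oo_mem (fun w => WellOrderingRel w (-w)) fun w hw => d_tie (S.unit w hw)⟩

/-- ordered product over a finite set with a height function -/
lemma d_prod {X Q : Type} [Group Q] (σ : X → Q) (ht : X → ℝ) : ∃ F : Set X → Q, F ∅ = 1 ∧
    ∀ D : Set X, D.Finite → (∀ a ∈ D, ∀ b ∈ D, ht a = ht b → Commute (σ a) (σ b)) →
      ∀ u ∈ D, (∀ w ∈ D, ht u ≤ ht w → Commute (σ u) (σ w)) → F D = F (D \ {u}) * σ u := by
  classical
  let m : ∀ D : Set X, (∃ a ∈ D, ∀ b ∈ D, ht b ≤ ht a) → X := fun _ h => h.choose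
  let Fn : ℕ → Set X → Q := fun n => Nat.rec (fun _ => 1) (fun _ r D =>
    if h : ∃ a ∈ D, ∀ b ∈ D, ht b ≤ ht a then r (D \ {m D h}) * σ (m D h) else 1) n
  have top : ∀ D : Set X, D.Finite → D.Nonempty → ∃ a ∈ D, (∀ b ∈ D, ht b ≤ ht a) ∧
      Fn D.ncard D = Fn (D \ {a}).ncard (D \ {a}) * σ a := by
    intro D hD hne
    have h : ∃ a ∈ D, ∀ b ∈ D, ht b ≤ ht a := Set.exists_max_image D ht hD hne
    refine ⟨m D h, h.choose_spec.1, h.choose_spec.2, ?_⟩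
    rw [← Set.ncard_diff_singleton_add_one h.choose_spec.1 hD]
    exact dif_pos h
  refine ⟨fun D => Fn D.ncard D, by simp [Fn], ?_⟩
  have key : ∀ n : ℕ, ∀ D : Set X, D.ncard = n → D.Finite →
      (∀ a ∈ D, ∀ b ∈ D, ht a = ht b → Commute (σ a) (σ b)) →
      ∀ u ∈ D, (∀ w ∈ D, ht u ≤ ht w → Commute (σ u) (σ w)) →
        Fn D.ncard D = Fn (D \ {u}).ncard (D \ {u}) * σ u := by
    intro n
    induction n using Nat.strong_induction_on with
    | _ n ih =>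
    intro D hn hD hc u hu hcu
    obtain ⟨a, ha, hm, e⟩ := top D hD ⟨u, hu⟩
    by_cases hau : u = a
    · rw [hau]; exact e
    have l1 : ∀ v ∈ D, (D \ {v}).ncard < n := fun v hv => by
      have := Set.ncard_diff_singleton_add_one hv hD
      omega
    have e1 := ih _ (l1 a ha) (D \ {a}) rfl hD.diff (fun p hp q hq => hc p hp.1 q hq.1) u ⟨hu, hau⟩
      fun w hw => hcu w hw.1
    have e2 := ih _ (l1 u hu) (D \ {u}) rfl hD.diff (fun p hp q hq => hc p hp.1 q hq.1) a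
      ⟨ha, Ne.symm hau⟩ fun w hw hl => hc a ha w hw.1 (hl.antisymm (hm w hw.1))
    rw [e, e1, e2, Set.diff_diff_comm, mul_assoc, mul_assoc, (hcu a ha (hm u hu)).eq]
  exact fun D => key _ D rfl

/-- potential of a labelling of the walls -/
lemma exists_pot {Q : Type} [Group Q] (σ : Mink d → Q) (h1 : ∀ u ∈ S.W, σ (-u) = (σ u)⁻¹)
    (h2 : ∀ u ∈ S.W, ∀ w ∈ S.W, |lor u w| < 1 → Commute (σ u) (σ w)) {o0 : Set (Mink d)}
    (h0 : S.Vx o0) : ∃ f : Set (Mink d) → Q, f o0 = 1 ∧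
      ∀ o u, S.Vx o → Mn o u → f (fl o u) = f o * σ u := by
  obtain ⟨F, F0, hF⟩ := d_prod σ (lor (oo d))
  have com : ∀ o, S.Vx o → ∀ a ∈ o0 \ o, ∀ b ∈ o0 \ o, ¬ Le a b ∨ a = b → ¬ Le b a ∨ a = b →
      Commute (σ a) (σ b) := by
    intro o h a ha b hb c1 c2
    by_cases e : a = b
    · rw [e]
    have hA := h0.sub ha.1
    have hB := h0.sub hb.1
    exact h2 a hA b hB ((cross_iff (S.unit a hA) (S.unit b hB)).2 ⟨c1.resolve_right e,
      c2.resolve_right e, h0.not_le ha.1 hb.1, fun c => ha.2 (h.up _ (h.neg_mem hB hb.2) a hA c)⟩)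
  have case : ∀ o u, S.Vx o → Mn o u → u ∈ o0 → F (o0 \ fl o u) = F (o0 \ o) * σ u := by
    intro o u h hu hu0
    have hm := h.mn_fl hu
    have a1 : u ∈ o0 \ fl o u := ⟨hu0, fun c => (h.fl hu).neg_not c hm.1⟩
    have a2 : (o0 \ fl o u) \ {u} = o0 \ o := by
      ext w
      simp only [Set.mem_diff, mem_fl, Set.mem_singleton_iff]
      constructor
      · rintro ⟨⟨a, b⟩, c⟩
        exact ⟨a, fun e => b (Or.inr ⟨e, c⟩)⟩
      · rintro ⟨a, b⟩
        exact ⟨⟨a, fun c => c.elim (fun e => h0.neg_not hu0 (e ▸ a)) fun e => b e.1⟩,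
          fun e => b (e ▸ hu.1)⟩
    rw [hF _ (h0.fin_diff (h.fl hu)) (fun a ha b hb e => com _ (h.fl hu) a ha b hb ?_ ?_) u a1
      fun w hw hl => com _ (h.fl hu) u a1 w hw ?_ ?_, a2]
    · by_cases c : a = b
      · exact Or.inr c
      · exact Or.inl fun l => (l.lt c oo_mem).ne e
    · by_cases c : a = b
      · exact Or.inr c
      · exact Or.inl fun l => (l.lt (Ne.symm c) oo_mem).ne' e
    · by_cases c : u = w
      · exact Or.inr c
      · exact Or.inl fun l => hw.2 (mem_fl.2 (Or.inr ⟨h.up u hu.1 w (h0.sub hw.1) l, Ne.symm c⟩))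
    · by_cases c : u = w
      · exact Or.inr c
      · exact Or.inl fun l => absurd hl (not_le.2 (l.lt (Ne.symm c) oo_mem))
  refine ⟨fun o => F (o0 \ o), by simp [F0], fun o u h hu => ?_⟩
  by_cases hu0 : u ∈ o0
  · exact case o u h hu hu0
  · have := case _ _ (h.fl hu) (h.mn_fl hu) (h0.neg_mem (h.sub hu.1) hu0)
    rw [h.fl_fl hu.1, h1 u (h.sub hu.1)] at this
    simp only [this, inv_mul_cancel_right]
lemma pot_act {Q : Type} [Group Q] {σ : Mink d → Q} {f : Set (Mink d) → Q} {o0 : Set (Mink d)}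
    (h0 : S.Vx o0) (f0 : f o0 = 1) (hf : ∀ o u, S.Vx o → Mn o u → f (fl o u) = f o * σ u)
    (hg : g ∈ S.Γ) (hσ : ∀ u ∈ S.W, σ (S.ρ g u) = σ u) (h : S.Vx o) :
    f (S.act g o) = f (S.act g o0) * f o := by
  refine path_ind h0 h (fun o1 => f (S.act g o1) = f (S.act g o0) * f o1) (by rw [f0, mul_one])
    fun o1 u h1 p1 hu _ _ => ?_
  rw [← fl_act, hf _ _ (h1.act hg) (mn_act.2 hu), p1, hf _ _ h1 hu, hσ u (h1.sub hu.1), mul_assoc]

end Pool.Agent.Lib.MP_661727_gt.Ar.Sys
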