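import Pool.Agent.Lib.MP_661727_gt.Old

/-! Wall systems for arithmetic cusped lattices: definitions. -/

namespace Pool.Agent.Lib.MP_661727_gt

/-- A finite index subgroup preserves a lattice on which the form is integral. -/
def Cusped.Arith {d : ℕ} (L : Cusped d) : Prop :=
  ∃ (H : Subgroup L.G) (Λ : AddSubgroup (ℝ × (Fin d → ℝ))), H.FiniteIndex ∧
    Submodule.span ℝ (Λ : Set (ℝ × (Fin d → ℝ))) = ⊤ ∧
    (∀ x ∈ Λ, ∀ y ∈ Λ, ∃ n : ℤ, lor x y = n) ∧ ∀ g ∈ H, ∀ x ∈ Λ, L.ρ g x ∈ Λ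

namespace Ar

variable {d : ℕ}

/-- `x` has depth at most `log (1/ε)` in all horoballs -/
def Thick (C : Set (Mink d)) (ε : ℝ) (x : Mink d) : Prop := ∀ η ∈ C, ε ≤ - lor x η

/-- future light-like vectors -/
def Nul (η : Mink d) : Prop := lor η η = 0 ∧ 0 < η.1

/-- inclusion of half spaces -/
def Le (u w : Mink d) : Prop := ∀ x ∈ Hyp d, lor x u ≤ lor x w

/-- A group of isometries, a subgroup of finite index, oriented walls `W`, cusp vectors `C`. -/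
structure Sys (d : ℕ) (G : Type) [Group G] where
  ρ : G →* (Mink d ≃ₗ[ℝ] Mink d)
  Γ : Subgroup G
  fi : Γ.FiniteIndex
  isom : ∀ g x y, lor (ρ g x) (ρ g y) = lor x y
  sheet : ∀ g, ∀ x ∈ Hyp d, ρ g x ∈ Hyp d
  W : Set (Mink d)
  unit : ∀ w ∈ W, lor w w = 1
  neg : ∀ w ∈ W, -w ∈ W
  inv : ∀ g ∈ Γ, ∀ w ∈ W, ρ g w ∈ W
  C : Set (Mink d)
  light : ∀ η ∈ C, Nul η
  invC : ∀ g, ∀ η ∈ C, ρ g η ∈ C
  lf : ∀ R : ℝ, {w ∈ W | |w.1| ≤ R}.Finite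
  lfC : ∀ R : ℝ, {η ∈ C | η.1 ≤ R}.Finite
  mu : ∃ μ : ℝ, 0 < μ ∧ ∀ η ∈ C, ∀ w ∈ W, lor w η = 0 ∨ μ ≤ |lor w η|
  per : ∃ κ : ℝ, ∀ η ∈ C, ∀ w ∈ W, lor w η = 0 →
    ∃ s : ℝ, 0 < s ∧ s ≤ κ ∧ ∀ n : ℤ, w + (n * s) • η ∈ W
  transl : ∀ g, ∀ η ∈ C, ρ g η = η → ∀ v, lor v η = 0 → ∃ s : ℝ, ρ g v = v + s • η
  move : ∀ η ∈ C, ∀ w ∈ W, lor w η = 0 → ∃ g ∈ Γ, ρ g η = η ∧ ρ g w ≠ w
  horo : ∀ η ∈ C, ∀ x ∈ Hyp d, lor x η = -1 → Thick C 1 x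
  cpt1 : ∃ R : ℝ, ∀ x ∈ Hyp d, Thick C 1 x → ∃ g ∈ Γ, (ρ g x).1 ≤ R
  dens : ∃ θ : ℝ, 0 < θ ∧ ∀ x ∈ Hyp d, Thick C 1 x → ∀ v, lor v x = 0 → lor v v = 1 →
    ∃ w ∈ W, θ ≤ lor (x + v) w ∧ lor (x - v) w ≤ -θ
  vert : ∃ θ : ℝ, 0 < θ ∧ ∀ η ∈ C, ∀ e, lor e η = 0 → lor e e = 1 →
    ∃ w ∈ W, lor w η = 0 ∧ θ ≤ lor w e
  cong : ∀ B : ℝ, ∃ G0 : Subgroup G, G0 ≤ Γ ∧ G0.FiniteIndex ∧ ∀ g ∈ G0,
    (∀ u ∈ W, ∀ u' ∈ W, |lor u u'| ≤ B → |lor (ρ g u) u'| ≤ B → lor (ρ g u) u' = lor u u') ∧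
    ∀ u ∈ W, lor (ρ g u) u = 1 → (1 / 2 : ℝ) • (ρ g u + u) ∈ W

/-- `u` is minimal in `o` -/
def Mn (o : Set (Mink d)) (u : Mink d) : Prop := u ∈ o ∧ ∀ w ∈ o, Le w u → w = u

/-- crossing the wall `u` -/
def fl (o : Set (Mink d)) (u : Mink d) : Set (Mink d) := insert (-u) (o \ {u})

/-- position of `o` in the family of walls parallel to `w` at the cusp `η` -/
noncomputable def lev (o : Set (Mink d)) (η w : Mink d) : ℝ := sSup {s : ℝ | w + s • η ∈ o}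

namespace Sys

variable {G : Type} [Group G] (S : Sys d G)

/-- vertices: consistent orientations -/
structure Vx (o : Set (Mink d)) : Prop where
  sub : o ⊆ S.W
  tot : ∀ w ∈ S.W, w ∈ o ↔ -w ∉ o
  up : ∀ u ∈ o, ∀ w ∈ S.W, Le u w → w ∈ o
  bd : ∃ R : ℝ, ∀ w ∈ o, w.1 ≤ R

def act (g : G) (o : Set (Mink d)) : Set (Mink d) := S.ρ g '' o

/-- the flat of the cusp `η` -/
def Fl (η : Mink d) (o : Set (Mink d)) : Prop := S.Vx o ∧ ∀ w ∈ S.W, 0 < lor w η → w ∈ o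

/-- walls that cross `t` or share a cusp with it -/
def U (t w : Mink d) : Prop := |lor w t| < 1 ∨ ∃ η ∈ S.C, lor w η = 0 ∧ lor t η = 0

/-- vertices in the hull of the wall `t` -/
def Z (t : Mink d) (o : Set (Mink d)) : Prop :=
  S.Vx o ∧ ∀ w ∈ o, S.U t w ∨ ∀ x ∈ Hyp d, lor x t = 0 → 0 ≤ lor x w

/-- vertices of the flat that are adjacent to a wall of the hull leaving the flat -/
def Ex (t η : Mink d) (o : Set (Mink d)) : Prop :=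
  S.Fl η o ∧ ∃ u, Mn o u ∧ S.U t u ∧ lor u η ≠ 0

/-- `u'` has the letter of `u` -/
def Lt (u u' : Mink d) : Prop := ∃ g ∈ S.Γ, u' = S.ρ g u ∨ u' = - S.ρ g u

/-- the action is special -/
structure Spec : Prop where
  same : ∀ o u u', S.Vx o → Mn o u → Mn o u' → S.Lt u u' → u' = u
  cross : ∀ o u u', S.Vx o → Mn o u → Mn o u' → ∀ g ∈ S.Γ, |lor (S.ρ g u) u'| < 1 → |lor u u'| < 1
  self : ∀ u ∈ S.W, ∀ g ∈ S.Γ, ¬ |lor (S.ρ g u) u| < 1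

/-- the shifts of `w` by the stabiliser of `η` -/
def N (η w : Mink d) : AddSubgroup ℝ where
  carrier := {a | ∃ g ∈ S.Γ, S.ρ g η = η ∧ S.ρ g w = w + a • η}
  zero_mem' := ⟨1, S.Γ.one_mem, by simp, by simp⟩
  add_mem' := by
    rintro a b ⟨g, hg, h1, h2⟩ ⟨g', hg', h3, h4⟩
    refine ⟨g * g', S.Γ.mul_mem hg hg', by simp [h1, h3], ?_⟩
    simp only [map_mul, LinearEquiv.mul_apply, h4, map_add, map_smul, h1, h2, add_smul, add_assoc]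
  neg_mem' := by
    rintro a ⟨g, hg, h1, h2⟩
    have h3 : ∀ v, S.ρ g⁻¹ (S.ρ g v) = v := fun v => by
      rw [← LinearEquiv.mul_apply, ← map_mul, inv_mul_cancel, map_one]; rfl
    have h4 : S.ρ g⁻¹ η = η := by conv_lhs => rw [← h1, h3]
    refine ⟨g⁻¹, S.Γ.inv_mem hg, h4, ?_⟩
    have h5 := h3 w
    rw [h2, map_add, map_smul, h4] at h5
    rw [neg_smul, ← sub_eq_add_neg, eq_sub_iff_add_eq, h5]

/-- `o'` is obtained from `o` by `M`-fold shifts in the directions of the flat -/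
def R (M : ℕ) (η : Mink d) (o o' : Set (Mink d)) : Prop :=
  S.Fl η o ∧ S.Fl η o' ∧
    ∀ w ∈ S.W, lor w η = 0 → ∃ a ∈ S.N η w, lev o' η w = lev o η w + M * a

/-- the equivalence relation on the hull of `t` -/
def Eqv (M : ℕ) (t : Mink d) (o o' : Set (Mink d)) : Prop :=
  ∃ h ∈ S.Γ, S.ρ h t = t ∧
    (S.act h o = o' ∨ ∃ η ∈ S.C, lor t η = 0 ∧ S.R M η (S.act h o) o')

/-- the modulus `M` keeps the exits of the flats apart -/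
def Sep (M : ℕ) (t : Mink d) : Prop := ∀ η ∈ S.C, lor t η = 0 → ∀ o o', S.Ex t η o → S.Ex t η o' →
  S.R M η o o' → ∃ h ∈ S.Γ, S.ρ h t = t ∧ S.act h o = o'

/-- the canonical completion: a finite set with an involution for each letter -/
structure Cmp (M : ℕ) (t : Mink d) (Y : Type) (cl : Set (Mink d) → Y)
    (σ : Mink d → Equiv.Perm Y) : Prop where
  eq : ∀ o o', S.Z t o → S.Z t o' → (cl o = cl o' ↔ S.Eqv M t o o')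
  neg : ∀ u, σ (-u) = (σ u)⁻¹
  inv : ∀ g ∈ S.Γ, ∀ u, σ (S.ρ g u) = σ u
  comm : ∀ u ∈ S.W, ∀ w ∈ S.W, |lor u w| < 1 → Commute (σ u) (σ w)
  step : ∀ o u, S.Z t o → Mn o u → S.U t u → (σ u)⁻¹ (cl o) = cl (fl o u)
  cases : ∀ u y, (σ u)⁻¹ y = y ∨ ∃ o u', S.Z t o ∧ Mn o u' ∧ S.U t u' ∧ S.Lt u u' ∧ cl o = y ∧
    (σ u)⁻¹ y = cl (fl o u')

/-- a subgroup `K` and a second wall `t + a ξ` whose orbit meets the cusps of `t` only over `ξ` -/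
structure Two (t ξ : Mink d) (K : Subgroup G) (a b : ℝ) : Prop where
  le : K ≤ S.Γ
  fi : K.FiniteIndex
  pos : 0 < a
  lt : a < b
  mem : t + a • ξ ∈ S.W
  let' : S.Lt t (t + a • ξ)
  per : ∃ p ∈ K, S.ρ p ξ = ξ ∧ S.ρ p t = t + b • ξ
  only : ∀ γ ∈ K, ∀ η ∈ S.C, lor t η = 0 → lor (S.ρ γ (t + a • ξ)) η = 0 →
    ∃ h ∈ K, S.ρ h t = t ∧ S.ρ h ξ = η ∧ ∃ k : ℤ,
      S.ρ γ (t + a • ξ) = S.ρ h (t + (a + k * b) • ξ) ∨
      S.ρ γ (t + a • ξ) = - S.ρ h (t + (a + k * b) • ξ)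

end Sys

end Ar

end Pool.Agent.Lib.MP_661727_gt
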