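import Pool.Agent.Lib.MP_661727_gt.Ar.F

/-! Dihedral quotients. -/

namespace Pool.Agent.Lib.MP_661727_gt.Ar.Sys

variable {d : ℕ} {G : Type} [Group G] {S : Sys d G} {t ξ : Mink d} {K : Subgroup G} {a b : ℝ}

/-- the walls with the letter of `v` over `K` -/
def Orb (S : Sys d G) (K : Subgroup G) (v w : Mink d) : Prop :=
  ∃ γ ∈ K, w = S.ρ γ v ∨ w = - S.ρ γ v

lemma Orb.neg {v w : Mink d} (h : S.Orb K v w) : S.Orb K v (-w) := by
  obtain ⟨g, hg, rfl | rfl⟩ := h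
  · exact ⟨g, hg, Or.inr rfl⟩
  · exact ⟨g, hg, Or.inl (neg_neg _)⟩
lemma orb_neg {v w : Mink d} : S.Orb K v (-w) ↔ S.Orb K v w :=
  ⟨fun h => neg_neg w ▸ h.neg, Orb.neg⟩
lemma Orb.act {v w : Mink d} (h : S.Orb K v w) {g : G} (hg : g ∈ K) : S.Orb K v (S.ρ g w) := by
  obtain ⟨γ, hγ, e⟩ := h
  refine ⟨g * γ, K.mul_mem hg hγ, ?_⟩
  rw [S.ρ_mul]
  rcases e with rfl | rfl <;> simp
lemma orb_act {v w : Mink d} {g : G} (hg : g ∈ K) : S.Orb K v (S.ρ g w) ↔ S.Orb K v w :=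
  ⟨fun h => S.ρ_inv g w ▸ h.act (K.inv_mem hg), fun h => h.act hg⟩
lemma Orb.lt {v w : Mink d} (hK : K ≤ S.Γ) (h : S.Orb K v w) : S.Lt v w := by
  obtain ⟨γ, hγ, e⟩ := h
  exact ⟨γ, hK hγ, e⟩
lemma Orb.zero {v w η : Mink d} (h : S.Orb K v w) (h0 : lor w η = 0) :
    ∃ γ ∈ K, lor (S.ρ γ v) η = 0 ∧ (w = S.ρ γ v ∨ w = - S.ρ γ v) := by
  obtain ⟨γ, hγ, e⟩ := h
  refine ⟨γ, hγ, ?_, e⟩
  rcases e with rfl | rfl
  · exact h0
  · rwa [lor_neg_left, neg_eq_zero] at h0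

lemma dih_wall {o o' : Set (Mink d)} (h : S.Fl ξ o) (h' : S.Fl ξ o') {u : Mink d} (hu : u ∈ o) (hu' : u ∉ o') :
    lor u ξ = 0 :=
  (h.nonneg hu).eq_or_lt.elim Eq.symm fun c => absurd (h'.2 u (h.1.sub hu) c) hu'

/-- the potential along a chain of parallel walls -/
lemma dih_chain {Q : Type} [Group Q] {σ : Mink d → Q} {f : Set (Mink d) → Q} (hξ : ξ ∈ S.C)
    (ht : t ∈ S.W) (h0 : lor t ξ = 0) (hf : ∀ o u, S.Vx o → Mn o u → f (fl o u) = f o * σ u)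
    {p : ℤ → ℝ} (hp : StrictMono p) (hW : ∀ i, t + p i • ξ ∈ S.W) {D : ℤ → Q}
    (hD : ∀ j, D (j + 1) * σ (t + p (j + 1) • ξ) = D j)
    (hD' : ∀ j, D j * σ (-(t + p (j + 1) • ξ)) = D (j + 1))
    (hσ : ∀ u, lor u ξ = 0 → (∀ i, u ≠ t + p i • ξ ∧ u ≠ -(t + p i • ξ)) → σ u = 1)
    {o o' : Set (Mink d)} (h : S.Fl ξ o) (h' : S.Fl ξ o')
    (e : ∃ j, (∀ i, t + p i • ξ ∈ o ↔ i ≤ j) ∧ f o = D j) :
    ∃ j, (∀ i, t + p i • ξ ∈ o' ↔ i ≤ j) ∧ f o' = D j := by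
  have hn := S.light ξ hξ
  have inj : ∀ i j, t + p i • ξ = t + p j • ξ ↔ i = j := fun i j =>
    ⟨fun c => hp.injective (shift_inj hn c), fun c => by rw [c]⟩
  have ne : ∀ i j, t + p i • ξ ≠ -(t + p j • ξ) := fun i j =>
    shift_ne_neg hn (S.unit t ht) h0 _ _
  refine path_ind h.1 h'.1 (fun o1 => ∃ j, (∀ i, t + p i • ξ ∈ o1 ↔ i ≤ j) ∧ f o1 = D j) e ?_
  rintro o1 u h1 ⟨j, hj, e1⟩ hu a1 a2
  rw [hf o1 u h1 hu, e1]
  by_cases c : ∀ i, u ≠ t + p i • ξ ∧ u ≠ -(t + p i • ξ)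
  · refine ⟨j, fun i => ?_, by rw [hσ u (dih_wall h h' a1 a2) c, mul_one]⟩
    rw [mem_fl, ← hj]
    exact ⟨fun x => x.elim (fun y => absurd (by rw [y, neg_neg]) (c i).2) And.left,
      fun x => Or.inr ⟨x, (c i).1.symm⟩⟩
  obtain ⟨l, c⟩ := not_forall.1 c
  rcases not_and_or.1 c with c | c <;> obtain rfl := not_not.1 c
  · have : j = l := (inj _ _).1 (hu.2 _ ((hj j).2 le_rfl)
      ((le_shift hn t _ _).2 (hp.monotone ((hj l).1 hu.1))))
    obtain ⟨m, rfl⟩ : ∃ m, l = m + 1 := ⟨l - 1, by ring⟩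
    subst this
    refine ⟨m, fun i => ?_, hD m⟩
    rw [mem_fl, hj, ne_eq, inj]
    constructor
    · rintro (x | x)
      · exact absurd x (ne _ _)
      · omega
    · intro x
      exact Or.inr (by omega)
  · have b1 : ¬ l ≤ j := fun x => h1.neg_not ((hj l).2 x) hu.1
    have b2 : j + 1 = l := (inj _ _).1 (neg_injective (hu.2 _
      (h1.neg_mem (hW (j + 1)) fun x => by have := (hj _).1 x; omega)
      ((le_shift hn t _ _).2 (hp.monotone (by omega))).neg))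
    subst b2
    refine ⟨j + 1, fun i => ?_, hD' j⟩
    rw [mem_fl, neg_neg, inj, hj]
    constructor
    · rintro (x | x)
      · omega
      · have := x.1; omega
    · intro x
      by_cases y : i = j + 1
      · exact Or.inl y
      · exact Or.inr ⟨by omega, ne _ _⟩

lemma Two.s0 (hξ : ξ ∈ S.C) (h0 : lor t ξ = 0) (c : ℝ) : lor (t + c • ξ) ξ = 0 := by
  rw [lor_add_left, lor_smul_left, h0, (S.light ξ hξ).1]; ring

lemma Two.orbA (h0 : lor t ξ = 0) (hξ : ξ ∈ S.C) (h : S.Two t ξ K a b) {w : Mink d}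
    (hw : S.Orb K (t + a • ξ) w) (hw0 : lor w ξ = 0) :
    ∃ k : ℤ, w = t + (a + k * b) • ξ ∨ w = -(t + (a + k * b) • ξ) := by
  obtain ⟨γ, hγ, z, e⟩ := hw.zero hw0
  obtain ⟨g, -, g1, g2, k, e'⟩ := h.only γ hγ ξ hξ h0 z
  refine ⟨k, ?_⟩
  rw [map_add (S.ρ g), map_smul, g1, g2] at e'
  rcases e with rfl | rfl <;> rcases e' with e' | e' <;> rw [e'] <;> simp

lemma Two.fix (ht : t ∈ S.W) (hξ : ξ ∈ S.C) (h0 : lor t ξ = 0) (h : S.Two t ξ K a b) {g : G}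
    (hg : g ∈ K) (hgξ : S.ρ g ξ = ξ) : ∃ k : ℤ, S.ρ g t = t + (k * b) • ξ := by
  have hn := S.light ξ hξ
  obtain ⟨c, hc⟩ := S.transl g ξ hξ hgξ t h0
  have e : S.ρ g (t + a • ξ) = t + (a + c) • ξ := by
    rw [map_add, map_smul, hc, hgξ, add_smul, add_assoc, add_comm (c • ξ)]
  obtain ⟨k, e' | e'⟩ := h.orbA h0 hξ ⟨g, hg, Or.inl e.symm⟩ (Two.s0 hξ h0 _)
  · exact ⟨k, by rw [hc, add_left_cancel (shift_inj hn e')]⟩
  · exact absurd e' (shift_ne_neg hn (S.unit t ht) h0 _ _)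

lemma Two.both (h : S.Two t ξ K a b) {η : Mink d} (hη : η ∈ S.C) {γ γ' : G} (hγ : γ ∈ K)
    (hγ' : γ' ∈ K) (z : lor (S.ρ γ t) η = 0) (z' : lor (S.ρ γ' (t + a • ξ)) η = 0) :
    ∃ g ∈ K, S.ρ g t = S.ρ γ t ∧ S.ρ g ξ = η := by
  obtain ⟨g, hg, g1, g2, -⟩ := h.only (γ⁻¹ * γ') (K.mul_mem (K.inv_mem hγ) hγ') _
    (S.invC γ⁻¹ η hη) (by rwa [S.lor_ρ] at z) (by rwa [S.ρ_mul, S.isom])
  exact ⟨γ * g, K.mul_mem hγ hg, by rw [S.ρ_mul, g1], by rw [S.ρ_mul, g2, S.ρ_inv']⟩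

lemma Two.orbB (ht : t ∈ S.W) (h0 : lor t ξ = 0) (hξ : ξ ∈ S.C) (h : S.Two t ξ K a b)
    {w : Mink d} (hw : S.Orb K t w) (hw0 : lor w ξ = 0) :
    ∃ k : ℤ, w = t + (k * b) • ξ ∨ w = -(t + (k * b) • ξ) := by
  obtain ⟨γ, hγ, z, e⟩ := hw.zero hw0
  obtain ⟨g, hg, g1, g2⟩ := h.both hξ hγ K.one_mem z (by simpa using Two.s0 hξ h0 a)
  obtain ⟨k, hk⟩ := h.fix ht hξ h0 hg g2
  exact ⟨k, by rwa [← hk, g1]⟩

lemma Two.disj (ht : t ∈ S.W) (h0 : lor t ξ = 0) (hξ : ξ ∈ S.C) (h : S.Two t ξ K a b)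
    {w : Mink d} (hw : S.Orb K t w) : ¬ S.Orb K (t + a • ξ) w := by
  intro hA
  have hn := S.light ξ hξ
  have h1 : S.Orb K (t + a • ξ) t := by
    obtain ⟨γ, hγ, rfl | rfl⟩ := hw
    · exact (orb_act hγ).1 hA
    · exact (orb_act hγ).1 (orb_neg.1 hA)
  have h2 : t = t + (0 : ℝ) • ξ := by simp
  obtain ⟨k, e | e⟩ := h.orbA h0 hξ h1 h0
  · have e1 := shift_inj hn (h2.symm.trans e)
    have hb := h.pos.trans h.lt
    rcases le_or_gt 0 k with c | c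
    · have : (0 : ℝ) ≤ k := by exact_mod_cast c
      nlinarith [h.pos]
    · have : (k : ℝ) ≤ -1 := by exact_mod_cast (by omega : k ≤ -1)
      nlinarith [h.lt]
  · exact shift_ne_neg hn (S.unit t ht) h0 _ _ (h2.symm.trans e)

open DihedralGroup in
theorem dihedral (hS : S.Spec) (ht : t ∈ S.W) (hξ : ξ ∈ S.C) (h0 : lor t ξ = 0)
    (h : S.Two t ξ K a b) {n : ℕ} (hn : 0 < n) : ∃ H : Subgroup G, H.FiniteIndex ∧ H ≤ K ∧
      (∀ γ ∈ K, ∀ g ∈ H, γ * g * γ⁻¹ ∈ H) ∧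
      (∀ η ∈ S.C, (∃ γ ∈ K, η = S.ρ γ ξ) ∨ ∀ g ∈ K, S.ρ g η = η → g ^ 2 ∈ H) ∧
      ∀ g ∈ K, S.ρ g ξ = ξ → ∃ k : ℤ, S.ρ g t = t + (k * b) • ξ ∧ (g ∈ H ↔ (n : ℤ) ∣ k) := by
  classical
  have : NeZero n := ⟨hn.ne'⟩
  have := h.fi
  have hN := S.light ξ hξ
  let σ : Mink d → DihedralGroup n := fun w =>
    if S.Orb K (t + a • ξ) w then sr 0 else if S.Orb K t w then sr 1 else 1
  have σA : ∀ w, S.Orb K (t + a • ξ) w → σ w = sr 0 := fun w c => if_pos c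
  have σB : ∀ w, S.Orb K t w → σ w = sr 1 := fun w c => by
    simp only [σ, if_neg (h.disj ht h0 hξ c), if_pos c]
  have σ1 : ∀ w, ¬ S.Orb K (t + a • ξ) w → ¬ S.Orb K t w → σ w = 1 := fun w c c' => by
    simp only [σ, if_neg c, if_neg c']
  have σL : ∀ w, σ w = 1 ∨ S.Lt t w := fun w => by
    by_cases c : S.Orb K (t + a • ξ) w
    · exact Or.inr (h.let'.trans (c.lt h.le))
    by_cases c' : S.Orb K t w
    · exact Or.inr (c'.lt h.le)
    · exact Or.inl (σ1 w c c')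
  have σn : ∀ w, σ (-w) = σ w := fun w => by simp only [σ, orb_neg]
  have σg : ∀ g ∈ K, ∀ w, σ (S.ρ g w) = σ w := fun g hg w => by simp only [σ, orb_act hg]
  have σi : ∀ w, (σ w)⁻¹ = σ w := fun w => by
    simp only [σ]
    split_ifs <;> simp
  obtain ⟨o0, F0, M0⟩ := exists_fl hξ ht h0
  obtain ⟨f, f0, hf⟩ := exists_pot σ (fun u _ => by rw [σn, σi]) (fun u hu w hw c => by
    rcases σL u with x | x
    · rw [x]; exact Commute.one_left _
    rcases σL w with y | y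
    · rw [y]; exact Commute.one_right _
    obtain ⟨g, hg, rfl | rfl⟩ := x.symm.trans y
    · exact absurd (by rwa [lor_comm] at c) (hS.self u hu g hg)
    · exact absurd (by rwa [lor_neg_right, abs_neg, lor_comm] at c) (hS.self u hu g hg)) F0.1
  have pa : ∀ g ∈ K, ∀ o, S.Vx o → f (S.act g o) = f (S.act g o0) * f o := fun g hg o ho =>
    pot_act F0.1 f0 hf (h.le hg) (fun u _ => σg g hg u) ho
  obtain ⟨φ, hφ⟩ : ∃ φ : K →* DihedralGroup n, ∀ g : K, φ g = f (S.act g o0) :=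
    ⟨{ toFun := fun g => f (S.act g o0)
       map_one' := by simp [act_one, f0]
       map_mul' := fun g g' => by
         rw [Subgroup.coe_mul, act_mul, pa _ g.2 _ (F0.1.act (h.le g'.2))] }, fun _ => rfl⟩
  have mem : ∀ g (hg : g ∈ K), g ∈ φ.ker.map K.subtype ↔ φ ⟨g, hg⟩ = 1 := fun g hg =>
    ⟨by rintro ⟨x, hx, rfl⟩; exact hx, fun c => ⟨⟨g, hg⟩, c, rfl⟩⟩
  refine ⟨φ.ker.map K.subtype, ⟨?_⟩, Subgroup.map_subtype_le _, ?_, fun η hη => ?_,
    fun g hg hgξ => ?_⟩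
  · rw [Subgroup.index_map_subtype]
    exact mul_ne_zero Subgroup.FiniteIndex.index_ne_zero Subgroup.FiniteIndex.index_ne_zero
  · rintro γ hγ _ ⟨x, hx, rfl⟩
    exact ⟨⟨γ, hγ⟩ * x * ⟨γ, hγ⟩⁻¹, φ.normal_ker.conj_mem x hx ⟨γ, hγ⟩, rfl⟩
  · refine or_iff_not_imp_left.2 fun hne g hg hgη => ?_
    obtain ⟨τ, τ2, hτ⟩ : ∃ τ : DihedralGroup n, τ * τ = 1 ∧ ∀ u, lor u η = 0 → σ u = 1 ∨ σ u = τ := by
      by_cases c : ∃ u, lor u η = 0 ∧ S.Orb K t u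
      · obtain ⟨w, w0, hw⟩ := c
        refine ⟨sr 1, sr_mul_self _, fun u u0 => ?_⟩
        by_cases c' : S.Orb K t u
        · exact Or.inr (σB u c')
        refine Or.inl (σ1 u (fun c'' => hne ?_) c')
        obtain ⟨γ, hγ, z, -⟩ := hw.zero w0
        obtain ⟨γ', hγ', z', -⟩ := c''.zero u0
        obtain ⟨x, hx, -, e⟩ := h.both hη hγ hγ' z z'
        exact ⟨x, hx, e.symm⟩
      · refine ⟨sr 0, sr_mul_self _, fun u u0 => ?_⟩
        by_cases c' : S.Orb K (t + a • ξ) u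
        · exact Or.inr (σA u c')
        · exact Or.inl (σ1 u c' fun c'' => c ⟨u, u0, c''⟩)
    obtain ⟨o, ho⟩ := exists_fl0 hη
    have ho' : S.Fl η (S.act g o) := hgη ▸ ho.act (h.le hg)
    have key := path_ind ho.1 ho'.1 (fun o1 => f o1 = f o ∨ f o1 = f o * τ) (Or.inl rfl)
      fun o1 u h1 p1 hu a1 a2 => by
        rw [hf o1 u h1 hu]
        rcases hτ u (dih_wall ho ho' a1 a2) with x | x <;> rw [x]
        · rwa [mul_one]
        · rcases p1 with y | y <;> rw [y]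
          · exact Or.inr rfl
          · exact Or.inl (by rw [mul_assoc, τ2, mul_one])
    rw [pa g hg o ho.1] at key
    rw [mem _ (K.pow_mem hg 2)]
    change φ (⟨g, hg⟩ ^ 2) = 1
    rw [map_pow, hφ]
    rcases key with y | y
    · rw [mul_eq_right.1 y, one_pow]
    · rw [eq_mul_inv_of_mul_eq y, sq]
      calc _ = f o * (τ * τ) * (f o)⁻¹ := by group
        _ = 1 := by rw [τ2, mul_one, mul_inv_cancel]
  · obtain ⟨k, hk⟩ := h.fix ht hξ h0 hg hgξ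
    refine ⟨k, hk, ?_⟩
    let p : ℤ → ℝ := fun j => if j % 2 = 0 then (j / 2 : ℤ) * b else a + (j / 2 : ℤ) * b
    let D : ℤ → DihedralGroup n := fun j =>
      if j % 2 = 0 then r ((j / 2 : ℤ) : ZMod n) else sr (-((j / 2 : ℤ) : ZMod n))
    have q0 : ∀ j : ℤ, 2 * j % 2 = 0 ∧ 2 * j / 2 = j := fun j => by omega
    have q1 : ∀ j : ℤ, ¬ (2 * j + 1) % 2 = 0 ∧ (2 * j + 1) / 2 = j := fun j => by omega
    have p0 : ∀ j, p (2 * j) = j * b := fun j => by simp only [p, if_pos (q0 j).1, (q0 j).2]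
    have p1 : ∀ j, p (2 * j + 1) = a + j * b := fun j => by
      simp only [p, if_neg (q1 j).1, (q1 j).2]
    have D0 : ∀ j, D (2 * j) = r (j : ZMod n) := fun j => by
      simp only [D, if_pos (q0 j).1, (q0 j).2]
    have D1 : ∀ j, D (2 * j + 1) = sr (-(j : ZMod n)) := fun j => by
      simp only [D, if_neg (q1 j).1, (q1 j).2]
    have par : ∀ j : ℤ, ∃ m, j = 2 * m ∨ j = 2 * m + 1 := fun j => ⟨j / 2, by omega⟩
    have q2 : ∀ j : ℤ, 2 * j + 1 + 1 = 2 * (j + 1) := fun j => by ring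
    obtain ⟨π, hπ, π1, π2⟩ := h.per
    have oB : ∀ j : ℤ, S.Orb K t (t + (j * b) • ξ) := fun j =>
      ⟨π ^ j, K.zpow_mem hπ j, Or.inl (S.ρ_zpow π1 π2 j).2.symm⟩
    have oA : ∀ j : ℤ, S.Orb K (t + a • ξ) (t + (a + j * b) • ξ) := fun j =>
      ⟨π ^ j, K.zpow_mem hπ j, Or.inl (by
        rw [map_add, map_smul, (S.ρ_zpow π1 π2 j).1, (S.ρ_zpow π1 π2 j).2, add_smul, add_assoc,
          add_comm (a • ξ)])⟩
    have hp : StrictMono p := strictMono_int_of_lt_succ fun j => by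
      obtain ⟨m, rfl | rfl⟩ := par j
      · rw [p0, p1]; linarith [h.pos]
      · rw [q2, p0, p1]; push_cast; linarith [h.lt]
    have hW : ∀ i, t + p i • ξ ∈ S.W := fun i => by
      obtain ⟨m, rfl | rfl⟩ := par i
      · rw [p0]; exact ((oB m).lt h.le).mem ht
      · rw [p1]; exact ((oA m).lt h.le).mem h.mem
    have hD' : ∀ j, D j * σ (t + p (j + 1) • ξ) = D (j + 1) := fun j => by
      obtain ⟨m, rfl | rfl⟩ := par j
      · rw [p1, σA _ (oA m), D0, D1]; simp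
      · rw [q2, p0, σB _ (oB _), D0, D1]; simp [add_comm]
    have b0 : ∀ i, t + p i • ξ ∈ o0 ↔ i ≤ 0 := fun i => by
      have e0 : t = t + p 0 • ξ := by simpa using (congrArg (fun c : ℝ => t + c • ξ) (p0 0)).symm
      constructor
      · intro x
        by_contra y
        have := M0.2 _ x (by
          have := (le_shift hN t (p i) (p 0)).2 (hp.monotone (by omega))
          rwa [← e0] at this)
        have := hp.injective (shift_inj hN (this.trans e0))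
        omega
      · intro x
        refine F0.1.up t M0.1 _ (hW i) ?_
        have := (le_shift hN t (p 0) (p i)).2 (hp.monotone x)
        rwa [← e0] at this
    obtain ⟨j, hj, e⟩ := dih_chain (D := D) hξ ht h0 hf hp hW
      (fun j => by rw [← hD' j, eq_comm, ← mul_inv_eq_iff_eq_mul, σi])
      (fun j => by rw [σn, hD']) (fun u u0 c => σ1 u (fun x => by
        obtain ⟨m, y | y⟩ := h.orbA h0 hξ x u0
        · exact (c (2 * m + 1)).1 (by rwa [p1])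
        · exact (c (2 * m + 1)).2 (by rwa [p1])) fun x => by
        obtain ⟨m, y | y⟩ := h.orbB ht h0 hξ x u0
        · exact (c (2 * m)).1 (by rwa [p0])
        · exact (c (2 * m)).2 (by rwa [p0])) F0 (hgξ ▸ F0.act (h.le hg) : S.Fl ξ (S.act g o0))
      ⟨0, b0, by simpa [f0] using (D0 0).symm⟩
    have c0 : ∀ c : ℝ, S.ρ g (t + c • ξ) = t + (c + k * b) • ξ := fun c => by
      rw [map_add, map_smul, hk, hgξ, add_smul, add_assoc, add_comm (c • ξ)]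
    have c1 : 2 * k ≤ j := (hj _).1 (by
      rw [p0, ← hk]; exact act_mem_act.2 M0.1)
    have c2 : ¬ 2 * k + 1 ≤ j := fun x => by
      have := (hj _).2 x
      rw [p1, ← c0, act_mem_act] at this
      have y := (b0 (2 * 0 + 1)).1 (by rw [p1]; simpa using this)
      omega
    obtain rfl : j = 2 * k := by omega
    rw [mem g hg, hφ, e, D0, one_def, r.injEq, ZMod.intCast_zmod_eq_zero_iff_dvd]

end Pool.Agent.Lib.MP_661727_gt.Ar.Sys
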