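import Pool.Agent.Lib.MP_661727_gt.Ar.C

/-! Far points are separated by walls. -/

namespace Pool.Agent.Lib.MP_661727_gt.Ar.Sys

variable {d : ℕ} {G : Type} [Group G] (S : Sys d G)

/-- the geodesic with two given light-like ends -/
noncomputable def pGam (p q : Mink d) (s : ℝ) : Mink d := (s / 2) • p + (s⁻¹ / 2) • q

lemma p_lor (p q w : Mink d) (s : ℝ) : lor (pGam p q s) w = (s * lor p w + s⁻¹ * lor q w) / 2 := by
  simp only [pGam, lor_add_left, lor_smul_left]; ring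

lemma p_mem {p q : Mink d} (hp : Nul p) (hq : Nul q) (h : lor p q = -2) {s : ℝ} (hs : 0 < s) :
    pGam p q s ∈ Hyp d := by
  constructor
  · rw [p_lor, lor_comm p, lor_comm q, p_lor, p_lor, hp.1, hq.1, lor_comm q p, h]
    field_simp; ring
  · have h1 := hp.2
    have h2 := hq.2
    simp only [pGam, Prod.fst_add, Prod.smul_fst, smul_eq_mul]
    positivity

lemma p_real1 {a b : ℝ} (h1 : b ≤ -5) (h2 : -(a * b) ≤ 1) : a + b < -4 := by
  by_contra h
  have : 1 ≤ a := by linarith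
  nlinarith

/-- a thick point in the middle of the segment -/
lemma p_thick : ∃ L : ℝ, 1 ≤ L ∧ ∀ p q : Mink d, Nul p → Nul q → lor p q = -2 → ∀ s l : ℝ, L ≤ s →
    s * L ≤ l → Thick S.C 1 (pGam p q s) →
    ∃ w ∈ S.W, 2 < lor (pGam p q 1) w ∧ lor (pGam p q l) w < -2 := by
  obtain ⟨θ, hθ, H⟩ := S.dens
  have h5 : 0 < 5 / θ := by positivity
  have hL : 5 ≤ θ * (5 / θ + 1) := by
    rw [mul_add, mul_div_cancel₀ _ hθ.ne']; linarith
  refine ⟨5 / θ + 1, by linarith, fun p q hp hq h s l h1 h2 ht => ?_⟩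
  set L := 5 / θ + 1 with hLd
  have hs : 0 < s := by linarith
  have hL0 : 0 < L := by linarith
  have hl : 0 < l := lt_of_lt_of_le (mul_pos hs hL0) h2
  have hx := p_mem hp hq h hs
  have t1 : ∀ w, lor ((s / 2) • p - (s⁻¹ / 2) • q) w = (s * lor p w - s⁻¹ * lor q w) / 2 := fun w => by
    simp only [lor_sub_left, lor_smul_left]; ring
  have t2 : lor ((s / 2) • p - (s⁻¹ / 2) • q) (pGam p q s) = 0 := by
    rw [t1, lor_comm p, lor_comm q, p_lor, p_lor, hp.1, hq.1, lor_comm q p, h]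
    field_simp; ring
  have t3 : lor ((s / 2) • p - (s⁻¹ / 2) • q) ((s / 2) • p - (s⁻¹ / 2) • q) = 1 := by
    rw [t1, lor_comm p, lor_comm q, t1, t1, hp.1, hq.1, lor_comm q p, h]
    field_simp; ring
  obtain ⟨w, hw, w1, w2⟩ := H _ hx ht _ t2 t3
  rw [lor_add_left, p_lor, t1] at w1
  rw [lor_sub_left, p_lor, t1] at w2
  have hc := cs_at hx w ((s / 2) • p - (s⁻¹ / 2) • q)
  rw [t2, t3, S.unit w hw, lor_comm w, lor_comm w, t1, p_lor] at hc
  set a := lor p w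
  set b := lor q w
  have e1 : θ ≤ s * a := by linarith
  have e2 : s⁻¹ * b ≤ -θ := by linarith
  have e3 : -(a * b) ≤ 1 := by
    have : (s * a) * (s⁻¹ * b) = a * b := by field_simp
    nlinarith
  have e4 : b ≤ -5 := by
    have h3 : s * (s⁻¹ * b) ≤ s * (-θ) := mul_le_mul_of_nonneg_left e2 hs.le
    have h4 : s * (s⁻¹ * b) = b := by field_simp
    have h6 : θ * L ≤ θ * s := mul_le_mul_of_nonneg_left h1 hθ.le
    linarith
  have ha : 0 < a := by
    by_contra hn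
    have := mul_nonpos_of_nonneg_of_nonpos hs.le (not_lt.1 hn)
    linarith
  have e5 : -(l * a) ≤ -5 := by
    have h3 : s * L * a ≤ l * a := mul_le_mul_of_nonneg_right h2 ha.le
    have h4 : θ * L ≤ s * a * L := mul_le_mul_of_nonneg_right e1 hL0.le
    linarith
  have e6 : -((-(l⁻¹ * b)) * (-(l * a))) ≤ 1 := by
    have : (-(l⁻¹ * b)) * (-(l * a)) = a * b := by field_simp
    rw [this]; exact e3
  have f1 := p_real1 e4 e3
  have f2 := p_real1 e5 e6
  refine ⟨-w, S.neg w hw, ?_, ?_⟩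
  · rw [lor_neg_right, p_lor, inv_one, one_mul, one_mul]; linarith
  · rw [lor_neg_right, p_lor]; linarith

lemma p_real2 {ε L a b c : ℝ} (hε : 0 < ε) (a1 : ε ≤ a) (a2 : a ≤ L) (b1 : ε ≤ b) (b2 : b ≤ L)
    (hc : 0 ≤ c) : 2 * c / L ^ 2 - 2 / ε ^ 2 ≤ 2 * c * (a⁻¹ * b⁻¹) - a⁻¹ ^ 2 - b⁻¹ ^ 2 := by
  have ha : 0 < a := by linarith
  have hb : 0 < b := by linarith
  have hL : 0 < L := by linarith
  have h1 : a⁻¹ ≤ ε⁻¹ := inv_anti₀ hε a1
  have h2 : b⁻¹ ≤ ε⁻¹ := inv_anti₀ hε b1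
  have h3 : L⁻¹ ≤ a⁻¹ := inv_anti₀ ha a2
  have h4 : L⁻¹ ≤ b⁻¹ := inv_anti₀ hb b2
  have h5 : a⁻¹ ^ 2 ≤ ε⁻¹ ^ 2 := by gcongr
  have h6 : b⁻¹ ^ 2 ≤ ε⁻¹ ^ 2 := by gcongr
  have h7 : L⁻¹ * L⁻¹ ≤ a⁻¹ * b⁻¹ := by gcongr
  have h8 : 2 * c * (L⁻¹ * L⁻¹) ≤ 2 * c * (a⁻¹ * b⁻¹) := by gcongr
  have h9 : 2 * c / L ^ 2 = 2 * c * (L⁻¹ * L⁻¹) := by field_simp
  have h10 : 2 / ε ^ 2 = 2 * ε⁻¹ ^ 2 := by field_simp
  linarith

/-- two far points at bounded height over a horosphere -/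
lemma p_flat {ε : ℝ} (hε : 0 < ε) (L : ℝ) : ∃ D : ℝ, ∀ x ∈ Hyp d, ∀ y ∈ Hyp d, ∀ η ∈ S.C,
    ε ≤ - lor x η → - lor x η ≤ L → ε ≤ - lor y η → - lor y η ≤ L → D < - lor x y →
    ∃ w ∈ S.W, 2 < lor x w ∧ lor y w < -2 := by
  obtain ⟨θ, hθ, H⟩ := S.vert
  obtain ⟨κ, hκ⟩ := S.per
  refine ⟨L ^ 2 * (((κ + 4 / ε) / θ) ^ 2 + 2 / ε ^ 2) / 2, fun x hx y hy η hη a1 a2 b1 b2 hD => ?_⟩
  set a := - lor x η with had
  set b := - lor y η with hbd
  set c := - lor x y with hcd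
  have ha : 0 < a := by linarith
  have hb : 0 < b := by linarith
  have hL : 0 < L := by linarith
  have hc : 0 ≤ c := by have := one_le_cosh hx hy; linarith
  have t1 : ∀ w, lor (a⁻¹ • x - b⁻¹ • y) w = a⁻¹ * lor x w - b⁻¹ * lor y w := fun w => by
    simp only [lor_sub_left, lor_smul_left]
  have xa : lor x η = -a := by rw [had, neg_neg]
  have yb : lor y η = -b := by rw [hbd, neg_neg]
  have xc : lor x y = -c := by rw [hcd, neg_neg]
  have t2 : lor (a⁻¹ • x - b⁻¹ • y) η = 0 := by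
    rw [t1, xa, yb]; field_simp; ring
  have t3 : lor (a⁻¹ • x - b⁻¹ • y) (a⁻¹ • x - b⁻¹ • y) =
      2 * c * (a⁻¹ * b⁻¹) - a⁻¹ ^ 2 - b⁻¹ ^ 2 := by
    rw [t1, lor_comm x, lor_comm y, t1, t1, hx.1, hy.1, lor_comm y x, xc]; ring
  set e := a⁻¹ • x - b⁻¹ • y with hed
  have t4 : ((κ + 4 / ε) / θ) ^ 2 < lor e e := by
    have h1 := p_real2 hε a1 a2 b1 b2 hc
    have h2 : ((κ + 4 / ε) / θ) ^ 2 + 2 / ε ^ 2 < 2 * c / L ^ 2 := by
      rw [lt_div_iff₀ (by positivity)]; linarith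
    linarith
  have t5 : 0 < lor e e := lt_of_le_of_lt (sq_nonneg _) t4
  have hn := Real.sqrt_pos.2 t5
  have hn2 := Real.mul_self_sqrt t5.le
  have t6 : (κ + 4 / ε) / θ < √(lor e e) := Real.lt_sqrt_of_sq_lt t4
  obtain ⟨w, hw, w1, w2⟩ := H η hη ((√(lor e e))⁻¹ • e) (by rw [lor_smul_left, t2, mul_zero])
    (by rw [lor_smul_left, lor_smul_right]; field_simp; linarith)
  rw [lor_smul_right, lor_comm w, t1 w, le_inv_mul_iff₀ hn] at w2
  rw [div_lt_iff₀ hθ] at t6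
  obtain ⟨s, hs, hsκ, hsw⟩ := hκ η hη w hw w1
  set X := a⁻¹ * lor x w with hX
  set Y := b⁻¹ * lor y w with hY
  have k1 := Int.lt_floor_add_one ((Y + 2 / ε) / s)
  have k2 := Int.floor_le ((Y + 2 / ε) / s)
  rw [div_lt_iff₀ hs] at k1
  rw [le_div_iff₀ hs] at k2
  have x1 : lor x w = a * X := by rw [hX]; field_simp
  have y1 : lor y w = b * Y := by rw [hY]; field_simp
  have he : ε * (2 / ε) = 2 := by field_simp
  have he0 : 0 < 2 / ε := by positivity
  have he4 : 4 / ε = 2 * (2 / ε) := by ring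
  refine ⟨_, hsw (⌊(Y + 2 / ε) / s⌋ + 1), ?_, ?_⟩
  · rw [lor_add_right, lor_smul_right, xa, x1]
    push_cast
    have h1 : 2 / ε < X - (⌊(Y + 2 / ε) / s⌋ + 1) * s := by linarith
    have h2 := mul_lt_mul_of_pos_left h1 ha
    have h3 := mul_le_mul_of_nonneg_right a1 he0.le
    linarith
  · rw [lor_add_right, lor_smul_right, yb, y1]
    push_cast
    have h1 : 2 / ε < (⌊(Y + 2 / ε) / s⌋ + 1) * s - Y := by linarith
    have h2 := mul_lt_mul_of_pos_left h1 hb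
    have h3 := mul_le_mul_of_nonneg_right b1 he0.le
    linarith

lemma p_nul {x p : Mink d} (hx : x ∈ Hyp d) (h1 : lor p p = 0) (h2 : lor x p = -1) : Nul p := by
  rcases causal h1.le with h | h | h
  · rw [h, lor_zero_right] at h2; norm_num at h2
  · exact ⟨h1, h.2⟩
  · have := lor_neg hx h
    rw [lor_neg_right, h2] at this; norm_num at this

lemma p_ends {x y : Mink d} (hx : x ∈ Hyp d) (hy : y ∈ Hyp d) (h : 1 < - lor x y) :
    ∃ (p q : Mink d) (l : ℝ), Nul p ∧ Nul q ∧ lor p q = -2 ∧ - lor x y ≤ l ∧ pGam p q 1 = x ∧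
      pGam p q l = y := by
  set c := - lor x y with hcd
  have xc : lor x y = -c := by rw [hcd, neg_neg]
  have h0 : 0 < c ^ 2 - 1 := by nlinarith
  have hr := Real.sqrt_pos.2 h0
  have hr2 := Real.mul_self_sqrt h0.le
  set r := √(c ^ 2 - 1) with hrd
  have t1 : ∀ w, lor (r⁻¹ • (y - c • x)) w = r⁻¹ * (lor y w - c * lor x w) := fun w => by
    simp only [lor_sub_left, lor_smul_left]
  have t2 : lor (r⁻¹ • (y - c • x)) x = 0 := by
    rw [t1, hx.1, lor_comm y x, xc]; ring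
  have t3 : lor (r⁻¹ • (y - c • x)) (r⁻¹ • (y - c • x)) = 1 := by
    rw [t1, lor_comm y, lor_comm x, t2, t1, hy.1, xc]; field_simp; linarith
  have t4 : y = c • x + r • (r⁻¹ • (y - c • x)) := by
    rw [smul_smul, mul_inv_cancel₀ hr.ne', one_smul]; abel
  set v := r⁻¹ • (y - c • x) with hv
  have hinv : (c + r)⁻¹ = c - r := by
    apply inv_eq_of_mul_eq_one_right; nlinarith
  refine ⟨x + v, x - v, c + r, p_nul hx ?_ ?_, p_nul hx ?_ ?_, ?_, by linarith, ?_, ?_⟩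
  · simp only [lor_add_left, lor_add_right, lor_comm x v, t2, t3, hx.1]; ring
  · simp only [lor_add_right, lor_comm x v, t2, hx.1]; ring
  · simp only [lor_sub_left, lor_sub_right, lor_comm x v, t2, t3, hx.1]; ring
  · simp only [lor_sub_right, lor_comm x v, t2, hx.1]; ring
  · simp only [lor_add_left, lor_sub_right, lor_comm x v, t2, t3, hx.1]; ring
  · simp only [pGam, inv_one]; module
  · rw [pGam, hinv, t4]; module

lemma pp {ε : ℝ} (hε : 0 < ε) : ∃ D : ℝ, ∀ x ∈ Hyp d, ∀ y ∈ Hyp d, Thick S.C ε x → Thick S.C ε y →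
    D < - lor x y → ∃ w ∈ S.W, 2 < lor x w ∧ lor y w < -2 := by
  obtain ⟨L, hL, H1⟩ := S.p_thick
  obtain ⟨D, H2⟩ := S.p_flat hε L
  refine ⟨max D (L * L), fun x hx y hy tx ty hD => ?_⟩
  rw [max_lt_iff] at hD
  have hL0 : 0 < L := by linarith
  have hLL : 1 ≤ L * L := by nlinarith
  obtain ⟨p, q, l, hp, hq, h, hl, rx, ry⟩ := p_ends hx hy (by linarith [hD.2])
  have hl1 : L * L ≤ l := by linarith [hD.2]
  have hl0 : 0 < l := by linarith
  have hl2 : L ≤ l / L := by rw [le_div_iff₀ hL0]; exact hl1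
  by_cases hc : ∃ s ∈ Set.Icc L (l / L), Thick S.C 1 (pGam p q s)
  · obtain ⟨s, ⟨s1, s2⟩, ht⟩ := hc
    rw [le_div_iff₀ hL0] at s2
    rw [← rx, ← ry]
    exact H1 p q hp hq h s l s1 s2 ht
  · push Not at hc
    have h1 := hc L ⟨le_rfl, hl2⟩
    simp only [Thick] at h1
    push Not at h1
    obtain ⟨η, hη, h1⟩ := h1
    have hP : lor p η ≤ 0 := lor_nonpos hp.fut (S.light η hη).fut
    have hQ : lor q η ≤ 0 := lor_nonpos hq.fut (S.light η hη).fut
    have h2 : - lor (pGam p q (l / L)) η < 1 := by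
      by_contra hn
      have hcont : ContinuousOn (fun s => - lor (pGam p q s) η) (Set.Icc L (l / L)) := by
        simp only [p_lor]
        refine ContinuousOn.neg (ContinuousOn.div_const (ContinuousOn.add
          (continuousOn_id.mul continuousOn_const)
          (ContinuousOn.mul (continuousOn_id.inv₀ fun s hs => ?_) continuousOn_const)) _)
        exact (lt_of_lt_of_le hL0 hs.1).ne'
      obtain ⟨s, hs, h3⟩ := intermediate_value_Icc hl2 hcont ⟨h1.le, not_lt.1 hn⟩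
      refine hc s hs (S.horo η hη _ (p_mem hp hq h (lt_of_lt_of_le hL0 hs.1)) ?_)
      have h4 : - lor (pGam p q s) η = 1 := h3
      linarith
    refine H2 x hx y hy η hη (tx η hη) ?_ (ty η hη) ?_ hD.1
    · rw [p_lor] at h1
      rw [← rx, p_lor, inv_one, one_mul, one_mul]
      have h3 := mul_lt_mul_of_pos_left h1 hL0
      have h4 : L * (L⁻¹ * lor q η) = lor q η := by field_simp
      have h5 := mul_le_mul_of_nonpos_right hLL hP
      linarith
    · rw [p_lor] at h2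
      rw [← ry, p_lor]
      have h3 := mul_lt_mul_of_pos_left h2 hL0
      have h4 : L * (l / L * lor p η) = l * lor p η := by field_simp
      have h6 : L * ((l / L)⁻¹ * lor q η) = L * L * (l⁻¹ * lor q η) := by field_simp
      have h5 := mul_le_mul_of_nonpos_right hLL
        (mul_nonpos_of_nonneg_of_nonpos (inv_pos.2 hl0).le hQ)
      linarith

lemma pc {ε : ℝ} (hε : 0 < ε) : ∃ D : ℝ, ∀ y ∈ Hyp d, Thick S.C ε y → ∀ η ∈ S.C,
    D < - lor y η → ∃ w ∈ S.W, 0 < lor w η ∧ lor y w < -2 := by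
  obtain ⟨D, H⟩ := S.pp (lt_min hε one_pos)
  refine ⟨max (2 * D) 1, fun y hy ty η hη hD => ?_⟩
  rw [max_lt_iff] at hD
  obtain ⟨h1, h2, h3⟩ := horo_pt hy (S.light η hη)
  have h4 := S.horo η hη _ h1 h2
  set a := - lor y η with had
  have ha : 0 < a⁻¹ := inv_pos.2 (by linarith [hD.2])
  have ha1 : a⁻¹ < 1 := inv_lt_one_of_one_lt₀ hD.2
  obtain ⟨w, hw, w1, w2⟩ := H _ h1 y hy (fun ζ hζ => (min_le_right _ _).trans (h4 ζ hζ))
    (fun ζ hζ => (min_le_left _ _).trans (ty ζ hζ)) (by rw [lor_comm, h3]; linarith [hD.1])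
  refine ⟨w, hw, ?_, w2⟩
  rw [lor_add_left, lor_smul_left, lor_smul_left, lor_comm η] at w1
  have h5 : a⁻¹ * lor y w < 0 := mul_neg_of_pos_of_neg ha (by linarith)
  have h6 : 0 < (1 - a⁻¹ ^ 2) / 2 := by nlinarith
  by_contra hn
  have := mul_nonpos_of_nonneg_of_nonpos h6.le (not_lt.1 hn)
  linarith

end Pool.Agent.Lib.MP_661727_gt.Ar.Sys
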