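import Pool.Agent.Lib.MP_661727_gt.Ar.D
import Pool.Agent.Lib.MP_661727_gt.Ar.P

/-! Helly points, specialness, finiteness. -/

namespace Pool.Agent.Lib.MP_661727_gt.Ar.Sys

variable {d : ℕ} {G : Type} [Group G] {S : Sys d G} {o : Set (Mink d)} {u t η : Mink d}

lemma e_hel (h : S.Vx o) {x : Mink d} (hx : x ∈ Hyp d) : ∃ y ∈ Hyp d, (∀ w ∈ o, -2 ≤ lor y w) ∧
    (y = x ∨ ∃ v ∈ o, lor x v < 0 ∧ ∀ t, lor x t = 0 → |lor y t| ≤ |lor v t|) := by
  by_cases hc : ∀ w ∈ o, 0 ≤ lor x w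
  · exact ⟨x, hx, fun w hw => by linarith [hc w hw], Or.inl rfl⟩
  push Not at hc
  obtain ⟨R, hR⟩ := h.bd_at hx
  have hf : {w ∈ o | lor x w < 0}.Finite :=
    (S.lf_at hx R).subset fun w hw => ⟨h.sub hw.1, abs_le.2 ⟨hR w hw.1, by
      have := hR w hw.1
      have := hw.2
      linarith⟩⟩
  obtain ⟨v, hv, hm⟩ := Set.exists_min_image _ (lor x) hf hc
  have hv1 := S.unit v (h.sub hv.1)
  have hneg : lor x v < 0 := hv.2
  have hm' : ∀ w ∈ o, lor x v ≤ lor x w := fun w hw => by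
    by_cases c : lor x w < 0
    · exact hm w ⟨hw, c⟩
    · linarith
  have r0 : 0 < √(1 + lor x v ^ 2) := Real.sqrt_pos.2 (by positivity)
  have r1 : - lor x v ≤ √(1 + lor x v ^ 2) := Real.le_sqrt_of_sq_le (by nlinarith)
  have ev : ∀ w, lor ((√(1 + lor x v ^ 2))⁻¹ • (x - lor x v • v)) w =
      (lor x w - lor x v * lor v w) / √(1 + lor x v ^ 2) := fun w => by
    rw [lor_smul_left, lor_sub_left, lor_smul_left, div_eq_inv_mul]
  refine ⟨_, proj_mem hx hv1, fun w hw => ?_, Or.inr ⟨v, hv.1, hneg, fun t ht => ?_⟩⟩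
  · by_cases c : -1 < lor v w
    · rw [ev, le_div_iff₀ r0]
      nlinarith [hm' w hw]
    · have hw1 := S.unit w (h.sub hw)
      rcases le_total_of hv1 (w := -w) (by rw [lor_neg_left, lor_neg_right, hw1, neg_neg])
        (by rw [lor_neg_right]; linarith) with e | e
      · exact absurd e (h.not_le hv.1 hw)
      · have a1 := e _ (proj_mem hx hv1)
        rw [lor_neg_right, ev v, hv1] at a1
        simp only [mul_one, sub_self, zero_div] at a1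
        linarith
  · rw [ev, ht, zero_sub, abs_div, abs_neg, abs_mul, abs_of_pos r0, div_le_iff₀ r0,
      abs_of_neg hneg]
    nlinarith [abs_nonneg (lor v t)]

lemma e_two (_h : S.Vx o) {x x' : Mink d} (hx : x ∈ Hyp d) (hx' : x' ∈ Hyp d)
    (h1 : ∀ w ∈ o, -2 ≤ lor x w) (h2 : ∀ w ∈ fl o u, -2 ≤ lor x' w) (a1 : |lor x t| ≤ 1)
    (a2 : |lor x' t| ≤ 1) : ∃ y ∈ Hyp d, |lor y t| ≤ 1 ∧ lor y u ≤ 2 ∧ ∀ w ∈ o, -2 ≤ lor y w := by
  by_cases c1 : lor x u ≤ 2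
  · exact ⟨x, hx, a1, c1, h1⟩
  have b := h2 _ (mem_fl.2 (Or.inl rfl))
  rw [lor_neg_right] at b
  by_cases c2 : -2 ≤ lor x' u
  · refine ⟨x', hx', a2, by linarith, fun w hw => ?_⟩
    by_cases e : w = u
    · exact e ▸ c2
    · exact h2 w (mem_fl.2 (Or.inr ⟨hw, e⟩))
  push Not at c1 c2
  have hD : 0 < lor x u - lor x' u := by linarith
  obtain ⟨p, q, hp, hq, hpq, h0⟩ : ∃ p q : ℝ, 0 ≤ p ∧ 0 ≤ q ∧ p + q = 1 ∧
      p * lor x u + q * lor x' u = 0 :=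
    ⟨- lor x' u / (lor x u - lor x' u), lor x u / (lor x u - lor x' u),
      div_nonneg (by linarith) hD.le, div_nonneg (by linarith) hD.le, by field_simp; ring,
      by field_simp; ring⟩
  obtain ⟨c, c0, c1', hy⟩ := comb hx hx' hp hq hpq
  have ev : ∀ w, lor (c • (p • x + q • x')) w = c * (p * lor x w + q * lor x' w) := fun w => by
    rw [lor_smul_left, lor_add_left, lor_smul_left, lor_smul_left]
  refine ⟨_, hy, ?_, by rw [ev, h0]; norm_num, fun w hw => ?_⟩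
  · obtain ⟨a11, a12⟩ := abs_le.1 a1
    obtain ⟨a21, a22⟩ := abs_le.1 a2
    have k1 : -1 ≤ p * lor x t + q * lor x' t := by nlinarith
    have k2 : p * lor x t + q * lor x' t ≤ 1 := by nlinarith
    rw [ev]
    exact abs_le.2 ⟨by nlinarith, by nlinarith⟩
  · by_cases e : w = u
    · rw [e, ev, h0]; norm_num
    · have k1 := h1 w hw
      have k2 := h2 w (mem_fl.2 (Or.inr ⟨hw, e⟩))
      have k3 : -2 ≤ p * lor x w + q * lor x' w := by nlinarith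
      rw [ev]
      nlinarith

lemma hel (h : S.Vx o) : ∃ y ∈ Hyp d, ∀ w ∈ o, -2 ≤ lor y w := by
  obtain ⟨y, hy, h1, -⟩ := e_hel h oo_mem
  exact ⟨y, hy, h1⟩
lemma hel2 (h : S.Vx o) (hu : Mn o u) :
    ∃ y ∈ Hyp d, lor y u ≤ 2 ∧ ∀ w ∈ o, -2 ≤ lor y w := by
  obtain ⟨x, hx, h1⟩ := hel h
  obtain ⟨x', hx', h2⟩ := hel (h.fl hu)
  obtain ⟨y, hy, -, h3⟩ := e_two (t := 0) h hx hx' h1 h2 (by simp [lor_zero_right])
    (by simp [lor_zero_right])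
  exact ⟨y, hy, h3⟩
lemma helZ (ht : t ∈ S.W) (h : S.Z t o) :
    ∃ y ∈ Hyp d, |lor y t| ≤ 1 ∧ ∀ w ∈ o, -2 ≤ lor y w := by
  obtain ⟨x, hx, hx0⟩ := exists_on_wall (S.unit t ht)
  obtain ⟨y, hy, h1, h2⟩ := e_hel h.1 hx
  refine ⟨y, hy, ?_, h1⟩
  rcases h2 with rfl | ⟨v, hv, a, b⟩
  · simp [hx0]
  · exact (b t hx0).trans (U.abs_le ht (h.1.sub hv)
      ((h.2 v hv).resolve_right fun c => absurd (c x hx hx0) (not_le.2 a)))
lemma helZ2 (ht : t ∈ S.W) (h : S.Z t o) (hu : Mn o u) (hU : S.U t u) :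
    ∃ y ∈ Hyp d, |lor y t| ≤ 1 ∧ lor y u ≤ 2 ∧ ∀ w ∈ o, -2 ≤ lor y w := by
  obtain ⟨x, hx, a1, h1⟩ := helZ ht h
  obtain ⟨x', hx', a2, h2⟩ := helZ ht (h.fl hu hU)
  exact e_two h.1 hx hx' h1 h2 a1 a2

/-- a point that is not thick determines the flat -/
lemma e_deep (S : Sys d G) : ∃ ε : ℝ, 0 < ε ∧ ∀ y ∈ Hyp d, ¬ Thick S.C ε y → ∃ η ∈ S.C,
    (∀ o, S.Vx o → (∀ w ∈ o, -2 ≤ lor y w) → S.Fl η o) ∧
    ∀ w ∈ S.W, -2 ≤ lor y w → lor y w ≤ 2 → lor w η = 0 := by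
  obtain ⟨ε, h0, -, h⟩ := S.deep 2
  refine ⟨ε, h0, fun y hy hc => ?_⟩
  simp only [Thick, not_forall, not_le] at hc
  obtain ⟨η, hη, hc⟩ := hc
  refine ⟨η, hη, fun o ho h1 => ⟨ho, fun w hw hp => ?_⟩, fun w hw a b => ?_⟩
  · by_contra c
    have := h y hy η hη hc _ (S.neg w hw) (h1 _ (ho.neg_mem hw c))
    rw [lor_neg_left] at this
    linarith
  · have a1 := h y hy η hη hc w hw a
    have a2 := h y hy η hη hc _ (S.neg w hw) (by rw [lor_neg_right]; linarith)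
    rw [lor_neg_left] at a2
    linarith

/-- walls adjacent to one vertex are close -/
lemma bnd (S : Sys d G) : ∃ B : ℝ, ∀ o u u', S.Vx o → Mn o u → Mn o u' → |lor u u'| ≤ B := by
  obtain ⟨ε, h0, hε⟩ := S.e_deep
  obtain ⟨D, hD⟩ := S.pp h0
  obtain ⟨D', hD'⟩ := S.pc h0
  obtain ⟨κ, hκ⟩ := S.per
  have fin : ∀ o u u', S.Vx o → Mn o u → Mn o u' → ∀ y ∈ Hyp d, lor y u ≤ 2 →
      (∀ w ∈ o, -2 ≤ lor y w) → |lor y u'| ≤ 2 + |5 * D| + |κ * D'| →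
      |lor u u'| ≤ 1 + 2 * (2 + |5 * D| + |κ * D'|) ^ 2 := fun o u u' h hu hu' y hy a b c =>
    abs_lor_le hy (S.unit u (h.sub hu.1)) (S.unit u' (h.sub hu'.1))
      ((abs_le.2 ⟨b u hu.1, a⟩).trans (by linarith [abs_nonneg (5 * D), abs_nonneg (κ * D')])) c
  have mixed : ∀ o u u', S.Vx o → Mn o u → Mn o u' → ∀ y ∈ Hyp d, lor y u ≤ 2 →
      (∀ w ∈ o, -2 ≤ lor y w) → Thick S.C ε y → ∀ η ∈ S.C, S.Fl η o → lor u' η = 0 →
      |lor u u'| ≤ 1 + 2 * (2 + |5 * D| + |κ * D'|) ^ 2 := by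
    intro o u u' h hu hu' y hy a b hT η hη hF h1
    refine fin o u u' h hu hu' y hy a b ?_
    have k1 : - lor y η ≤ D' := by
      by_contra c
      obtain ⟨w, hw, p, q⟩ := hD' y hy hT η hη (not_le.1 c)
      linarith [b w (hF.2 w hw p)]
    have k2 := lor_neg hy (S.light η hη).fut
    obtain ⟨s, s0, s1, hs⟩ := hκ η hη u' (h.sub hu'.1) h1
    have hw : u' + s • η ∈ S.W := by simpa using hs 1
    have k3 : u' + s • η ∉ o := fun c => by
      have e := hu'.2 _ c (by simpa using (le_shift (S.light η hη) u' s 0).2 s0.le)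
      exact s0.ne' (shift_inj (S.light η hη) (w := u') (s := s) (s' := 0) (by simpa using e))
    have k4 := b _ (h.neg_mem hw k3)
    rw [lor_neg_right, lor_add_right, lor_smul_right] at k4
    have k5 : s * (- lor y η) ≤ κ * D' := mul_le_mul s1 k1 (by linarith) (by linarith)
    exact abs_le.2 ⟨by linarith [b u' hu'.1, abs_nonneg (5 * D), abs_nonneg (κ * D')],
      by linarith [abs_nonneg (5 * D), le_abs_self (κ * D')]⟩
  refine ⟨1 + 2 * (2 + |5 * D| + |κ * D'|) ^ 2, fun o u u' h hu hu' => ?_⟩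
  obtain ⟨y, hy, a, b⟩ := hel2 h hu
  obtain ⟨y', hy', a', b'⟩ := hel2 h hu'
  by_cases hT : Thick S.C ε y <;> by_cases hT' : Thick S.C ε y'
  · refine fin o u u' h hu hu' y hy a b ?_
    have k1 : - lor y y' ≤ D := by
      by_contra c
      obtain ⟨w, hw, p, q⟩ := hD y hy y' hy' hT hT' (not_le.1 c)
      have := b _ (h.neg_mem hw fun c => by linarith [b' w c])
      rw [lor_neg_right] at this
      linarith
    have k2 := abs_le_near hy hy' (S.unit u' (h.sub hu'.1)) (K := 2) (abs_le.2 ⟨b' u' hu'.1, a'⟩)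
    linarith [le_abs_self (5 * D), abs_nonneg (κ * D')]
  · obtain ⟨η, hη, p, q⟩ := hε y' hy' hT'
    exact mixed o u u' h hu hu' y hy a b hT η hη (p o h b') (q u' (h.sub hu'.1) (b' u' hu'.1) a')
  · obtain ⟨η, hη, p, q⟩ := hε y hy hT
    rw [lor_comm]
    exact mixed o u' u h hu' hu y' hy' a' b' hT' η hη (p o h b) (q u (h.sub hu.1) (b u hu.1) a)
  · obtain ⟨η, hη, p, q⟩ := hε y hy hT
    obtain ⟨η', hη', p', q'⟩ := hε y' hy' hT'
    have e := Fl.uniq hη hη' (p o h b) (p' o h b')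
    have k := cs_null (S.light η hη) (q u (h.sub hu.1) (b u hu.1) a)
      (e ▸ q' u' (h.sub hu'.1) (b' u' hu'.1) a')
    rw [S.unit u (h.sub hu.1), S.unit u' (h.sub hu'.1), one_mul] at k
    exact ((sq_le_one_iff_abs_le_one _).1 k).trans (le_add_of_nonneg_right (by positivity))

lemma exists_spec (S : Sys d G) :
    ∃ S' : Sys d G, S'.ρ = S.ρ ∧ S'.W = S.W ∧ S'.C = S.C ∧ S'.Spec := by
  obtain ⟨B, hB⟩ := S.bnd
  obtain ⟨G0, h1, h2, h3⟩ := S.cong (max B 1)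
  obtain ⟨S', e1, e2, e3, e4⟩ := S.exists_sub G0 h1 h2
  have vx : ∀ o, S'.Vx o → S.Vx o := fun o h => ⟨e2 ▸ h.sub, e2 ▸ h.tot, e2 ▸ h.up, h.bd⟩
  have one : ∀ g ∈ G0, ∀ u ∈ S.W, |lor (S.ρ g u) u| ≤ max B 1 → lor (S.ρ g u) u = 1 :=
    fun g hg u hu h => by
      rw [(h3 g hg).1 u hu u hu (by rw [S.unit u hu, abs_one]; exact le_max_right _ _) h,
        S.unit u hu]
  refine ⟨S', e1, e2, e3, fun o u u' h hu hu' hl => ?_, fun o u u' h hu hu' g hg hc => ?_,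
    fun u hu g hg hc => ?_⟩
  · have h := vx o h
    obtain ⟨g, hg, e⟩ := hl
    rw [e4] at hg
    rw [e1] at e
    have hW := h.sub hu.1
    have b := (hB o u' u h hu' hu).trans (le_max_left B 1)
    have k := one g hg u hW (by
      rcases e with e | e
      · rwa [← e]
      · rwa [e, lor_neg_left, abs_neg] at b)
    have l := le_total_of (by rw [S.isom, S.unit u hW]) (S.unit u hW) k.ge
    rcases e with e | e
    · rw [← e] at l
      rcases l with l | l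
      · exact hu.2 u' hu'.1 l
      · exact (hu'.2 u hu.1 l).symm
    · exfalso
      have e' : S.ρ g u = -u' := by rw [e, neg_neg]
      have hm := (h3 g hg).2 u hW k
      rw [e'] at l hm
      have l := l.resolve_right (h.not_le hu.1 hu'.1)
      have ne : -u' ≠ u := fun c => h.neg_not hu'.1 (c ▸ hu.1)
      have lt := l.lt ne oo_mem
      have ev : ∀ x, lor x ((1 / 2 : ℝ) • (-u' + u)) = 1 / 2 * (lor x (-u') + lor x u) :=
        fun x => by rw [lor_smul_right, lor_add_right]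
      by_cases c : (1 / 2 : ℝ) • (-u' + u) ∈ o
      · have a := hu.2 _ c fun x hx => by rw [ev]; linarith [l x hx]
        have := ev (oo d)
        rw [a] at this
        linarith
      · have a := hu'.2 _ (h.neg_mem hm c) fun x hx => by
          have := l x hx
          rw [lor_neg_right, ev]
          rw [lor_neg_right] at this ⊢
          linarith
        have a' : (1 / 2 : ℝ) • (-u' + u) = -u' := neg_eq_iff_eq_neg.1 a
        have := ev (oo d)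
        rw [a'] at this
        linarith
  · have h := vx o h
    rw [e4] at hg
    rw [e1] at hc
    rwa [(h3 g hg).1 u (h.sub hu.1) u' (h.sub hu'.1) ((hB o u u' h hu hu').trans (le_max_left _ _))
      (hc.le.trans (le_max_right _ _))] at hc
  · rw [e4] at hg
    rw [e1] at hc
    rw [e2] at hu
    rw [one g hg u hu (hc.le.trans (le_max_right _ _)), abs_one] at hc
    exact lt_irrefl _ hc

lemma fin0 (ht : t ∈ S.W) {ε : ℝ} (hε : 0 < ε) : ∃ R : ℝ, ∀ y ∈ Hyp d, Thick S.C ε y →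
    |lor y t| ≤ 1 → ∃ h ∈ S.Γ, S.ρ h t = t ∧ (S.ρ h y).1 ≤ R := by
  obtain ⟨R, hR⟩ := S.cpt hε
  have ex : ∀ w : Mink d, ∃ g0 : G, (∃ g ∈ S.Γ, S.ρ g t = w) → g0 ∈ S.Γ ∧ S.ρ g0 t = w := fun w => by
    by_cases c : ∃ g ∈ S.Γ, S.ρ g t = w
    · obtain ⟨g, hg⟩ := c
      exact ⟨g, fun _ => hg⟩
    · exact ⟨1, fun h => absurd h c⟩
  choose f hf using ex
  obtain ⟨M, hM⟩ := ((S.lf (3 * R)).image fun w => (S.ρ (f w) (oo d)).1).bddAbove
  refine ⟨2 * M * R, fun y hy hT h1 => ?_⟩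
  obtain ⟨g, hg, h2⟩ := hR y hy hT
  have hy' := S.sheet g y hy
  have hw := S.inv g hg t ht
  have k1 := abs_le_near oo_mem hy' (S.unit _ hw) (K := 1) (by rwa [S.isom])
  rw [lor_oo, lor_oo, abs_neg, neg_neg] at k1
  obtain ⟨a, b⟩ := hf _ ⟨g, hg, rfl⟩
  have k2 : (S.ρ (f (S.ρ g t)) (oo d)).1 ≤ M := hM ⟨_, ⟨hw, by linarith⟩, rfl⟩
  have ho := S.sheet (f (S.ρ g t)) _ oo_mem
  refine ⟨(f (S.ρ g t))⁻¹ * g, S.Γ.mul_mem (S.Γ.inv_mem a) hg, ?_, ?_⟩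
  · rw [S.ρ_mul]
    conv_lhs => rw [← b]
    simp only [b]
    conv_lhs => arg 2; rw [← b]
    exact S.ρ_inv _ _
  · have k3 := tri3 ho oo_mem hy'
    rw [S.lor_ρ, lor_oo, lor_oo, lor_comm, lor_oo, neg_neg, neg_neg, neg_neg] at k3
    rw [S.ρ_mul]
    refine k3.trans ?_
    have p1 := ho.2
    have p2 := hy'.2
    exact mul_le_mul (by linarith) h2 p2.le (by linarith)

lemma e_near {y : Mink d} {R : ℝ} {h : G} (ho : S.Vx o) (hy : y ∈ Hyp d)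
    (h1 : ∀ w ∈ o, -2 ≤ lor y w) (hh : h ∈ S.Γ) (h2 : (S.ρ h y).1 ≤ R) :
    S.act h o ∈ {o | S.Vx o ∧ ∀ w ∈ o, w.1 ≤ 5 * R} := by
  refine ⟨ho.act hh, ?_⟩
  rintro _ ⟨v, hv, rfl⟩
  have k := low oo_mem (S.sheet h y hy) (S.unit _ (S.inv h hh v (ho.sub hv))) (K := 2)
    (by norm_num) (by rw [S.isom]; exact h1 v hv)
  rw [lor_oo, lor_oo] at k
  linarith

lemma finZ (ht : t ∈ S.W) : ∃ Φ : Set (Set (Mink d)), Φ.Finite ∧ ∀ o, S.Z t o →
    (∃ η ∈ S.C, lor t η = 0 ∧ S.Fl η o) ∨ ∃ h ∈ S.Γ, S.ρ h t = t ∧ S.act h o ∈ Φ := by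
  obtain ⟨ε, h0, hε⟩ := S.e_deep
  obtain ⟨R, hR⟩ := fin0 ht h0
  refine ⟨_, fin_near (S := S) (5 * R), fun o h => ?_⟩
  obtain ⟨y, hy, a, b⟩ := helZ ht h
  by_cases hT : Thick S.C ε y
  · obtain ⟨g, hg, p, q⟩ := hR y hy hT a
    exact Or.inr ⟨g, hg, p, e_near h.1 hy b hg q⟩
  · obtain ⟨η, hη, p, q⟩ := hε y hy hT
    obtain ⟨a1, a2⟩ := abs_le.1 a
    exact Or.inl ⟨η, hη, q t ht (by linarith) (by linarith), p o h.1 b⟩
lemma finE (ht : t ∈ S.W) : ∃ Φ : Set (Set (Mink d)), Φ.Finite ∧ ∀ η ∈ S.C, lor t η = 0 →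
    ∀ o, S.Ex t η o → ∃ h ∈ S.Γ, S.ρ h t = t ∧ S.act h o ∈ Φ := by
  obtain ⟨ε, h0, hε⟩ := S.e_deep
  obtain ⟨R, hR⟩ := fin0 ht h0
  refine ⟨_, fin_near (S := S) (5 * R), fun η hη ht0 o h => ?_⟩
  obtain ⟨hF, u, hu, hU, hn⟩ := h
  obtain ⟨y, hy, a, a', b⟩ := helZ2 ht (hF.z ht hη ht0) hu hU
  by_cases hT : Thick S.C ε y
  · obtain ⟨g, hg, p, q⟩ := hR y hy hT a
    exact ⟨g, hg, p, e_near hF.1 hy b hg q⟩
  · obtain ⟨η', hη', p, q⟩ := hε y hy hT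
    exact absurd (Fl.uniq hη hη' hF (p o hF.1 b) ▸ q u (hF.1.sub hu.1) (b u hu.1) a') hn
lemma finC (ht : t ∈ S.W) : ∃ Φ : Set (Mink d), Φ.Finite ∧ ∀ η ∈ S.C, lor t η = 0 →
    ∃ h ∈ S.Γ, S.ρ h t = t ∧ S.ρ h η ∈ Φ := by
  obtain ⟨R, hR⟩ := fin0 ht one_pos
  obtain ⟨x, hx, hx0⟩ := exists_on_wall (S.unit t ht)
  refine ⟨_, S.lfC (2 * R), fun η hη h0 => ?_⟩
  obtain ⟨hy, h1, -⟩ := horo_pt hx (S.light η hη)
  obtain ⟨g, hg, p, q⟩ := hR _ hy (S.horo η hη _ hy h1) (by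
    rw [lor_add_left, lor_smul_left, lor_smul_left, hx0, lor_comm η t, h0]; simp)
  refine ⟨g, hg, p, S.invC g η hη, ?_⟩
  have k := tri_fut oo_mem (S.sheet g _ hy) (S.light _ (S.invC g η hη)).fut
  rw [S.isom, h1, lor_oo, lor_oo] at k
  linarith

end Pool.Agent.Lib.MP_661727_gt.Ar.Sys
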