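import Pool.Agent.Lib.MP_661727_gt.Ar.D

/-! Flats of cusps. -/

namespace Pool.Agent.Lib.MP_661727_gt.Ar.Sys

variable {d : ℕ} {G : Type} [Group G] {S : Sys d G} {o o' o'' : Set (Mink d)} {u w t η : Mink d}
  {g : G} {M : ℕ}

lemma f_fst (w η : Mink d) (s : ℝ) : (w + s • η).1 = w.1 + s * η.1 := by simp

lemma f_lor (hη : η ∈ S.C) (h0 : lor w η = 0) (s : ℝ) : lor (w + s • η) η = 0 := by
  rw [lor_add_left, lor_smul_left, h0, (S.light η hη).1]; simp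

lemma f_fin (hη : η ∈ S.C) (w : Mink d) (a b : ℝ) :
    {s : ℝ | a ≤ s ∧ s ≤ b ∧ w + s • η ∈ S.W}.Finite := by
  have hp := (S.light η hη).2
  refine Set.Finite.of_finite_image (f := fun s : ℝ => w + s • η)
    ((S.lf (|w.1| + (|a| + |b|) * η.1)).subset ?_) fun s _ s' _ e => shift_inj (S.light η hη) e
  rintro _ ⟨s, ⟨h1, h2, h3⟩, rfl⟩
  refine ⟨h3, ?_⟩
  have h4 : |s| ≤ |a| + |b| := abs_le.2
    ⟨by linarith [neg_abs_le a, abs_nonneg b], by linarith [le_abs_self b, abs_nonneg a]⟩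
  beta_reduce
  rw [f_fst]
  refine (abs_add_le _ _).trans (add_le_add le_rfl ?_)
  rw [abs_mul, abs_of_pos hp]
  exact mul_le_mul_of_nonneg_right h4 hp.le

lemma f_greatest (h : S.Vx o) (hη : η ∈ S.C) (hw : w ∈ S.W) (h0 : lor w η = 0) :
    IsGreatest {s : ℝ | w + s • η ∈ o} (lev o η w) := by
  have hp := (S.light η hη).2
  obtain ⟨R, hR⟩ := h.bd
  obtain ⟨κ, hκ⟩ := S.per
  obtain ⟨s0, hs0, -, hs⟩ := hκ η hη w hw h0
  obtain ⟨n, hn⟩ := exists_nat_gt ((R + w.1) / (s0 * η.1))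
  rw [div_lt_iff₀ (mul_pos hs0 hp)] at hn
  have h1 : w + (((-(n : ℤ) : ℤ) : ℝ) * s0) • η ∈ o := by
    by_contra h2
    have h3 := hR _ (h.neg_mem (hs (-n)) h2)
    rw [Prod.fst_neg, f_fst] at h3
    push_cast at h3
    linarith
  set a := ((-(n : ℤ) : ℤ) : ℝ) * s0
  have hb : ∀ s : ℝ, w + s • η ∈ o → s ≤ (R - w.1) / η.1 := fun s h2 => by
    have h3 := hR _ h2
    rw [f_fst] at h3
    rw [le_div_iff₀ hp]
    linarith
  have hf : {s : ℝ | a ≤ s ∧ w + s • η ∈ o}.Finite :=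
    (f_fin hη w a ((R - w.1) / η.1)).subset fun s h2 => ⟨h2.1, hb s h2.2, h.sub h2.2⟩
  obtain ⟨m, hm, hm'⟩ := Set.exists_max_image _ id hf ⟨a, le_rfl, h1⟩
  have hg : IsGreatest {s : ℝ | w + s • η ∈ o} m := ⟨hm.2, fun s h2 => by
    rcases le_total a s with h3 | h3
    · exact hm' s ⟨h3, h2⟩
    · exact h3.trans hm.1⟩
  rw [lev, hg.csSup_eq]
  exact hg

lemma lev_mem (h : S.Vx o) (hη : η ∈ S.C) (hw : w ∈ S.W) (h0 : lor w η = 0) :
    w + lev o η w • η ∈ o := (f_greatest h hη hw h0).1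

lemma mem_iff_lev (h : S.Vx o) (hη : η ∈ S.C) (hw : w ∈ S.W) (h0 : lor w η = 0) {s : ℝ}
    (hs : w + s • η ∈ S.W) : w + s • η ∈ o ↔ s ≤ lev o η w :=
  ⟨fun h1 => (f_greatest h hη hw h0).2 h1, fun h1 =>
    h.up _ (lev_mem h hη hw h0) _ hs ((le_shift (S.light η hη) w _ _).2 h1)⟩

lemma f_lev_eq (h : S.Vx o) (hη : η ∈ S.C) (hw : w ∈ S.W) (h0 : lor w η = 0) {w' : Mink d} {A : ℝ}
    (e : ∀ s : ℝ, w + s • η ∈ o ↔ w' + (s + A) • η ∈ o') : lev o' η w' = lev o η w + A := by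
  have hg := f_greatest h hη hw h0
  refine IsGreatest.csSup_eq ⟨(e _).1 hg.1, fun s hs => ?_⟩
  have := hg.2 ((e (s - A)).2 (by rwa [sub_add_cancel]))
  linarith

lemma lev_shift (h : S.Vx o) (hη : η ∈ S.C) (hw : w ∈ S.W) (h0 : lor w η = 0) (s : ℝ) :
    lev o η (w + s • η) = lev o η w - s := by
  rw [sub_eq_add_neg]
  refine f_lev_eq h hη hw h0 fun r => ?_
  rw [add_assoc, ← add_smul, show s + (r + -s) = r by ring]

lemma lev_act (g : G) (o : Set (Mink d)) (η w : Mink d) :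
    lev (S.act g o) (S.ρ g η) (S.ρ g w) = lev o η w := by
  unfold lev
  congr 1
  ext s
  simp only [Set.mem_ofPred_eq]
  rw [← map_smul, ← map_add, act_mem_act]

lemma mn_iff_lev (h : S.Fl η o) (hη : η ∈ S.C) (hw : w ∈ S.W) (h0 : lor w η = 0) :
    Mn o w ↔ lev o η w = 0 := by
  have hN := S.light η hη
  have hg := f_greatest h.1 hη hw h0
  constructor
  · intro hm
    have h1 : 0 ≤ lev o η w := hg.2 (by simpa using hm.1)
    have h2 := hm.2 _ hg.1 (by simpa using (le_shift hN w (lev o η w) 0).2 h1)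
    exact shift_inj hN (w := w) (by simpa using h2)
  · intro e
    refine ⟨by simpa [e] using hg.1, fun w' hw' hle => ?_⟩
    have h1 : lor w' η = 0 := le_antisymm (h0 ▸ hle.fut hN.fut) (h.nonneg hw')
    obtain ⟨s, hs, rfl⟩ := hle.par hN h1 h0
    have h2 : s ≤ 0 := e ▸ hg.2 hw'
    rw [le_antisymm h2 hs]
    simp

lemma Fl.ext (hη : η ∈ S.C) (h : S.Fl η o) (h' : S.Fl η o')
    (e : ∀ w ∈ S.W, lor w η = 0 → lev o η w = lev o' η w) : o = o' := by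
  have aux : ∀ {o o' : Set (Mink d)}, S.Fl η o → S.Fl η o' →
      (∀ w ∈ S.W, lor w η = 0 → lev o η w = lev o' η w) → o ⊆ o' := fun h h' e w hw => by
    have hW := h.1.sub hw
    rcases (h.nonneg hw).eq_or_lt with h0 | h0
    · have h1 := (mem_iff_lev h.1 hη hW h0.symm (s := 0) (by simpa using hW)).1 (by simpa using hw)
      rw [e w hW h0.symm] at h1
      simpa using (mem_iff_lev h'.1 hη hW h0.symm (s := 0) (by simpa using hW)).2 h1
    · exact h'.2 w hW h0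
  exact (aux h h' e).antisymm (aux h' h fun w hw h0 => (e w hw h0).symm)

lemma mem_N {a : ℝ} : a ∈ S.N η w ↔ ∃ g ∈ S.Γ, S.ρ g η = η ∧ S.ρ g w = w + a • η := Iff.rfl

lemma N_shift (s : ℝ) : S.N η (w + s • η) = S.N η w := by
  ext a
  simp only [mem_N]
  refine exists_congr fun g => and_congr_right fun _ => and_congr_right fun h1 => ?_
  rw [map_add, map_smul, h1, add_right_comm, add_left_inj]

lemma N_neg : S.N η (-w) = S.N η w := by
  have aux : ∀ w : Mink d, S.N η (-w) ≤ S.N η w := fun w a ha => by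
    obtain ⟨g, hg, h1, h2⟩ := mem_N.1 (neg_mem ha)
    refine mem_N.2 ⟨g, hg, h1, ?_⟩
    rw [map_neg, neg_smul, ← neg_add, neg_inj] at h2
    exact h2
  exact (aux w).antisymm (by simpa using aux (-w))

lemma N_act (hg : g ∈ S.Γ) : S.N (S.ρ g η) (S.ρ g w) = S.N η w := by
  have aux : ∀ (g : G) (η w : Mink d), g ∈ S.Γ → S.N η w ≤ S.N (S.ρ g η) (S.ρ g w) :=
    fun g η w hg a ha => by
      obtain ⟨k, hk, h1, h2⟩ := mem_N.1 ha
      refine mem_N.2 ⟨g * k * g⁻¹, S.Γ.mul_mem (S.Γ.mul_mem hg hk) (S.Γ.inv_mem hg), ?_, ?_⟩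
      · rw [ρ_mul, ρ_mul, ρ_inv, h1]
      · rw [ρ_mul, ρ_mul, ρ_inv, h2, map_add, map_smul]
  refine le_antisymm ?_ (aux g η w hg)
  have := aux g⁻¹ (S.ρ g η) (S.ρ g w) (S.Γ.inv_mem hg)
  rwa [ρ_inv, ρ_inv] at this

lemma f_W {A s : ℝ} (hA : A ∈ S.N η w) (hs : w + s • η ∈ S.W) : w + (s + A) • η ∈ S.W := by
  rw [← N_shift s] at hA
  obtain ⟨g, hg, -, h2⟩ := mem_N.1 hA
  rw [add_smul, ← add_assoc, ← h2]
  exact S.inv g hg _ hs

lemma N_gen (hη : η ∈ S.C) (hw : w ∈ S.W) (h0 : lor w η = 0) :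
    ∃ κ : ℝ, 0 < κ ∧ ∀ a, a ∈ S.N η w ↔ ∃ n : ℤ, a = n * κ := by
  obtain ⟨g, hg, h1, h2⟩ := S.move η hη w hw h0
  obtain ⟨s, hs⟩ := S.transl g η hη h1 w h0
  have hs0 : s ≠ 0 := fun e => h2 (by simpa [e] using hs)
  have hsN : s ∈ S.N η w := mem_N.2 ⟨g, hg, h1, hs⟩
  have hab : |s| ∈ S.N η w := abs_mem_iff.2 hsN
  have hf : {a : ℝ | a ∈ S.N η w ∧ 0 < a ∧ a ≤ |s|}.Finite :=
    (f_fin hη w 0 |s|).subset fun a ha => ⟨ha.2.1.le, ha.2.2, by
      simpa using f_W (s := 0) ha.1 (by simpa using hw)⟩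
  obtain ⟨κ, hκ, hκ'⟩ := Set.exists_min_image _ id hf ⟨|s|, hab, abs_pos.2 hs0, le_rfl⟩
  have hl : IsLeast {a : ℝ | a ∈ S.N η w ∧ 0 < a} κ := ⟨⟨hκ.1, hκ.2.1⟩, fun a ha => by
    rcases le_total a |s| with h3 | h3
    · exact hκ' a ⟨ha.1, ha.2, h3⟩
    · exact hκ.2.2.trans h3⟩
  refine ⟨κ, hκ.2.1, fun a => ?_⟩
  rw [AddSubgroup.cyclic_of_min hl, AddSubgroup.mem_closure_singleton]
  simp only [zsmul_eq_mul, eq_comm]

lemma f_mul {a : ℝ} (ha : a ∈ S.N η w) (M : ℕ) : (M : ℝ) * a ∈ S.N η w := by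
  simpa using nsmul_mem ha M

lemma R.refl (h : S.Fl η o) : S.R M η o o := ⟨h, h, fun _ _ _ => ⟨0, zero_mem _, by simp⟩⟩

lemma R.symm (h : S.R M η o o') : S.R M η o' o := ⟨h.2.1, h.1, fun w hw h0 => by
  obtain ⟨a, ha, e⟩ := h.2.2 w hw h0
  exact ⟨-a, neg_mem ha, by linarith⟩⟩

lemma R.trans (h : S.R M η o o') (h' : S.R M η o' o'') : S.R M η o o'' :=
  ⟨h.1, h'.2.1, fun w hw h0 => by
    obtain ⟨a, ha, e⟩ := h.2.2 w hw h0
    obtain ⟨a', ha', e'⟩ := h'.2.2 w hw h0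
    exact ⟨a + a', add_mem ha ha', by linarith⟩⟩

lemma R.act (h : S.R M η o o') (hg : g ∈ S.Γ) :
    S.R M (S.ρ g η) (S.act g o) (S.act g o') := ⟨h.1.act hg, h.2.1.act hg, fun w hw h0 => by
  obtain ⟨a, ha, e⟩ := h.2.2 (S.ρ g⁻¹ w) (S.inv _ (S.Γ.inv_mem hg) w hw) (by
    rw [← S.isom g, ρ_inv', h0])
  rw [← N_act hg, ρ_inv'] at ha
  rw [← lev_act (S := S) g o, ← lev_act (S := S) g o', ρ_inv'] at e
  exact ⟨a, ha, e⟩⟩

lemma R.of_dvd {M' : ℕ} (hM : M ∣ M') (h : S.R M' η o o') : S.R M η o o' :=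
  ⟨h.1, h.2.1, fun w hw h0 => by
    obtain ⟨a, ha, e⟩ := h.2.2 w hw h0
    obtain ⟨c, rfl⟩ := hM
    exact ⟨c * a, f_mul ha c, by rw [e]; push_cast; ring⟩⟩

lemma R.of_act (hη : η ∈ S.C) (h : S.Fl η o) (hg : g ∈ S.Γ) (h1 : S.ρ g η = η) :
    S.R M η o (S.act (g ^ M) o) := by
  have h2 : S.ρ (g ^ M) η = η := by
    have := (S.ρ_zpow (a := 0) (w := η) h1 (by simpa using h1) M).1
    rwa [zpow_natCast] at this
  have h3 : S.Fl η (S.act (g ^ M) o) := by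
    have := h.act (S.Γ.pow_mem hg M)
    rwa [h2] at this
  refine ⟨h, h3, fun w hw h0 => ?_⟩
  obtain ⟨a, ha⟩ := S.transl g η hη h1 w h0
  refine ⟨a, mem_N.2 ⟨g, hg, h1, ha⟩, ?_⟩
  have h4 := (S.ρ_zpow h1 ha M).2
  rw [zpow_natCast] at h4
  have h5 := lev_act (S := S) (g ^ M) o η w
  rw [h2, h4, lev_shift h3.1 hη hw h0] at h5
  push_cast at h5
  linarith

lemma f_set (h : S.Vx o) (h' : S.Vx o') (hη : η ∈ S.C) (hw : w ∈ S.W) (h0 : lor w η = 0) {A : ℝ}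
    (hA : A ∈ S.N η w) (e : lev o' η w = lev o η w + A) (s : ℝ) :
    w + s • η ∈ o ↔ w + (s + A) • η ∈ o' := by
  constructor
  · intro h1
    have h2 := (mem_iff_lev h hη hw h0 (h.sub h1)).1 h1
    exact (mem_iff_lev h' hη hw h0 (f_W hA (h.sub h1))).2 (by linarith)
  · intro h1
    have h2 := (mem_iff_lev h' hη hw h0 (h'.sub h1)).1 h1
    have h3 := f_W (neg_mem hA) (h'.sub h1)
    rw [add_neg_cancel_right] at h3
    exact (mem_iff_lev h hη hw h0 h3).2 (by linarith)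

lemma f_negl (h : S.Vx o) (h' : S.Vx o') (hη : η ∈ S.C) (hw : w ∈ S.W) (h0 : lor w η = 0) {A : ℝ}
    (hA : A ∈ S.N η w) (e : lev o' η w = lev o η w + A) :
    lev o' η (-w) = lev o η (-w) + -A := by
  have e1 : ∀ s : ℝ, -w + s • η = -(w + (-s) • η) := fun s => by rw [neg_smul]; abel
  refine f_lev_eq h hη (S.neg w hw) (by rw [lor_neg_left, h0, neg_zero]) fun s => ?_
  rw [e1, e1, show -(s + -A) = -s + A by ring]
  have h1 := f_set h h' hη hw h0 hA e (-s)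
  constructor
  · intro h2
    have h3 : w + (-s) • η ∈ S.W := by simpa using S.neg _ (h.sub h2)
    exact h'.neg_mem (f_W hA h3) fun h4 => h.neg_not (h1.2 h4) h2
  · intro h2
    have h3 : w + (-s + A) • η ∈ S.W := neg_neg (w + (-s + A) • η) ▸ S.neg _ (h'.sub h2)
    have h4 := f_W (neg_mem hA) h3
    rw [add_neg_cancel_right] at h4
    exact h.neg_mem h4 fun h5 => h'.neg_not (h1.1 h5) h2

/-- transport of an adjacent wall through the cusp -/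
lemma R.transport (hη : η ∈ S.C) (h : S.R M η o o') (hu : Mn o u) (h0 : lor u η = 0) :
    ∃ a ∈ S.N η u, Mn o' (u + (M * a) • η) ∧ S.R M η (fl o u) (fl o' (u + (M * a) • η)) := by
  have hv := h.1.1
  have hv' := h.2.1.1
  have huW := hv.sub hu.1
  obtain ⟨a, ha, e⟩ := h.2.2 u huW h0
  have l0 := (mn_iff_lev h.1 hη huW h0).1 hu
  have hu'W : u + ((M : ℝ) * a) • η ∈ S.W := by
    simpa using f_W (s := 0) (f_mul ha M) (by simpa using huW)
  have hu' : Mn o' (u + ((M : ℝ) * a) • η) := (mn_iff_lev h.2.1 hη hu'W (f_lor hη h0 _)).2 (by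
    rw [lev_shift hv' hη huW h0]; linarith)
  refine ⟨a, ha, hu', h.1.fl hu h0, h.2.1.fl hu' (f_lor hη h0 _), fun w hw hw0 => ?_⟩
  obtain ⟨b, hb, eb⟩ := h.2.2 w hw hw0
  refine ⟨b, hb, f_lev_eq (hv.fl hu) hη hw hw0 fun s => ?_⟩
  have c1 : ∀ r : ℝ, w = u + r • η → (M : ℝ) * b = M * a := fun r hr => by
    rw [hr, lev_shift hv' hη huW h0, lev_shift hv hη huW h0] at eb
    linarith
  have c2 : ∀ r : ℝ, w = -u + r • η → (M : ℝ) * b = -(M * a) := fun r hr => by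
    have hn : lor (-u) η = 0 := by rw [lor_neg_left, h0, neg_zero]
    have := f_negl hv hv' hη huW h0 (f_mul ha M) e
    rw [hr, lev_shift hv' hη (S.neg u huW) hn, lev_shift hv hη (S.neg u huW) hn] at eb
    linarith
  have d1 : w + s • η = u ↔ w + (s + M * b) • η = u + ((M : ℝ) * a) • η := by
    constructor
    · intro h1
      rw [c1 (-s) (by rw [← h1, neg_smul]; abel), add_smul, ← add_assoc, h1]
    · intro h1
      rw [c1 (M * a - (s + M * b)) (by rw [sub_smul, ← add_sub_assoc, ← h1]; abel), add_smul,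
        ← add_assoc, add_left_inj] at h1
      exact h1
  have d2 : w + s • η = -u ↔ w + (s + M * b) • η = -(u + ((M : ℝ) * a) • η) := by
    constructor
    · intro h1
      rw [c2 (-s) (by rw [← h1, neg_smul]; abel), add_smul, ← add_assoc, h1, neg_smul, neg_add]
    · intro h1
      rw [neg_add, ← neg_smul] at h1
      rw [c2 (-(M * a) - (s + M * b)) (by rw [sub_smul, ← add_sub_assoc, ← h1]; abel), add_smul,
        ← add_assoc, add_left_inj] at h1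
      exact h1
  rw [mem_fl, mem_fl, d2, f_set hv hv' hη hw hw0 (f_mul hb M) eb s, Ne, Ne, d1]

lemma lt_shift {a : ℝ} (ha : a ∈ S.N η u) (M : ℕ) : S.Lt u (u + (M * a) • η) := by
  obtain ⟨g, hg, -, h2⟩ := mem_N.1 (f_mul ha M)
  exact ⟨g, hg, Or.inl h2.symm⟩

lemma finF (hη : η ∈ S.C) (hM : 0 < M) : ∃ Φ : Set (Set (Mink d)), Φ.Finite ∧
    ∀ o, S.Fl η o → ∃ o' ∈ Φ, S.R M η o o' := by
  obtain ⟨J, hJ, hJW, hJ0, hJa⟩ := S.dirs hη
  have := hJ.to_subtype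
  choose κ hκ hκ' using fun j : J => N_gen hη (hJW j.2) (hJ0 j j.2)
  have hp : ∀ j, 0 < (M : ℝ) * κ j := fun j => mul_pos (by exact_mod_cast hM) (hκ j)
  set c : Set (Mink d) → J → ℝ := fun o j => toIcoMod (hp j) 0 (lev o η j) with hc
  have hcl : ∀ o j, c o j = lev o η j + M * ((-toIcoDiv (hp j) 0 (lev o η j) : ℤ) * κ j) :=
    fun o j => by
      simp only [hc, toIcoMod, zsmul_eq_mul]
      push_cast
      ring
  have hf : (c '' {o | S.Fl η o}).Finite := by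
    refine (Set.Finite.pi' fun j : J => f_fin hη (j : Mink d) 0 (M * κ j)).subset ?_
    rintro _ ⟨o, ho, rfl⟩ j
    have h1 := toIcoMod_mem_Ico' (hp j) (lev o η j)
    refine ⟨h1.1, h1.2.le, ?_⟩
    rw [hcl]
    exact f_W (f_mul ((hκ' j _).2 ⟨_, rfl⟩) M) (ho.1.sub (lev_mem ho.1 hη (hJW j.2) (hJ0 j j.2)))
  obtain ⟨Φ, hΦ, hb⟩ := Set.exists_subset_bijOn {o | S.Fl η o} c
  refine ⟨Φ, hb.finite_iff_finite.2 hf, fun o ho => ?_⟩
  obtain ⟨o', ho', e⟩ := hb.surjOn ⟨o, ho, rfl⟩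
  refine ⟨o', ho', ho, hΦ ho', fun w hw h0 => ?_⟩
  obtain ⟨j, hj, s, rfl⟩ := hJa w hw h0
  have e1 := congrFun e ⟨j, hj⟩
  rw [hcl, hcl] at e1
  rw [N_shift, lev_shift ho.1 hη (hJW hj) (hJ0 j hj), lev_shift (hΦ ho').1 hη (hJW hj) (hJ0 j hj)]
  refine ⟨_, (hκ' ⟨j, hj⟩ _).2 ⟨toIcoDiv (hp ⟨j, hj⟩) 0 (lev o' η j) -
    toIcoDiv (hp ⟨j, hj⟩) 0 (lev o η j), rfl⟩, ?_⟩
  push_cast at e1 ⊢
  linarith

end Pool.Agent.Lib.MP_661727_gt.Ar.Sys
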