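import Pool.Agent.Lib.MP_661727_gt.Ar.E
import Pool.Agent.Lib.MP_661727_gt.Ar.F

/-! The canonical completion. -/

namespace Pool.Agent.Lib.MP_661727_gt.Ar.Sys

variable {d : ℕ} {G : Type} [Group G] {S : Sys d G} {o o' o'' : Set (Mink d)} {u w t ξ : Mink d}
  {M : ℕ}

lemma y_inv {h : G} (e : S.ρ h t = t) : S.ρ h⁻¹ t = t := by
  conv_lhs => rw [← e, S.ρ_inv]
lemma y_lor {h : G} {η : Mink d} (e : S.ρ h t = t) (h0 : lor t η = 0) : lor t (S.ρ h η) = 0 := by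
  rw [← e, S.isom, h0]
lemma y_act (h : G) (o : Set (Mink d)) : S.act h⁻¹ (S.act h o) = o := by
  rw [← act_mul, inv_mul_cancel, act_one]

lemma Eqv.refl (o : Set (Mink d)) : S.Eqv M t o o := ⟨1, S.Γ.one_mem, by simp, Or.inl act_one⟩
lemma Eqv.symm (h : S.Eqv M t o o') : S.Eqv M t o' o := by
  obtain ⟨h, hh, e, c | ⟨η, a, b, c⟩⟩ := h
  · exact ⟨h⁻¹, S.Γ.inv_mem hh, y_inv e, Or.inl (by rw [← c, y_act])⟩
  · refine ⟨h⁻¹, S.Γ.inv_mem hh, y_inv e, Or.inr ⟨_, S.invC h⁻¹ η a, y_lor (y_inv e) b, ?_⟩⟩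
    have := c.symm.act (S.Γ.inv_mem hh)
    rwa [y_act] at this
lemma Eqv.trans (h : S.Eqv M t o o') (h' : S.Eqv M t o' o'') : S.Eqv M t o o'' := by
  obtain ⟨h, hh, e, c⟩ := h
  obtain ⟨h', hh', e', c'⟩ := h'
  refine ⟨h' * h, S.Γ.mul_mem hh' hh, by rw [S.ρ_mul, e, e'], ?_⟩
  rw [act_mul]
  rcases c with c | ⟨η, a, b, c⟩
  · rwa [c]
  · have c2 := c.act hh'
    refine Or.inr ⟨_, S.invC h' η a, y_lor e' b, ?_⟩
    rcases c' with c' | ⟨η', a', b', c'⟩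
    · rwa [c'] at c2
    · exact c2.trans (Fl.uniq a' (S.invC h' η a) c'.1 c2.2.1 ▸ c')
lemma y_of_act {h : G} (hh : h ∈ S.Γ) (e : S.ρ h t = t) : S.Eqv M t o (S.act h o) :=
  ⟨h, hh, e, Or.inl rfl⟩
lemma y_of_R {η : Mink d} (hη : η ∈ S.C) (h0 : lor t η = 0) (r : S.R M η o o') : S.Eqv M t o o' :=
  ⟨1, S.Γ.one_mem, by simp, Or.inr ⟨η, hη, h0, by rwa [act_one]⟩⟩
lemma y_shift {η : Mink d} (hη : η ∈ S.C) (h0 : lor u η = 0) (s : ℝ) : lor (u + s • η) η = 0 := by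
  rw [lor_add_left, lor_smul_left, h0, (S.light η hη).1]; ring

/-- two edges at equivalent vertices have representatives at one vertex -/
lemma transfer (ht : t ∈ S.W) (hs : S.Sep M t) (h : S.Eqv M t o o') (ho : S.Z t o) (ho' : S.Z t o')
    (hu : Mn o u) (hU : S.U t u) (hw : Mn o' w) (hW : S.U t w) :
    ∃ o1 u1 w1, S.Z t o1 ∧ S.Eqv M t o o1 ∧ Mn o1 u1 ∧ Mn o1 w1 ∧ S.U t u1 ∧ S.U t w1 ∧
      S.Lt u u1 ∧ S.Lt w w1 ∧ S.Eqv M t (fl o u) (fl o1 u1) ∧ S.Eqv M t (fl o' w) (fl o1 w1) := by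
  have one : ∀ h ∈ S.Γ, S.ρ h t = t → S.act h o = o' → ∃ o1 u1 w1, S.Z t o1 ∧ S.Eqv M t o o1 ∧
      Mn o1 u1 ∧ Mn o1 w1 ∧ S.U t u1 ∧ S.U t w1 ∧ S.Lt u u1 ∧ S.Lt w w1 ∧
      S.Eqv M t (fl o u) (fl o1 u1) ∧ S.Eqv M t (fl o' w) (fl o1 w1) := fun h hh e c =>
    ⟨o', S.ρ h u, w, ho', c ▸ y_of_act hh e, c ▸ mn_act.2 hu, hw, e ▸ hU.act h, hW,
      (Lt.refl u).act hh, Lt.refl w, by rw [← c, fl_act]; exact y_of_act hh e, Eqv.refl _⟩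
  obtain ⟨h, hh, e, c | ⟨η, a, b, r⟩⟩ := h
  · exact one h hh e c
  have m2 : Mn (S.act h o) (S.ρ h u) := mn_act.2 hu
  have U2 : S.U t (S.ρ h u) := e ▸ hU.act h
  have E2 : S.Eqv M t (fl o u) (fl (S.act h o) (S.ρ h u)) := by rw [fl_act]; exact y_of_act hh e
  by_cases c1 : lor (S.ρ h u) η = 0
  · obtain ⟨s, hs, m, r'⟩ := r.transport a m2 c1
    exact ⟨o', _, w, ho', ⟨h, hh, e, Or.inr ⟨η, a, b, r⟩⟩, m, hw, Or.inr ⟨η, a, y_shift a c1 _, b⟩,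
      hW, ((Lt.refl u).act hh).trans (lt_shift hs M), Lt.refl w, E2.trans (y_of_R a b r'),
      Eqv.refl _⟩
  by_cases c2 : lor w η = 0
  · obtain ⟨s, hs, m, r'⟩ := r.symm.transport a hw c2
    exact ⟨_, _, _, ho.act hh e, y_of_act hh e, m2, m, U2, Or.inr ⟨η, a, y_shift a c2 _, b⟩,
      (Lt.refl u).act hh, lt_shift hs M, E2, y_of_R a b r'⟩
  obtain ⟨h', hh', e', c⟩ := hs η a b _ _ ⟨r.1, _, m2, U2, c1⟩ ⟨r.2.1, _, hw, hW, c2⟩ r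
  exact one (h' * h) (S.Γ.mul_mem hh' hh) (by rw [S.ρ_mul, e, e']) (by rwa [act_mul])

/-- involutions from symmetric functional relations -/
lemma y_perm {X Y : Type} (St : X → Y → Y → Prop) (h1 : ∀ u y y', St u y y' → St u y' y)
    (h2 : ∀ u y y1 y2, St u y y1 → St u y y2 → y1 = y2) : ∃ σ : X → Equiv.Perm Y,
      (∀ u, (σ u)⁻¹ = σ u) ∧ (∀ u y y', St u y y' → σ u y = y') ∧
      (∀ u y, σ u y = y ∧ (∀ y', ¬ St u y y') ∨ St u y (σ u y)) := by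
  classical
  let τ : X → Y → Y := fun u y => if h : ∃ y', St u y y' then h.choose else y
  have a1 : ∀ u y y', St u y y' → τ u y = y' := fun u y y' h => by
    have h' : ∃ y', St u y y' := ⟨y', h⟩
    simp only [τ, dif_pos h']
    exact h2 u y _ _ h'.choose_spec h
  have a2 : ∀ u y, τ u y = y ∧ (∀ y', ¬ St u y y') ∨ St u y (τ u y) := fun u y => by
    by_cases h : ∃ y', St u y y'
    · obtain ⟨y', h⟩ := h
      exact Or.inr (a1 u y y' h ▸ h)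
    · exact Or.inl ⟨dif_neg h, not_exists.1 h⟩
  have a3 : ∀ u, Function.Involutive (τ u) := fun u y => by
    rcases a2 u y with h | h
    · rw [h.1, h.1]
    · exact a1 _ _ _ (h1 _ _ _ h)
  exact ⟨fun u => (a3 u).toPerm _, fun u => rfl, a1, a2⟩

lemma y_cross (hS : S.Spec) {u1 w1 : Mink d} (h : S.Vx o) (m1 : Mn o u1) (m2 : Mn o w1)
    (l1 : S.Lt u u1) (l2 : S.Lt w w1) (c : |lor u w| < 1) : |lor u1 w1| < 1 := by
  obtain ⟨g, hg, e⟩ := l1.symm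
  obtain ⟨g', hg', e'⟩ := l2
  refine hS.cross o _ _ h m1 m2 (g' * g) (S.Γ.mul_mem hg' hg) ?_
  rw [S.ρ_mul]
  rcases e with rfl | rfl <;> rcases e' with rfl | rfl <;>
    simpa only [lor_neg_left, lor_neg_right, abs_neg, S.isom] using c

lemma y_fin (ht : t ∈ S.W) (hM : 0 < M) : ∃ Φ : Set (Set (Mink d)), Φ.Finite ∧
    ∀ o, S.Z t o → ∃ o' ∈ Φ, S.Z t o' ∧ S.Eqv M t o o' := by
  obtain ⟨Φ, hΦ, h1⟩ := finZ ht
  obtain ⟨Ψ, hΨ, h2⟩ := finC ht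
  choose! Θ hΘ h3 using fun η (hη : η ∈ S.C) => finF hη hM
  refine ⟨Φ ∪ ⋃ η ∈ Ψ ∩ S.C, Θ η, hΦ.union ((hΨ.inter_of_left _).biUnion fun η hη => hΘ η hη.2),
    fun o z => ?_⟩
  rcases h1 o z with ⟨η, a, b, f⟩ | ⟨h, hh, e, c⟩
  · obtain ⟨h, hh, e, c⟩ := h2 η a b
    have a' := S.invC h η a
    obtain ⟨o', p, r⟩ := h3 _ a' _ (f.act hh)
    exact ⟨o', Or.inr (Set.mem_biUnion (⟨c, a'⟩ : S.ρ h η ∈ Ψ ∩ S.C) p),
      r.2.1.z ht a' (y_lor e b), h, hh, e, Or.inr ⟨_, a', y_lor e b, r⟩⟩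
  · exact ⟨_, Or.inl c, z.act hh e, y_of_act hh e⟩

theorem exists_cmp (hS : S.Spec) (ht : t ∈ S.W) (hξ : ξ ∈ S.C) (h0 : lor t ξ = 0) (hM : 0 < M)
    (hs : S.Sep M t) : ∃ (Y : Type) (_ : Finite Y) (cl : Set (Mink d) → Y)
      (σ : Mink d → Equiv.Perm Y), S.Cmp M t Y cl σ := by
  classical
  obtain ⟨o0, f0⟩ := exists_fl0 hξ
  let s : Setoid {o // S.Z t o} :=
    ⟨fun a b => S.Eqv M t a.1 b.1, fun a => Eqv.refl _, Eqv.symm, Eqv.trans⟩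
  let cl : Set (Mink d) → Quotient s := fun o =>
    if h : S.Z t o then Quotient.mk s ⟨o, h⟩ else Quotient.mk s ⟨o0, f0.z ht hξ h0⟩
  have hcl : ∀ o (h : S.Z t o), cl o = Quotient.mk s ⟨o, h⟩ := fun o h => dif_pos h
  have heq : ∀ o o', S.Z t o → S.Z t o' → (cl o = cl o' ↔ S.Eqv M t o o') := fun o o' h h' => by
    rw [hcl o h, hcl o' h', Quotient.eq]; rfl
  have hfin : Finite (Quotient s) := by
    obtain ⟨Φ, hΦ, h1⟩ := y_fin ht hM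
    refine Set.finite_univ_iff.1 ((hΦ.image cl).subset fun y _ => ?_)
    obtain ⟨⟨o, z⟩, rfl⟩ := Quotient.exists_rep y
    obtain ⟨o', p, z', e⟩ := h1 o z
    exact ⟨o', p, by rw [← hcl o z]; exact ((heq _ _ z z').2 e).symm⟩
  let St : Mink d → Quotient s → Quotient s → Prop := fun u y y' => ∃ o u', S.Z t o ∧ Mn o u' ∧
    S.U t u' ∧ S.Lt u u' ∧ cl o = y ∧ cl (fl o u') = y'
  have two : ∀ u w y y1 y2, St u y y1 → St w y y2 → ∃ o u1 w1, S.Z t o ∧ Mn o u1 ∧ Mn o w1 ∧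
      S.U t u1 ∧ S.U t w1 ∧ S.Lt u u1 ∧ S.Lt w w1 ∧ cl (fl o u1) = y1 ∧ cl (fl o w1) = y2 := by
    rintro u w y _ _ ⟨o, u', z, m, U, l, e, rfl⟩ ⟨o', w', z', m', U', l', e', rfl⟩
    obtain ⟨o1, u1, w1, z1, -, m1, m2, U1, U2, l1, l2, E1, E2⟩ :=
      transfer ht hs ((heq _ _ z z').1 (e.trans e'.symm)) z z' m U m' U'
    exact ⟨o1, u1, w1, z1, m1, m2, U1, U2, l.trans l1, l'.trans l2,
      ((heq _ _ (z.fl m U) (z1.fl m1 U1)).2 E1).symm, ((heq _ _ (z'.fl m' U') (z1.fl m2 U2)).2 E2).symm⟩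
  have sy : ∀ u y y', St u y y' → St u y' y := by
    rintro u _ _ ⟨o, u', z, m, U, l, rfl, rfl⟩
    exact ⟨_, -u', z.fl m U, z.1.mn_fl m, U.neg, l.neg, rfl, by rw [z.1.fl_fl m.1]⟩
  have fn : ∀ u y y1 y2, St u y y1 → St u y y2 → y1 = y2 := fun u y y1 y2 a b => by
    obtain ⟨o, u1, w1, z, m1, m2, -, -, l1, l2, rfl, rfl⟩ := two _ _ _ _ _ a b
    rw [hS.same o _ _ z.1 m1 m2 (l1.symm.trans l2)]
  have dia : ∀ u w y y1 y2, |lor u w| < 1 → St u y y1 → St w y y2 →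
      ∃ y3, St w y1 y3 ∧ St u y2 y3 := fun u w y y1 y2 c a b => by
    obtain ⟨o, u1, w1, z, m1, m2, U1, U2, l1, l2, rfl, rfl⟩ := two _ _ _ _ _ a b
    have c1 := y_cross hS z.1 m1 m2 l1 l2 c
    have s1 := z.1.square m1 m2 c1
    have s2 := z.1.square m2 m1 (by rwa [lor_comm])
    exact ⟨_, ⟨_, w1, z.fl m1 U1, s1.1, U2, l2, rfl, rfl⟩,
      ⟨_, u1, z.fl m2 U2, s2.1, U1, l1, rfl, by rw [s1.2]⟩⟩
  obtain ⟨σ, s1, s2, s3⟩ := y_perm St sy fn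
  have lt : ∀ u u2, S.Lt u u2 → σ u2 = σ u := fun u u2 l => by
    ext1 y
    rcases s3 u y with h | ⟨o, u', z, m, U, l', e, e'⟩
    · rcases s3 u2 y with h' | ⟨o, u', z, m, U, l', e, e'⟩
      · rw [h.1, h'.1]
      · exact absurd ⟨o, u', z, m, U, l.trans l', e, e'⟩ (h.2 _)
    · exact s2 _ _ _ ⟨o, u', z, m, U, l.symm.trans l', e, e'⟩
  refine ⟨_, hfin, cl, σ, heq, fun u => ?_, fun g hg u => lt _ _ ((Lt.refl u).act hg),
    fun u _ w _ c => ?_, fun o u z m U => ?_, fun u y => ?_⟩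
  · rw [s1]; exact lt _ _ (Lt.refl u).neg
  · have c' : |lor w u| < 1 := by rwa [lor_comm]
    have half : ∀ u w y, |lor u w| < 1 → (σ w y = y ∧ ∀ y', ¬ St w y y') →
        σ u (σ w y) = σ w (σ u y) := fun u w y c h => by
      rw [h.1]
      rcases s3 u y with a | a
      · rw [a.1, h.1]
      · rcases s3 w (σ u y) with b | b
        · exact b.1.symm
        · obtain ⟨y3, p, -⟩ := dia _ _ _ _ _ c (sy _ _ _ a) b
          exact absurd p (h.2 _)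
    ext1 y
    simp only [Equiv.Perm.mul_apply]
    rcases s3 w y with b | b
    · exact half u w y c b
    rcases s3 u y with a | a
    · exact (half w u y c' a).symm
    obtain ⟨y3, p, q⟩ := dia _ _ _ _ _ c a b
    rw [s2 _ _ _ p, s2 _ _ _ q]
  · rw [s1]; exact s2 _ _ _ ⟨o, u, z, m, U, Lt.refl u, rfl, rfl⟩
  · rw [s1]
    rcases s3 u y with a | ⟨o, u', z, m, U, l, e, e'⟩
    · exact Or.inl a.1
    · exact Or.inr ⟨o, u', z, m, U, l, e, e'.symm⟩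

end Pool.Agent.Lib.MP_661727_gt.Ar.Sys
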