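import Pool.Agent.Lib.MP_661727_gt.Ar.Sep
import Pool.Agent.Lib.MP_661727_gt.Ar.Y

/-! The subgroup that separates the cusps. -/

namespace Pool.Agent.Lib.MP_661727_gt.Ar.Sys

variable {d : ℕ} {G : Type} [Group G] {S : Sys d G} {t ξ : Mink d}

/-- equivalence with a vertex of a flat -/
lemma k_eqv {M : ℕ} {η : Mink d} {o o1 : Set (Mink d)} (hη : η ∈ S.C) (h : S.Eqv M t o o1)
    (h1 : S.Fl η o1) : ∃ h ∈ S.Γ, S.ρ h t = t ∧ S.R M η (S.act h o) o1 := by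
  obtain ⟨h, hh, e, c | ⟨η', a, -, c⟩⟩ := h
  · exact ⟨h, hh, e, c ▸ R.refl (c ▸ h1)⟩
  · exact ⟨h, hh, e, Fl.uniq a hη c.2.1 h1 ▸ c⟩

lemma k_abs {a b B : ℝ} (h1 : B < a) (h2 : a + B < b) (n : ℤ) : B < |a - n * b| := by
  rcases le_or_gt n 0 with hn | hn
  · have : (n : ℝ) ≤ 0 := by exact_mod_cast hn
    by_cases hb : 0 ≤ b
    · exact lt_abs.2 (Or.inl (by nlinarith))
    · exact lt_of_lt_of_le (by linarith) (abs_nonneg _)
  · have : (1 : ℝ) ≤ n := by exact_mod_cast hn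
    by_cases hb : 0 ≤ b
    · exact lt_abs.2 (Or.inr (by nlinarith))
    · exact lt_of_lt_of_le (by linarith) (abs_nonneg _)

/-- the classes of the vertices of the flat adjacent to `t + a ξ` are invariant -/
lemma k_inv (hS : S.Spec) (ht : t ∈ S.W) (hξ : ξ ∈ S.C) (h0 : lor t ξ = 0) {M : ℕ} {Y : Type}
    {cl : Set (Mink d) → Y} {σ : Mink d → Equiv.Perm Y} (hc : S.Cmp M t Y cl σ) {κ a B : ℝ}
    (hκ : ∀ a, a ∈ S.N ξ t ↔ ∃ n : ℤ, a = n * κ) (hB : ∀ o, S.Ex t ξ o → |lev o ξ t| ≤ B)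
    (h1 : B < a) (h2 : a + B < M * κ) {u : Mink d} (hu : |lor u (t + a • ξ)| < 1)
    {o1 : Set (Mink d)} (f1 : S.Fl ξ o1) (m1 : Mn o1 (t + a • ξ)) :
    ∃ o2, S.Fl ξ o2 ∧ Mn o2 (t + a • ξ) ∧ cl o2 = (σ u)⁻¹ (cl o1) := by
  rcases hc.cases u (cl o1) with e | ⟨o, u', z, m, hU, lt, e, e'⟩
  · exact ⟨o1, f1, m1, e.symm⟩
  obtain ⟨h, hh, ht', r⟩ := k_eqv hξ ((hc.eq _ _ z (f1.z ht hξ h0)).1 e) f1
  have m3 : Mn (S.act h o) (S.ρ h u') := mn_act.2 m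
  have U3 : S.U t (S.ρ h u') := ht' ▸ hU.act h
  have hs : lor (t + a • ξ) ξ = 0 := by
    rw [lor_add_left, lor_smul_left, h0, (S.light ξ hξ).1]; ring
  by_cases c : lor (S.ρ h u') ξ = 0
  · obtain ⟨a', ha', m4, r4⟩ := r.transport hξ m3 c
    have l4 : S.Lt u (S.ρ h u' + (M * a') • ξ) := (lt.act hh).trans (lt_shift ha' M)
    have c4 : lor (S.ρ h u' + (M * a') • ξ) ξ = 0 := by
      rw [lor_add_left, lor_smul_left, c, (S.light ξ hξ).1]; ring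
    obtain ⟨g, hg, eg⟩ := l4.symm
    have x4 : |lor (S.ρ h u' + (M * a') • ξ) (t + a • ξ)| < 1 := by
      refine hS.cross o1 _ _ f1.1 m4 m1 g hg ?_
      rcases eg with eg | eg
      · rwa [← eg]
      · rwa [eg, lor_neg_left, abs_neg] at hu
    refine ⟨_, f1.fl m4 c4, (f1.1.square m4 m1 x4).1, ?_⟩
    rw [e']
    refine ((hc.eq _ _ (z.fl m hU) ((f1.fl m4 c4).z ht hξ h0)).2 ⟨h, hh, ht', Or.inr ⟨ξ, hξ, h0, ?_⟩⟩).symm
    rwa [← fl_act]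
  · exfalso
    have b3 := hB _ ⟨r.1, _, m3, U3, c⟩
    obtain ⟨a', ha', e3⟩ := r.2.2 t ht h0
    obtain ⟨n, rfl⟩ := (hκ a').1 ha'
    have e4 := (mn_iff_lev f1 hξ (f1.1.sub m1.1) hs).1 m1
    rw [lev_shift f1.1 hξ ht h0] at e4
    have e5 : lev (S.act h o) ξ t = a - n * (M * κ) := by linarith
    rw [e5] at b3
    exact absurd (k_abs h1 h2 n) (not_lt.2 b3)

/-- walls between two vertices adjacent to `s` cross `s` -/
lemma k_cross {o o' : Set (Mink d)} {s u : Mink d} (h : S.Vx o) (h' : S.Vx o') (m : Mn o s)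
    (m' : Mn o' s) (hu : u ∈ o) (hu' : u ∉ o') : |lor u s| < 1 := by
  have hW := h.sub hu
  refine (cross_iff (S.unit u hW) (S.unit s (h.sub m.1))).2 ⟨fun l => hu' ?_, fun l => hu' ?_,
    h.not_le hu m.1, fun l => ?_⟩
  · rw [m.2 u hu l]; exact m'.1
  · exact h'.up s m'.1 u hW l
  · have := m'.2 _ (h'.neg_mem hW hu') (neg_le_iff.1 l)
    exact h.neg_not hu (this ▸ m.1)

theorem exists_two (hS : S.Spec) (ht : t ∈ S.W) (hξ : ξ ∈ S.C) (h0 : lor t ξ = 0) :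
    ∃ (K : Subgroup G) (a b : ℝ), S.Two t ξ K a b := by
  obtain ⟨κ, hκ0, hκ⟩ := N_gen hξ ht h0
  obtain ⟨B, hB⟩ := ex_bd ht hξ h0
  obtain ⟨M0, hM0, hsep⟩ := exists_sep ht
  obtain ⟨p0, hp0, p1, p2⟩ := (hκ κ).2 ⟨1, by simp⟩
  obtain ⟨m, hm⟩ := exists_nat_gt (|B| / κ)
  have hm' : |B| < m * κ := (div_lt_iff₀ hκ0).1 hm
  have hBB := le_abs_self B
  have hB0 := abs_nonneg B
  set M := M0 * (2 * m) with hM
  have hMκ : m * κ + |B| < M * κ := by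
    have : (1 : ℝ) ≤ M0 := by exact_mod_cast hM0
    have h2 : (0 : ℝ) ≤ m * κ := by linarith
    rw [hM]; push_cast; nlinarith
  have hMpos : 0 < M := by
    rcases Nat.eq_zero_or_pos M with e | e
    · rw [e] at hMκ; simp only [Nat.cast_zero, zero_mul] at hMκ; linarith
    · exact e
  obtain ⟨Y, hY, cl, σ, hc⟩ := exists_cmp hS ht hξ h0 hMpos (hsep M ⟨_, rfl⟩)
  obtain ⟨o0, f0⟩ := exists_fl0 hξ
  obtain ⟨f, e0, hf⟩ := exists_pot σ (fun u _ => hc.neg u) hc.comm f0.1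
  have hact : ∀ g ∈ S.Γ, ∀ o, S.Vx o → f (S.act g o) = f (S.act g o0) * f o := fun g hg o ho =>
    pot_act f0.1 e0 hf hg (fun u _ => hc.inv g hg u) ho
  let φ : S.Γ →* Equiv.Perm Y := MonoidHom.mk' (fun g => f (S.act g o0)) fun g h => by
    simp only [Subgroup.coe_mul, act_mul]
    exact hact g g.2 _ (f0.1.act h.2)
  let K : Subgroup G := ((MulAction.stabilizer (Equiv.Perm Y) (cl o0)).comap φ).map S.Γ.subtype
  have hK : ∀ g, g ∈ K ↔ g ∈ S.Γ ∧ (f (S.act g o0))⁻¹ (cl o0) = cl o0 := fun g => by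
    rw [Equiv.Perm.inv_eq_iff_eq]
    exact ⟨by rintro ⟨g, a, rfl⟩; exact ⟨g.2, Eq.symm a⟩, fun ⟨a, b⟩ => ⟨⟨g, a⟩, b.symm, rfl⟩⟩
  have z0 := f0.z ht hξ h0
  have posZ : ∀ o, S.Z t o → (f o)⁻¹ (cl o0) = cl o := fun o z =>
    (path_ind f0.1 z.1 (fun o1 => S.Z t o1 ∧ (f o1)⁻¹ (cl o0) = cl o1) ⟨z0, by simp [e0]⟩
      fun o1 u v1 p m a b => by
        have hU := Z.diff ht hξ h0 z0 z a b
        refine ⟨p.1.fl m hU, ?_⟩
        rw [hf _ _ v1 m, mul_inv_rev, Equiv.Perm.mul_apply, p.2, hc.step _ _ p.1 m hU]).2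
  have posK : ∀ g ∈ K, ∀ o, S.Vx o → (f (S.act g o))⁻¹ (cl o0) = (f o)⁻¹ (cl o0) :=
    fun g hg o ho => by
      rw [hact g ((hK g).1 hg).1 o ho, mul_inv_rev, Equiv.Perm.mul_apply, ((hK g).1 hg).2]
  have fixK : ∀ h ∈ S.Γ, S.ρ h t = t → h ∈ K := fun h hh e => (hK h).2 ⟨hh, by
    rw [posZ _ (z0.act hh e)]
    exact ((hc.eq _ _ z0 (z0.act hh e)).2 ⟨h, hh, e, Or.inl rfl⟩).symm⟩
  have hle : K ≤ S.Γ := fun g hg => ((hK g).1 hg).1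
  have pw : ∀ n : ℕ, S.ρ (p0 ^ n) ξ = ξ ∧ S.ρ (p0 ^ n) t = t + (n * κ) • ξ := fun n => by
    simpa using S.ρ_zpow p1 p2 n
  have hs : t + (m * κ) • ξ ∈ S.W := (pw m).2 ▸ S.inv _ (S.Γ.pow_mem hp0 m) t ht
  have hs0 : lor (t + (m * κ) • ξ) ξ = 0 := by
    rw [lor_add_left, lor_smul_left, h0, (S.light ξ hξ).1]; ring
  refine ⟨K, m * κ, M * κ, hle, ?_, by linarith, by linarith, hs,
    ⟨_, S.Γ.pow_mem hp0 m, Or.inl (pw m).2.symm⟩, ⟨p0 ^ M, ?_, pw M⟩, ?_⟩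
  · have := S.fi
    have h1 : ((MulAction.stabilizer (Equiv.Perm Y) (cl o0)).comap φ).FiniteIndex :=
      Subgroup.finiteIndex_of_le (H := φ.ker) fun g hg => by
        rw [Subgroup.mem_comap, MonoidHom.mem_ker.1 hg]; exact Subgroup.one_mem _
    refine ⟨?_⟩
    rw [Subgroup.index_map_subtype]
    exact mul_ne_zero h1.1 this.1
  · have r := R.of_act (M := M) hξ f0 hp0 p1
    refine (hK _).2 ⟨S.Γ.pow_mem hp0 M, ?_⟩
    rw [posZ _ (r.2.1.z ht hξ h0)]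
    exact ((hc.eq _ _ z0 (r.2.1.z ht hξ h0)).2
      ⟨1, S.Γ.one_mem, by simp, Or.inr ⟨ξ, hξ, h0, by rwa [act_one]⟩⟩).symm
  · intro γ hγ η hη e1 e2
    obtain ⟨o, fo, mo⟩ := exists_fl hη (S.inv γ (hle hγ) _ hs) e2
    have hγ' := K.inv_mem hγ
    have v' := fo.1.act (hle hγ')
    have m' : Mn (S.act γ⁻¹ o) (t + (m * κ) • ξ) := by
      have := (mn_act (S := S) (g := γ⁻¹)).2 mo
      rwa [S.ρ_inv] at this
    obtain ⟨o2, f2, m2⟩ := exists_fl hξ hs hs0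
    obtain ⟨o1, f1, m1, c1⟩ := path_ind f2.1 v' (fun o' => ∃ o1, S.Fl ξ o1 ∧
        Mn o1 (t + (m * κ) • ξ) ∧ cl o1 = (f o')⁻¹ (cl o0))
      ⟨o2, f2, m2, (posZ _ (f2.z ht hξ h0)).symm⟩ (by
        rintro o' u v ⟨o1, f1, m1, c1⟩ mu a b
        rw [hf _ _ v mu, mul_inv_rev, Equiv.Perm.mul_apply, ← c1]
        exact k_inv hS ht hξ h0 hc hκ (fun o e => (hB o e).1) (by linarith) (by linarith)
          (k_cross f2.1 v' m2 m' a b) f1 m1)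
    rw [posK _ hγ' _ fo.1, posZ _ (fo.z ht hη e1)] at c1
    obtain ⟨h, hh, eh, r⟩ := k_eqv hη ((hc.eq _ _ (f1.z ht hξ h0) (fo.z ht hη e1)).1 c1) fo
    have eη : S.ρ h ξ = η := Fl.uniq (S.invC h ξ hξ) hη (f1.act hh) r.1
    obtain ⟨a', ha', m4, -⟩ := r.transport hη (mn_act.2 m1) (by rw [← eη, S.isom, hs0])
    have l4 := lt_shift ha' M
    rw [← eη, N_act hh, N_shift] at ha'
    obtain ⟨n, rfl⟩ := (hκ a').1 ha'
    refine ⟨h, fixK h hh eh, eh, eη, n, Or.inl ?_⟩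
    have := hS.same o _ _ fo.1 m4 mo (l4.symm.trans
      ((((Lt.refl _).act hh).symm).trans ((Lt.refl _).act (hle hγ))))
    rw [this, ← eη, ← map_smul, ← map_add, add_assoc, ← add_smul]
    congr 3
    ring

end Pool.Agent.Lib.MP_661727_gt.Ar.Sys
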