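import Pool.Agent.Lib.MP_661727_gt.Ar.E
import Pool.Agent.Lib.MP_661727_gt.Ar.F

/-! Choice of the modulus. -/

namespace Pool.Agent.Lib.MP_661727_gt.Ar.Sys

variable {d : ℕ} {G : Type} [Group G] {S : Sys d G} {o o' : Set (Mink d)} {t η ξ : Mink d}

/-- an infinitely divisible element of a finitely generated abelian group vanishes -/
lemma sep_div {A : Type} [AddCommGroup A] [Module.Finite ℤ A] (x : A)
    (h : ∀ M : ℕ, 0 < M → ∃ y, x = (M : ℤ) • y) : x = 0 := by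
  have key : ∀ m : ℕ, 0 < m → ∃ r : ℤ, (m : ℤ) ∣ r ∧ r • x = x := by
    intro m hm
    have h1 : x ∈ (⨅ i : ℕ, (Ideal.span {(m : ℤ)}) ^ i • ⊤ : Submodule ℤ A) := by
      rw [Submodule.mem_iInf]
      intro i
      obtain ⟨y, hy⟩ := h (m ^ i) (pow_pos hm i)
      rw [hy]
      refine Submodule.smul_mem_smul ?_ Submodule.mem_top
      push_cast
      exact Ideal.pow_mem_pow (Ideal.mem_span_singleton_self _) i
    obtain ⟨r, hr⟩ := (Ideal.mem_iInf_smul_pow_eq_bot_iff _ x).1 h1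
    exact ⟨r, Ideal.mem_span_singleton.1 r.2, hr⟩
  obtain ⟨r, hr, hx⟩ := key 2 (by norm_num)
  have h0 : (r - 1) • x = 0 := by rw [sub_smul, hx, one_smul, sub_self]
  have hne : r - 1 ≠ 0 := by
    intro hc
    have : r = 1 := by omega
    rw [this] at hr
    norm_num at hr
  obtain ⟨r', hr', hx'⟩ := key (r - 1).natAbs (Int.natAbs_pos.2 hne)
  obtain ⟨c, hc⟩ := Int.natAbs_dvd.1 hr'
  rw [← hx', hc, mul_comm, mul_smul, h0, smul_zero]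

lemma sep_lev {h : G} {j : Mink d} {s : ℝ} (hη : η ∈ S.C) (hV : S.Vx o) (hh : h ∈ S.Γ)
    (h1 : S.ρ h η = η) (hj : j ∈ S.W) (h0 : lor j η = 0) (h2 : S.ρ h j = j + s • η) :
    lev (S.act h o) η j = lev o η j + s := by
  have e1 := lev_act (S := S) h o η j
  rw [h1, h2, lev_shift (hV.act hh) hη hj h0] at e1
  linarith

lemma sep_act_inv (h : G) (o : Set (Mink d)) : S.act h⁻¹ (S.act h o) = o := by
  rw [← act_mul, inv_mul_cancel, act_one]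

lemma sep_fix_inv {h : G} {v : Mink d} (h1 : S.ρ h v = v) : S.ρ h⁻¹ v = v := by
  conv_lhs => rw [← h1, S.ρ_inv]

lemma sep1 (hη : η ∈ S.C)
    (h : ∀ M : ℕ, 0 < M → ∃ h ∈ S.Γ, S.ρ h η = η ∧ S.ρ h t = t ∧ S.R M η o (S.act h o')) :
    ∃ h ∈ S.Γ, S.ρ h t = t ∧ o = S.act h o' := by
  classical
  obtain ⟨J, hJ, hJW, hJ0, hJs⟩ := S.dirs hη
  haveI : Finite J := hJ
  choose κ hκ hN using fun j : J => N_gen (S := S) hη (hJW j.2) (hJ0 j j.2)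
  have hF : S.Fl η o ∧ S.Fl η o' := by
    obtain ⟨g, hg, h1, -, h3, h4, -⟩ := h 1 one_pos
    refine ⟨h3, ?_⟩
    have := h4.act (S.Γ.inv_mem hg)
    rwa [sep_act_inv, sep_fix_inv h1] at this
  let B : Submodule ℤ (J → ℤ) := AddSubgroup.toIntSubmodule
    { carrier := {n | ∃ g ∈ S.Γ, S.ρ g η = η ∧ S.ρ g t = t ∧
        ∀ j : J, S.ρ g j = (j : Mink d) + ((n j : ℝ) * κ j) • η}
      zero_mem' := ⟨1, S.Γ.one_mem, by simp, by simp, by simp⟩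
      add_mem' := by
        rintro a b ⟨g, hg, h1, h2, h3⟩ ⟨g', hg', h4, h5, h6⟩
        refine ⟨g * g', S.Γ.mul_mem hg hg', by rw [S.ρ_mul, h4, h1], by rw [S.ρ_mul, h5, h2],
          fun j => ?_⟩
        rw [S.ρ_mul, h6, map_add, map_smul, h3, h1, add_assoc, ← add_smul]
        simp [add_mul]
      neg_mem' := by
        rintro a ⟨g, hg, h1, h2, h3⟩
        refine ⟨g⁻¹, S.Γ.inv_mem hg, sep_fix_inv h1, sep_fix_inv h2, fun j => ?_⟩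
        have h5 := S.ρ_inv g j
        rw [h3, map_add, map_smul, sep_fix_inv h1] at h5
        rw [eq_sub_of_add_eq h5]
        simp [sub_eq_add_neg] }
  have main : ∀ M : ℕ, 0 < M → ∃ n ∈ B, ∃ m : J → ℤ, ∀ j : J,
      lev o η j - lev o' η j = ((n j - M * m j : ℤ) : ℝ) * κ j := by
    intro M hM
    obtain ⟨g, hg, h1, h2, -, -, h5⟩ := h M hM
    have e1 : ∀ j : J, ∃ n : ℤ, S.ρ g j = (j : Mink d) + ((n : ℝ) * κ j) • η := by
      intro j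
      obtain ⟨s, hs⟩ := S.transl g η hη h1 j (hJ0 j j.2)
      obtain ⟨n, hn⟩ := (hN j s).1 ⟨g, hg, h1, hs⟩
      exact ⟨n, by rw [hs, hn]⟩
    have e2 : ∀ j : J, ∃ m : ℤ, lev (S.act g o') η j = lev o η j + M * (m * κ j) := by
      intro j
      obtain ⟨a, ha, e⟩ := h5 j (hJW j.2) (hJ0 j j.2)
      obtain ⟨m, hm⟩ := (hN j a).1 ha
      exact ⟨m, by rw [e, hm]⟩
    choose n hn using e1
    choose m hm using e2
    refine ⟨n, ⟨g, hg, h1, h2, hn⟩, m, fun j => ?_⟩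
    have e3 := sep_lev hη hF.2.1 hg h1 (hJW j.2) (hJ0 j j.2) (hn j)
    rw [hm j] at e3
    push_cast
    linarith
  obtain ⟨n1, -, m1, h1⟩ := main 1 one_pos
  set n0 : J → ℤ := fun j => n1 j - (1 : ℕ) * m1 j with hn0
  have hz : B.mkQ n0 = 0 := by
    refine sep_div _ fun M hM => ?_
    obtain ⟨n, hn, m, hm⟩ := main M hM
    have e : n0 = n + (M : ℤ) • (-m) := by
      funext j
      have e1 := (h1 j).symm.trans (hm j)
      have e2 := Int.cast_injective (mul_right_cancel₀ (hκ j).ne' e1)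
      simp only [hn0, e2, Pi.add_apply, Pi.smul_apply, Pi.neg_apply, smul_eq_mul]
      ring
    refine ⟨B.mkQ (-m), ?_⟩
    rw [e, map_add, map_smul, Submodule.mkQ_apply, (Submodule.Quotient.mk_eq_zero B).2 hn, zero_add]
  obtain ⟨g, hg, h2, h3, h4⟩ : n0 ∈ B := (Submodule.Quotient.mk_eq_zero B).1 hz
  have hF' : S.Fl η (S.act g o') := by
    have := hF.2.act hg
    rwa [h2] at this
  refine ⟨g, hg, h3, Fl.ext hη hF.1 hF' fun w hw h0 => ?_⟩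
  obtain ⟨j, hj, s, rfl⟩ := hJs w hw h0
  rw [lev_shift hF.1.1 hη (hJW hj) (hJ0 j hj), lev_shift hF'.1 hη (hJW hj) (hJ0 j hj),
    sep_lev hη hF.2.1 hg h2 (hJW hj) (hJ0 j hj) (h4 ⟨j, hj⟩)]
  have e := h1 ⟨j, hj⟩
  simp only [hn0] at e ⊢
  linarith

lemma sep_pair (t : Mink d) (o1 o2 : Set (Mink d)) : ∃ M : ℕ, 0 < M ∧ ∀ η ∈ S.C, ∀ g ∈ S.Γ,
    S.ρ g t = t → S.R M η o1 (S.act g o2) → ∃ h ∈ S.Γ, S.ρ h t = t ∧ o1 = S.act h o2 := by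
  by_contra hc
  have hc' : ∀ M : ℕ, 0 < M → ∃ η ∈ S.C, ∃ g ∈ S.Γ, S.ρ g t = t ∧ S.R M η o1 (S.act g o2) ∧
      ¬ ∃ h ∈ S.Γ, S.ρ h t = t ∧ o1 = S.act h o2 := by
    intro M hM
    by_contra h2
    refine hc ⟨M, hM, fun η hη g hg h3 h4 => ?_⟩
    by_contra h5
    exact h2 ⟨η, hη, g, hg, h3, h4, h5⟩
  obtain ⟨η, hη, g1, hg1, ht1, hR1, hno⟩ := hc' 1 one_pos
  have key : ∀ M : ℕ, 0 < M → ∃ h ∈ S.Γ, S.ρ h η = η ∧ S.ρ h t = t ∧
      S.R M η o1 (S.act h (S.act g1 o2)) := by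
    intro M hM
    obtain ⟨η', hη', g, hg, ht, hR, -⟩ := hc' M hM
    obtain rfl : η = η' := Fl.uniq hη hη' hR1.1 hR.1
    have hm : g * g1⁻¹ ∈ S.Γ := S.Γ.mul_mem hg (S.Γ.inv_mem hg1)
    have e : S.act (g * g1⁻¹) (S.act g1 o2) = S.act g o2 := by rw [act_mul, sep_act_inv]
    refine ⟨g * g1⁻¹, hm, ?_, by rw [S.ρ_mul, sep_fix_inv ht1, ht], by rwa [e]⟩
    have h1 := hR1.2.1.act hm
    rw [e] at h1
    exact Fl.uniq (S.invC _ _ hη) hη h1 hR.2.1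
  obtain ⟨h, hh, h1, h2⟩ := sep1 hη key
  exact hno ⟨h * g1, S.Γ.mul_mem hh hg1, by rw [S.ρ_mul, ht1, h1], by rw [act_mul, h2]⟩

lemma exists_sep (ht : t ∈ S.W) : ∃ M0 : ℕ, 0 < M0 ∧ ∀ M, M0 ∣ M → S.Sep M t := by
  classical
  obtain ⟨Φ, hΦ, hE⟩ := finE ht
  choose f hf0 hf using fun p : Set (Mink d) × Set (Mink d) => sep_pair (S := S) t p.1 p.2
  refine ⟨∏ p ∈ (hΦ.prod hΦ).toFinset, f p, Finset.prod_pos fun p _ => hf0 p, ?_⟩
  intro M hM η hη h0 o o' ho ho' hR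
  obtain ⟨h1, hh1, ht1, hm1⟩ := hE η hη h0 o ho
  obtain ⟨h2, hh2, ht2, hm2⟩ := hE η hη h0 o' ho'
  have hd : f (S.act h1 o, S.act h2 o') ∣ M :=
    (Finset.dvd_prod_of_mem f (by simp [hm1, hm2])).trans hM
  have hR' := (hR.act hh1).of_dvd hd
  have e : S.act (h1 * h2⁻¹) (S.act h2 o') = S.act h1 o' := by rw [act_mul, sep_act_inv]
  obtain ⟨h, hh, h3, h4⟩ := hf (S.act h1 o, S.act h2 o') _ (S.invC h1 _ hη) (h1 * h2⁻¹)
    (S.Γ.mul_mem hh1 (S.Γ.inv_mem hh2)) (by rw [S.ρ_mul, sep_fix_inv ht2, ht1]) (by rwa [e])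
  refine ⟨h2⁻¹ * (h⁻¹ * h1), S.Γ.mul_mem (S.Γ.inv_mem hh2) (S.Γ.mul_mem (S.Γ.inv_mem hh) hh1),
    by rw [S.ρ_mul, S.ρ_mul, ht1, sep_fix_inv h3, sep_fix_inv ht2], ?_⟩
  simp only at h4
  rw [act_mul, act_mul, h4, sep_act_inv, sep_act_inv]

/-- the exits of the flat of `ξ` are close to `t` -/
lemma ex_bd (ht : t ∈ S.W) (hξ : ξ ∈ S.C) (h0 : lor t ξ = 0) :
    ∃ B : ℝ, ∀ o, S.Ex t ξ o → |lev o ξ t| ≤ B ∧ |lev o ξ (-t)| ≤ B := by
  obtain ⟨Φ, hΦ, hE⟩ := finE ht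
  have key : ∀ φ : Set (Mink d), ∃ B : ℝ, ∀ o, S.Ex t ξ o → ∀ h ∈ S.Γ, S.ρ h t = t →
      S.act h o = φ → |lev o ξ t| ≤ B ∧ |lev o ξ (-t)| ≤ B := by
    intro φ
    by_cases hc : ∃ o, S.Ex t ξ o ∧ ∃ h ∈ S.Γ, S.ρ h t = t ∧ S.act h o = φ
    · obtain ⟨o1, ho1, h1, hh1, ht1, e1⟩ := hc
      refine ⟨max |lev o1 ξ t| |lev o1 ξ (-t)|, fun o ho h hh hth e => ?_⟩
      have hm : h1⁻¹ * h ∈ S.Γ := S.Γ.mul_mem (S.Γ.inv_mem hh1) hh
      have e2 : S.act (h1⁻¹ * h) o = o1 := by rw [act_mul, e, ← e1, sep_act_inv]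
      have e3 : S.ρ (h1⁻¹ * h) t = t := by rw [S.ρ_mul, hth, sep_fix_inv ht1]
      have e4 : S.ρ (h1⁻¹ * h) ξ = ξ := by
        have h5 := ho.1.act hm
        rw [e2] at h5
        exact Fl.uniq (S.invC _ _ hξ) hξ h5 ho1.1
      have e5 := lev_act (S := S) (h1⁻¹ * h) o ξ t
      have e6 := lev_act (S := S) (h1⁻¹ * h) o ξ (-t)
      rw [e2, e4, e3] at e5
      rw [e2, e4, map_neg, e3] at e6
      rw [← e5, ← e6]
      exact ⟨le_max_left _ _, le_max_right _ _⟩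
    · exact ⟨0, fun o ho h hh hth e => (hc ⟨o, ho, h, hh, hth, e⟩).elim⟩
  choose B hB using key
  obtain ⟨b, hb⟩ := (hΦ.image B).bddAbove
  refine ⟨b, fun o ho => ?_⟩
  obtain ⟨h, hh, hth, hm⟩ := hE ξ hξ h0 o ho
  have h1 := hB _ o ho h hh hth rfl
  have h2 := hb (Set.mem_image_of_mem B hm)
  exact ⟨h1.1.trans h2, h1.2.trans h2⟩

end Pool.Agent.Lib.MP_661727_gt.Ar.Sys
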