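import Pool.Agent.Lib.MP_661727_gt.Ar.B3
import Pool.Agent.Lib.MP_661727_gt.Ar.K
import Pool.Agent.Lib.MP_661727_gt.Ar.Dih

/-! Arithmetic lattices have covers with prescribed cusp groups. -/

namespace Pool.Agent.Lib.MP_661727_gt.Ar

open Multiplicative

lemma top_horo {d : ℕ} {η : Mink d} (hη : Nul η) : (horoball η).Nonempty := by
  have h2 : Nul ((2 : ℝ) • η) := by
    refine ⟨?_, ?_⟩
    · rw [lor_smul_left, lor_smul_right, hη.1]; simp
    · have := hη.2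
      simp only [Prod.smul_fst, smul_eq_mul]; linarith
  obtain ⟨h3, h4, -⟩ := horo_pt (oo_mem (d := d)) h2
  refine ⟨_, h3, ?_⟩
  rw [lor_smul_right] at h4
  linarith

lemma top_conj {d : ℕ} (L : Cusped d) {g γ : L.G} {c c' : L.C}
    (h : L.lin g (L.b c') = L.lin γ (L.b c)) :
    c' = c ∧ ∀ k, g * L.α c k * g⁻¹ = γ * L.α c k * γ⁻¹ := by
  have h1 : L.ρ (γ⁻¹ * g) (L.b c') = L.b c := by
    change L.lin (γ⁻¹ * g) (L.b c') = L.b c
    rw [map_mul, LinearEquiv.mul_apply, h, ← LinearEquiv.mul_apply, ← map_mul, inv_mul_cancel,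
      map_one]
    rfl
  have h2 := L.disj (γ⁻¹ * g) c' c (by rw [h1, Set.inter_self]; exact top_horo (L.light c))
  obtain ⟨rfl, h3⟩ := h2
  refine ⟨rfl, fun k => ?_⟩
  obtain ⟨m, hm⟩ := (L.α_range c' _).2 h3
  have h4 : g = γ * L.α c' m := by rw [hm]; group
  have h5 : L.α c' m * L.α c' k = L.α c' k * L.α c' m := by
    rw [← map_mul, ← map_mul, mul_comm]
  rw [h4, mul_assoc γ, h5]
  group

theorem star {d : ℕ} (L : Cusped d) (hA : L.Arith) (c : L.C) (ν : Zk (d - 1) →+ ℤ) (hν : ν ≠ 0) :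
    ∃ N : ℕ, 0 < N ∧ ∀ K : ℕ, 0 < K → N ∣ K → ∃ H : Subgroup L.G, H.FiniteIndex ∧
      (∀ k, L.α c (ofAdd k) ∈ H → (K : ℤ) ∣ ν k) ∧
      ∀ g c' k, (c' = c → (K : ℤ) ∣ ν (N • k)) → g * L.α c' (ofAdd (N • k)) * g⁻¹ ∈ H := by
  obtain ⟨S0, hρ0, hC0, t, ht0, h0, r, hr, hk⟩ := exists_sys L hA c ν hν
  obtain ⟨S, e1, e2, e3, hS⟩ := S0.exists_spec
  have hρ : S.ρ = L.lin := e1.trans hρ0
  have hC : S.C = cusps L := e3.trans hC0
  have ht : t ∈ S.W := e2 ▸ ht0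
  have hξ : L.b c ∈ S.C := by rw [hC]; exact ⟨1, c, by simp⟩
  have hn : Nul (L.b c) := L.light c
  obtain ⟨K0, a, b, h2⟩ := Sys.exists_two hS ht hξ h0
  have hb : b ≠ 0 := (h2.pos.trans h2.lt).ne'
  have := h2.fi
  obtain ⟨N0, hN0, hpow⟩ : ∃ N0 : ℕ, 0 < N0 ∧ ∀ g : L.G, g ^ N0 ∈ K0 :=
    ⟨K0.normalCore.index, Nat.pos_of_ne_zero Subgroup.FiniteIndex.index_ne_zero,
      fun g => K0.normalCore_le (K0.normalCore.pow_index_mem g)⟩
  have hcon : ∀ (g : L.G) c' (k : Zk (d - 1)), g * L.α c' (ofAdd (N0 • k)) * g⁻¹ ∈ K0 := by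
    intro g c' k
    have := hpow (g * L.α c' (ofAdd k) * g⁻¹)
    rwa [conj_pow, ← map_pow, ← ofAdd_nsmul] at this
  have hfix : ∀ c' k, S.ρ (L.α c' k) (L.b c') = L.b c' := fun c' k => by
    rw [hρ]; exact (L.α_range c' _).1 ⟨k, rfl⟩
  have hco : ∀ (k : Zk (d - 1)) (k' : ℤ),
      S.ρ (L.α c (ofAdd k)) t = t + ((k' : ℝ) * b) • L.b c → (k' : ℝ) * b = r * ν k := by
    intro k k' h
    rw [hρ, hk] at h
    exact (shift_inj hn h).symm
  obtain ⟨k1, hk1⟩ : ∃ k1, ν k1 ≠ 0 := by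
    by_contra h
    push Not at h
    exact hν (AddMonoidHom.ext h)
  obtain ⟨k0, hk0⟩ : ∃ k0 : ℤ, (k0 : ℝ) * b = r * (N0 * ν k1) := by
    obtain ⟨H, -, -, -, -, h⟩ := Sys.dihedral hS ht hξ h0 h2 Nat.one_pos
    obtain ⟨k0, h, -⟩ := h (L.α c (ofAdd (N0 • k1))) (by
      simpa only [one_mul, inv_one, mul_one] using hcon 1 c k1) (hfix c _)
    refine ⟨k0, (hco _ _ h).trans ?_⟩
    rw [map_nsmul]; simp
  have hk00 : k0 ≠ 0 := by
    rintro rfl
    have : r * ((N0 : ℝ) * ν k1) ≠ 0 :=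
      mul_ne_zero hr (mul_ne_zero (by exact_mod_cast hN0.ne') (by exact_mod_cast hk1))
    exact this (by rw [← hk0]; simp)
  have key : ∀ (j : ℕ) (k' v : ℤ), (k' : ℝ) * b = r * v →
      (((2 * j * k0.natAbs : ℕ) : ℤ) ∣ k' ↔ ((2 * N0 * (ν k1).natAbs * j : ℕ) : ℤ) ∣ v) := by
    intro j k' v h
    have h3 : k' * (N0 * ν k1) = k0 * v := by
      have : r * b * ((k' : ℝ) * (N0 * ν k1)) = r * b * (k0 * v) := by
        linear_combination (r * (N0 * ν k1)) * h - (r * v) * hk0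
      exact_mod_cast mul_left_cancel₀ (mul_ne_zero hr hb) this
    have h4 : ((2 * j * k0.natAbs : ℕ) : ℤ) ∣ k' ↔ 2 * j * k0 ∣ k' := by
      rw [← Int.natAbs_dvd (a := 2 * j * k0)]; simp [Int.natAbs_mul]
    have h5 : ((2 * N0 * (ν k1).natAbs * j : ℕ) : ℤ) ∣ v ↔ 2 * N0 * ν k1 * j ∣ v := by
      rw [← Int.natAbs_dvd (a := 2 * N0 * ν k1 * j)]; simp [Int.natAbs_mul]
    have h6 : (N0 : ℤ) * ν k1 ≠ 0 := mul_ne_zero (by exact_mod_cast hN0.ne') hk1
    rw [h4, h5]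
    constructor
    · rintro ⟨m, rfl⟩
      exact ⟨m, mul_left_cancel₀ hk00 (by linear_combination -h3)⟩
    · rintro ⟨m, rfl⟩
      exact ⟨m, mul_right_cancel₀ h6 (by linear_combination h3)⟩
  have hp1 : 0 < (ν k1).natAbs := Int.natAbs_pos.2 hk1
  refine ⟨2 * N0 * (ν k1).natAbs, by positivity, ?_⟩
  rintro _ hK ⟨j, rfl⟩
  have hj : 0 < j := Nat.pos_of_mul_pos_left hK
  have hp0 : 0 < k0.natAbs := Int.natAbs_pos.2 hk00
  obtain ⟨H, f1, f2, f3, f4, f5⟩ :=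
    Sys.dihedral hS ht hξ h0 h2 (n := 2 * j * k0.natAbs) (by positivity)
  refine ⟨H, f1, fun k h => ?_, fun g c' k h => ?_⟩
  · obtain ⟨k', g1, g2⟩ := f5 _ (f2 h) (hfix c _)
    exact (key j k' _ (hco _ _ g1)).1 (g2.1 h)
  · have hη : L.lin g (L.b c') ∈ S.C := by rw [hC]; exact ⟨g, c', rfl⟩
    rcases f4 _ hη with ⟨γ, hγ, e⟩ | e
    · rw [hρ] at e
      obtain ⟨rfl, e'⟩ := top_conj L e
      rw [e']
      refine f3 γ hγ _ ?_
      have hm : L.α c' (ofAdd ((2 * N0 * (ν k1).natAbs) • k)) ∈ K0 := by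
        have := hcon 1 c' ((2 * (ν k1).natAbs) • k)
        rw [smul_smul, show N0 * (2 * (ν k1).natAbs) = 2 * N0 * (ν k1).natAbs by ring] at this
        simpa using this
      obtain ⟨k', g1, g2⟩ := f5 _ hm (hfix c' _)
      exact g2.2 ((key j k' _ (hco _ _ g1)).2 (h rfl))
    · have := e _ (hcon g c' ((ν k1).natAbs • k)) (by
        rw [← hρ, S.ρ_mul, S.ρ_mul, S.ρ_inv, hfix])
      rwa [conj_pow, ← map_pow, ← ofAdd_nsmul, smul_smul, smul_smul] at this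

theorem adapt {d : ℕ} (L : Cusped d) (hA : L.Arith) : L.Adapt := by
  intro A hfi
  have := L.fin
  choose n hB using fun c => Submodule.nonempty_basis_of_pid (Pi.basisFun ℤ (Fin (d - 1)))
    (AddSubgroup.toIntSubmodule (A c))
  have B := fun c => (hB c).some
  have he : ∀ c, 0 < (A c).index := fun c => Nat.pos_of_ne_zero (hfi c).index_ne_zero
  let θ : ∀ c, Zk (d - 1) →+ AddSubgroup.toIntSubmodule (A c) := fun c =>
    { toFun := fun h => ⟨(A c).index • h, (A c).nsmul_index_mem h⟩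
      map_zero' := Subtype.ext (by simp)
      map_add' := fun x y => Subtype.ext (by simp) }
  have hθ : ∀ c (a : AddSubgroup.toIntSubmodule (A c)), θ c a.1 = (A c).index • a :=
    fun c a => Subtype.ext rfl
  let ν : ∀ p : Σ c, Fin (n c), Zk (d - 1) →+ ℤ := fun p =>
    ((B p.1).coord p.2).toAddMonoidHom.comp (θ p.1)
  have hν : ∀ p h, ν p h = (B p.1).repr (θ p.1 h) p.2 := fun p h => rfl
  have hν0 : ∀ p, ν p ≠ 0 := fun p h => by
    have h1 := hν p (B p.1 p.2).1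
    rw [h, hθ, map_nsmul] at h1
    have := (he p.1).ne'
    simp at h1
    omega
  choose N hN hH using fun p : Σ c, Fin (n c) => star L hA p.1 (ν p) (hν0 p)
  have := Fintype.ofFinite (Σ c, Fin (n c))
  refine ⟨∏ p, N p, Finset.prod_pos fun p _ => hN p, fun k hk hm => ?_⟩
  have hd : ∀ p, N p ∣ k := fun p => (Finset.dvd_prod_of_mem N (Finset.mem_univ p)).trans hm
  choose H h1 h2 h3 using fun p => hH p (k * (A p.1).index) (Nat.mul_pos hk (he _))
    ((hd p).mul_right _)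
  have : (⨅ p, H p).FiniteIndex := Subgroup.finiteIndex_iInf h1
  refine ⟨(⨅ p, H p).normalCore, inferInstance, inferInstance, fun c h => ⟨fun hh => ?_, ?_⟩⟩
  · have h4 := Subgroup.mem_iInf.1 (Subgroup.normalCore_le _ hh)
    choose q hq using fun i => h2 ⟨c, i⟩ h (h4 ⟨c, i⟩)
    have h5 : θ c h = (k * (A c).index) • (B c).equivFun.symm q := by
      refine (B c).ext_elem fun i => ?_
      rw [map_nsmul]
      have := hq i
      rw [hν] at this
      simp only [this, Finsupp.smul_apply, nsmul_eq_mul]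
      rw [← Module.Basis.equivFun_apply, LinearEquiv.apply_symm_apply]
    refine ⟨((B c).equivFun.symm q).1, ((B c).equivFun.symm q).2, ?_⟩
    have h6 : (A c).index • h = (A c).index • k • ((B c).equivFun.symm q).1 := by
      rw [smul_smul, mul_comm]; exact congrArg Subtype.val h5
    exact nsmul_right_injective (he c).ne' h6
  · rintro ⟨a, ha, rfl⟩ g
    refine Subgroup.mem_iInf.2 fun p => ?_
    obtain ⟨m, hm⟩ := hd p
    have e : k • a = N p • m • a := by rw [smul_smul, ← hm]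
    rw [e]
    refine h3 p g c _ ?_
    rintro rfl
    rw [← e, map_nsmul, hν, show θ p.1 a = (A p.1).index • (⟨a, ha⟩ :
      AddSubgroup.toIntSubmodule (A p.1)) from hθ p.1 ⟨a, ha⟩, map_nsmul]
    exact ⟨(B p.1).repr ⟨a, ha⟩ p.2, by simp [mul_assoc]⟩

end Pool.Agent.Lib.MP_661727_gt.Ar
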